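import Mathlib

/-!
# Projective varieties over the complex numbers, curves on surfaces and their canonical degree

A projective variety `X ⊆ ℙ(ι)` over `ℂ` (here `ℙ(ι)` is the projective space with homogeneous
coordinates indexed by the finite type `ι`) is given by its generic point: the tuple
`X.coord : ι → K` of homogeneous coordinates in its function field `K`.
-/

open MvPolynomial

namespace Pool.Agent.CanonDeg

/-- An (integral, closed) projective variety in the projective space over `ℂ` with homogeneous
coordinates indexed by `ι`, with function field `K`, presented by its generic point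
`coord : ι → K`.  Its homogeneous ideal consists of the homogeneous polynomials which vanish on
`coord`, and the quotients of the coordinates generate its function field `K`. -/
structure ProjVariety (ι : Type) [Fintype ι] (K : Type) [Field K] [Algebra ℂ K] where
  /-- the homogeneous coordinates of the generic point -/
  coord : ι → K
  ne_zero : coord ≠ 0
  generates : IntermediateField.adjoin ℂ {q : K | ∃ i j, coord j ≠ 0 ∧ q = coord i / coord j} = ⊤

section Spec

variable {ι : Type} {K M : Type} [Field K] [Algebra ℂ K] [Field M] [Algebra ℂ M]

/-- `SpecTo x y q r`: the rational function `q = F(x)/G(x)` (`F`, `G` homogeneous polynomials of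
the same degree) is defined at the point `y` (that is, `G(y) ≠ 0`) and has there the value
`r = F(y)/G(y)`. -/
def SpecTo (x : ι → K) (y : ι → M) (q : K) (r : M) : Prop :=
  ∃ (d : ℕ) (F G : MvPolynomial ι ℂ), F.IsHomogeneous d ∧ G.IsHomogeneous d ∧
    aeval x G ≠ 0 ∧ aeval y G ≠ 0 ∧ q = aeval x F / aeval x G ∧ r = aeval y F / aeval y G

end Spec

section Variety

variable {ι : Type} [Fintype ι] {K : Type} [Field K] [Algebra ℂ K]

/-- `α` (up to scaling) is a closed point of the projective variety `X`: all homogeneous
polynomials which vanish on `X` vanish at `α`. -/
def ProjVariety.IsPoint (X : ProjVariety ι K) (α : ι → ℂ) : Prop :=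
  α ≠ 0 ∧ ∀ (d : ℕ) (F : MvPolynomial ι ℂ), F.IsHomogeneous d → aeval X.coord F = 0 →
    aeval α F = 0

/-- The rational function `q` on `X` is regular at the point `α`. -/
def ProjVariety.RegularAt (X : ProjVariety ι K) (α : ι → ℂ) (q : K) : Prop :=
  ∃ c : ℂ, SpecTo X.coord α q c

/-- The rational function `q` on `X` is regular at the point `α` and vanishes there. -/
def ProjVariety.VanishesAt (X : ProjVariety ι K) (α : ι → ℂ) (q : K) : Prop :=
  SpecTo X.coord α q 0

/-- `a, b` is a system of local parameters of the surface `X` at the point `α`: two elements
which generate the maximal ideal of the local ring of `X` at `α`. -/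
def ProjVariety.IsLocalParameters (X : ProjVariety ι K) (α : ι → ℂ) (a b : K) : Prop :=
  X.VanishesAt α a ∧ X.VanishesAt α b ∧
    ∀ q, X.VanishesAt α q → ∃ r s, X.RegularAt α r ∧ X.RegularAt α s ∧ q = r * a + s * b

/-- `X` is a smooth projective surface: its function field has transcendence degree `2` over `ℂ`
and at every point the maximal ideal of the local ring is generated by two elements, i.e.
the local ring is regular. -/
def ProjVariety.IsSmoothSurface (X : ProjVariety ι K) : Prop :=
  Algebra.trdeg ℂ K = 2 ∧ ∀ α, X.IsPoint α → ∃ a b, X.IsLocalParameters α a b

end Variety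

section Curve

variable (L : Type) [Field L] [Algebra ℂ L]

/-- The places of a function field `L` of one variable over `ℂ`: the valuation rings of `L`
which contain `ℂ` and are different from `L`.  They are the points of the
smooth projective curve with function field `L` (the normalization of any projective curve
with function field `L`). -/
abbrev Place : Type := {A : ValuationSubring L // A ≠ ⊤ ∧ ∀ c : ℂ, algebraMap ℂ L c ∈ A}

variable {L}

/-- `f` has order `k` at the place `A`: `f = u * π ^ k` with `u` a unit of `A` and `π` a generator
of the maximal ideal of `A`. -/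
def Place.HasOrd (A : Place L) (f : L) (k : ℤ) : Prop :=
  ∃ π u : L, (∀ x, x ∈ A.1.nonunits ↔ ∃ a ∈ A.1, x = a * π) ∧ u ≠ 0 ∧ u ∈ A.1 ∧ u⁻¹ ∈ A.1 ∧
    f = u * π ^ k

open Classical in
/-- The order of vanishing of a function at a place (`0` if it is not defined). -/
noncomputable def Place.ord (A : Place L) (f : L) : ℤ :=
  if h : ∃ k, A.HasOrd f k then h.choose else 0

variable (L)

/-- The regular (holomorphic) differentials of the function field `L`: the differentials which
at each place `A` are of the form `∑ fᵢ dgᵢ` with `fᵢ, gᵢ ∈ A`. -/
noncomputable def regularDifferentials : Submodule ℂ (Ω[L⁄ℂ]) :=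
  ⨅ A : Place L, Submodule.span ℂ
    {η | ∃ f ∈ A.1, ∃ g ∈ A.1, η = f • KaehlerDifferential.D ℂ L g}

/-- The genus of a function field of one variable over `ℂ`: the dimension of the space of regular
differentials.  If `L` is the function field of a projective curve `C`, this is
the geometric genus of `C`. -/
noncomputable def genus : ℕ := Module.finrank ℂ (regularDifferentials L)

end Curve

section Degree

variable {ι : Type} [Fintype ι] {K L : Type} [Field K] [Algebra ℂ K] [Field L] [Algebra ℂ L]

/-- `C` is a (reduced, irreducible, closed) curve on the projective variety `X`: its function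
field has transcendence degree `1` and each homogeneous polynomial which vanishes on `X`
vanishes on `C`. -/
def IsCurveIn (X : ProjVariety ι K) (C : ProjVariety ι L) : Prop :=
  Algebra.trdeg ℂ L = 1 ∧
    ∀ (d : ℕ) (F : MvPolynomial ι ℂ), F.IsHomogeneous d → aeval X.coord F = 0 →
      aeval C.coord F = 0

/-- `α` is the center of the place `A` of `L` on the curve `C`, i.e. the image in `C` of the point
`A` of the normalization of `C`. -/
def IsCenter (C : ProjVariety ι L) (A : Place L) (α : ι → ℂ) : Prop :=
  ∃ j, α j ≠ 0 ∧ C.coord j ≠ 0 ∧
    ∀ i, C.coord i / C.coord j - algebraMap ℂ L (α i / α j) ∈ A.1.nonunits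

/-- The rational differential `2`-form `da ∧ db` on a variety with function field `K`, as an
alternating form on the rational vector fields (the derivations of `K` over `ℂ`):
`(da ∧ db)(D, E) = D a * E b - D b * E a`. -/
def twoForm (a b : K) (D E : Derivation ℂ K K) : K := D a * E b - D b * E a

/-- `k` is the canonical degree `K_X · C` of the curve `C` on the smooth projective surface `X`:
the degree of the pull-back of the canonical line bundle `Ω²_X` to the normalization of `C`,
computed with a rational section `ω` of `Ω²_X`.  At the place `A` of the function
field of `C`, with center `α`, let `a, b` be local parameters of `X` at `α`, so that `da ∧ db` is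
a local generator of `Ω²_X` at `α`, and write `ω = J da ∧ db`.  It is required that the
restriction `j A` of `J` to `C` is defined and nonzero; then `k` is the sum of the
orders of the functions `j A` at the places `A`. -/
def IsCanonicalDegree (X : ProjVariety ι K) (C : ProjVariety ι L) (k : ℤ) : Prop :=
  ∃ (ω : Derivation ℂ K K → Derivation ℂ K K → K) (j : Place L → L),
    (∀ A : Place L, j A ≠ 0 ∧ ∃ (α : ι → ℂ) (a b J : K), IsCenter C A α ∧
      X.IsLocalParameters α a b ∧ (∀ D E, ω D E = J * twoForm a b D E) ∧
      SpecTo X.coord C.coord J (j A)) ∧
    {A : Place L | A.ord (j A) ≠ 0}.Finite ∧ k = ∑ᶠ A : Place L, A.ord (j A)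

end Degree

end Pool.Agent.CanonDeg
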