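import Mathlib

/-!
# The field of elliptic functions

`Ell Λ` is the field of `Λ`-periodic meromorphic functions on `ℂ` (modulo equality off a discrete
closed set).
-/

open Filter Topology

namespace Pool.Agent.CanonDeg

variable (Λ : PeriodPair)

/-- The ring of `Λ`-periodic meromorphic functions. -/
def merPer : Subring (ℂ → ℂ) where
  carrier := {f | Meromorphic f ∧ ∀ l ∈ Λ.lattice, ∀ z, f (z + l) = f z}
  mul_mem' := by
    rintro a b ⟨ha, ha'⟩ ⟨hb, hb'⟩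
    exact ⟨ha.mul hb, fun l hl z => by simp [ha' l hl z, hb' l hl z]⟩
  one_mem' := ⟨Meromorphic.const 1, fun _ _ _ => rfl⟩
  add_mem' := by
    rintro a b ⟨ha, ha'⟩ ⟨hb, hb'⟩
    exact ⟨ha.add hb, fun l hl z => by simp [ha' l hl z, hb' l hl z]⟩
  zero_mem' := ⟨Meromorphic.const 0, fun _ _ _ => rfl⟩
  neg_mem' := by
    rintro a ⟨ha, ha'⟩
    exact ⟨ha.neg, fun l hl z => by simp [ha' l hl z]⟩

/-- The functions vanishing off a discrete closed set. -/
def nullIdeal : Ideal (merPer Λ) where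
  carrier := {f | ∀ᶠ z in codiscrete ℂ, (f : ℂ → ℂ) z = 0}
  add_mem' := by
    intro a b ha hb
    have ha' : ∀ᶠ z in codiscrete ℂ, (a : ℂ → ℂ) z = 0 := ha
    have hb' : ∀ᶠ z in codiscrete ℂ, (b : ℂ → ℂ) z = 0 := hb
    show ∀ᶠ z in codiscrete ℂ, ((a + b : merPer Λ) : ℂ → ℂ) z = 0
    filter_upwards [ha', hb'] with z h1 h2
    simp [h1, h2]
  zero_mem' := by simp
  smul_mem' := by
    intro c x hx
    have hx' : ∀ᶠ z in codiscrete ℂ, (x : ℂ → ℂ) z = 0 := hx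
    show ∀ᶠ z in codiscrete ℂ, ((c • x : merPer Λ) : ℂ → ℂ) z = 0
    filter_upwards [hx'] with z h1
    simp [h1]

theorem eventually_codiscrete_iff {P : ℂ → Prop} :
    (∀ᶠ z in codiscrete ℂ, P z) ↔ ∀ x, ∀ᶠ z in 𝓝[≠] x, P z := by
  show {z | P z} ∈ codiscrete ℂ ↔ _
  rw [mem_codiscrete]
  refine forall_congr' fun x => ?_
  rw [disjoint_principal_right, compl_compl]
  rfl

/-- A meromorphic function vanishes identically, or has isolated zeros. -/
theorem zero_or_ne_zero {f : ℂ → ℂ} (hf : Meromorphic f) :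
    (∀ᶠ z in codiscrete ℂ, f z = 0) ∨
      (∀ᶠ z in codiscrete ℂ, f z ≠ 0) ∧ ∀ z, meromorphicOrderAt f z ≠ ⊤ := by
  by_cases h : ∃ z, meromorphicOrderAt f z ≠ ⊤
  · right
    have h2 : ∀ z, meromorphicOrderAt f z ≠ ⊤ := by
      obtain ⟨z, hz⟩ := h
      have := (hf.meromorphicOn (s := Set.univ)).exists_meromorphicOrderAt_ne_top_iff_forall_mem
        isConnected_univ
      intro w
      exact this.mp ⟨z, trivial, hz⟩ w trivial
    refine ⟨?_, h2⟩
    rw [eventually_codiscrete_iff]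
    intro x
    exact (meromorphicOrderAt_ne_top_iff_eventually_ne_zero (hf x)).mp (h2 x)
  · left
    push Not at h
    rw [eventually_codiscrete_iff]
    intro x
    exact meromorphicOrderAt_eq_top_iff.mp (h x)

theorem exists_of_codiscrete {P : ℂ → Prop} (h : ∀ᶠ z in codiscrete ℂ, P z) : ∃ z, P z := by
  rw [eventually_codiscrete_iff] at h
  exact (h 0).exists

/-- Affine maps preserve the filter of codiscrete sets. -/
theorem codiscrete_comp_aff {P : ℂ → Prop} (h : ∀ᶠ z in codiscrete ℂ, P z) {a : ℂ} (ha : a ≠ 0)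
    (s : ℂ) : ∀ᶠ z in codiscrete ℂ, P (a * z + s) := by
  rw [eventually_codiscrete_iff] at h ⊢
  intro x
  have ht : Tendsto (fun z : ℂ => a * z + s) (𝓝[≠] x) (𝓝[≠] (a * x + s)) := by
    apply tendsto_nhdsWithin_of_tendsto_nhds_of_eventually_within
    · exact (Continuous.tendsto (by fun_prop) x).mono_left nhdsWithin_le_nhds
    · filter_upwards [self_mem_nhdsWithin] with z hz
      intro h1
      apply hz
      have h2 : a * z + s = a * x + s := h1
      have h3 : a * z = a * x := add_right_cancel h2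
      exact mul_left_cancel₀ ha h3
  exact ht.eventually (h _)

theorem codiscrete_comp_add {P : ℂ → Prop} (h : ∀ᶠ z in codiscrete ℂ, P z) (s : ℂ) :
    ∀ᶠ z in codiscrete ℂ, P (z + s) := by
  simpa using codiscrete_comp_aff h one_ne_zero s

/-- The field of elliptic functions with period lattice `Λ`. -/
def Ell : Type := merPer Λ ⧸ nullIdeal Λ

instance : (nullIdeal Λ).IsMaximal := by
  rw [Ideal.isMaximal_iff]
  constructor
  · intro h
    have h' : ∀ᶠ z in codiscrete ℂ, ((1 : merPer Λ) : ℂ → ℂ) z = 0 := h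
    obtain ⟨z, hz⟩ := exists_of_codiscrete h'
    exact one_ne_zero hz
  · intro J x hJ hx hxJ
    obtain ⟨f, hf, hp⟩ := x
    have hne : ∀ᶠ z in codiscrete ℂ, f z ≠ 0 := by
      rcases zero_or_ne_zero hf with h | h
      · exact absurd h hx
      · exact h.1
    have hyp : ∀ l ∈ Λ.lattice, ∀ z, f⁻¹ (z + l) = f⁻¹ z := by
      intro l hl z
      simp only [Pi.inv_apply, hp l hl z]
    set y : merPer Λ := ⟨f⁻¹, hf.inv, hyp⟩ with hy
    have h1 : 1 - y * ⟨f, hf, hp⟩ ∈ nullIdeal Λ := by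
      show ∀ᶠ z in codiscrete ℂ, (1 : ℂ) - (f z)⁻¹ * f z = 0
      filter_upwards [hne] with z hz
      rw [inv_mul_cancel₀ hz, sub_self]
    have h2 := J.add_mem (hJ h1) (J.mul_mem_left y hxJ)
    rwa [sub_add_cancel] at h2

/-- The field structure on the quotient, and the quotient map (kept opaque so that
instance problems are solved by unification). -/
theorem Ell.exists_field : ∃ (_ : Field (Ell Λ)) (φ : merPer Λ →+* Ell Λ),
    ∀ f, φ f = (Ideal.Quotient.mk (nullIdeal Λ) f : merPer Λ ⧸ nullIdeal Λ) :=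
  ⟨Ideal.Quotient.field (nullIdeal Λ), Ideal.Quotient.mk _, fun _ => rfl⟩

noncomputable instance : Field (Ell Λ) := (Ell.exists_field Λ).choose

/-- The quotient map. -/
noncomputable def Ell.ofMer : merPer Λ →+* Ell Λ := (Ell.exists_field Λ).choose_spec.choose

theorem Ell.ofMer_apply (f : merPer Λ) :
    Ell.ofMer Λ f = (Ideal.Quotient.mk (nullIdeal Λ) f : merPer Λ ⧸ nullIdeal Λ) :=
  (Ell.exists_field Λ).choose_spec.choose_spec f

theorem Ell.ofMer_surjective : Function.Surjective (Ell.ofMer Λ) := by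
  intro x
  obtain ⟨f, hf⟩ := Ideal.Quotient.mk_surjective (I := nullIdeal Λ) x
  exact ⟨f, by rw [Ell.ofMer_apply]; exact hf⟩

theorem Ell.ofMer_eq_iff (f g : merPer Λ) : Ell.ofMer Λ f = Ell.ofMer Λ g ↔ f - g ∈ nullIdeal Λ := by
  rw [Ell.ofMer_apply, Ell.ofMer_apply]
  exact Ideal.Quotient.eq

/-- The constant functions. -/
def constHom : ℂ →+* merPer Λ where
  toFun c := ⟨fun _ => c, Meromorphic.const c, fun _ _ _ => rfl⟩
  map_one' := rfl
  map_mul' _ _ := rfl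
  map_zero' := rfl
  map_add' _ _ := rfl

/-- The constants. -/
noncomputable instance : Algebra ℂ (Ell Λ) :=
  ((Ell.ofMer Λ).comp (constHom Λ)).toAlgebra

variable {Λ}

/-- The class of a periodic meromorphic function. -/
noncomputable def Ell.mk (f : ℂ → ℂ) (hf : Meromorphic f)
    (hp : ∀ l ∈ Λ.lattice, ∀ z, f (z + l) = f z) : Ell Λ :=
  Ell.ofMer Λ ⟨f, hf, hp⟩

theorem Ell.exists_rep (x : Ell Λ) : ∃ (f : ℂ → ℂ) (hf : Meromorphic f)
    (hp : ∀ l ∈ Λ.lattice, ∀ z, f (z + l) = f z), x = Ell.mk f hf hp := by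
  obtain ⟨f, rfl⟩ := Ell.ofMer_surjective Λ x
  exact ⟨f.1, f.2.1, f.2.2, rfl⟩

theorem Ell.mk_eq_mk_iff {f g : ℂ → ℂ} {hf hg} {hfp : ∀ l ∈ Λ.lattice, ∀ z, f (z + l) = f z}
    {hgp : ∀ l ∈ Λ.lattice, ∀ z, g (z + l) = g z} :
    Ell.mk f hf hfp = Ell.mk g hg hgp ↔ f =ᶠ[codiscrete ℂ] g := by
  rw [Ell.mk, Ell.mk, Ell.ofMer_eq_iff]
  show (∀ᶠ z in codiscrete ℂ, f z - g z = 0) ↔ ∀ᶠ z in codiscrete ℂ, f z = g z
  simp only [sub_eq_zero]

theorem Ell.algebraMap_eq (c : ℂ) :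
    algebraMap ℂ (Ell Λ) c = Ell.mk (fun _ => c) (Meromorphic.const c) (fun _ _ _ => rfl) := rfl

theorem Ell.mk_add {f g : ℂ → ℂ} {hf hg} {hfp : ∀ l ∈ Λ.lattice, ∀ z, f (z + l) = f z}
    {hgp : ∀ l ∈ Λ.lattice, ∀ z, g (z + l) = g z} {hs hsp} :
    Ell.mk f hf hfp + Ell.mk g hg hgp = (Ell.mk (f + g) hs hsp : Ell Λ) := by
  rw [Ell.mk, Ell.mk, ← map_add]
  rfl

theorem Ell.mk_sub {f g : ℂ → ℂ} {hf hg} {hfp : ∀ l ∈ Λ.lattice, ∀ z, f (z + l) = f z}
    {hgp : ∀ l ∈ Λ.lattice, ∀ z, g (z + l) = g z} {hs hsp} :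
    Ell.mk f hf hfp - Ell.mk g hg hgp = (Ell.mk (f - g) hs hsp : Ell Λ) := by
  rw [Ell.mk, Ell.mk, ← map_sub]
  rfl

theorem Ell.mk_neg {f : ℂ → ℂ} {hf} {hfp : ∀ l ∈ Λ.lattice, ∀ z, f (z + l) = f z} {hs hsp} :
    -Ell.mk f hf hfp = (Ell.mk (-f) hs hsp : Ell Λ) := by
  rw [Ell.mk, ← map_neg]
  rfl

theorem Ell.mk_mul {f g : ℂ → ℂ} {hf hg} {hfp : ∀ l ∈ Λ.lattice, ∀ z, f (z + l) = f z}
    {hgp : ∀ l ∈ Λ.lattice, ∀ z, g (z + l) = g z} {hs hsp} :
    Ell.mk f hf hfp * Ell.mk g hg hgp = (Ell.mk (f * g) hs hsp : Ell Λ) := by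
  rw [Ell.mk, Ell.mk, ← map_mul]
  rfl

theorem Ell.mk_eq_zero_iff {f : ℂ → ℂ} {hf} {hfp : ∀ l ∈ Λ.lattice, ∀ z, f (z + l) = f z} :
    (Ell.mk f hf hfp : Ell Λ) = 0 ↔ ∀ᶠ z in codiscrete ℂ, f z = 0 := by
  rw [Ell.mk, ← map_zero (Ell.ofMer Λ), Ell.ofMer_eq_iff, sub_zero]
  rfl

theorem Ell.mk_inv {f : ℂ → ℂ} {hf} {hfp : ∀ l ∈ Λ.lattice, ∀ z, f (z + l) = f z} {hs hsp} :
    (Ell.mk f hf hfp)⁻¹ = (Ell.mk f⁻¹ hs hsp : Ell Λ) := by
  rcases zero_or_ne_zero hf with h | h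
  · rw [Ell.mk_eq_zero_iff.mpr h, inv_zero, eq_comm, Ell.mk_eq_zero_iff]
    filter_upwards [h] with z hz
    simp [hz]
  · symm
    apply eq_inv_of_mul_eq_one_left
    rw [Ell.mk_mul (hs := hs.mul hf) (hsp := fun l hl z => by
      simp only [Pi.mul_apply, hfp l hl z, hsp l hl z])]
    rw [← map_one (algebraMap ℂ (Ell Λ)), Ell.algebraMap_eq, Ell.mk_eq_mk_iff]
    filter_upwards [h.1] with z hz
    simp [hz]

/-- The order of an elliptic function at a point of `ℂ`. -/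
noncomputable def Ell.ord (z : ℂ) (x : Ell Λ) : WithTop ℤ :=
  meromorphicOrderAt (Classical.choose x.exists_rep) z

theorem Ell.ord_mk (z : ℂ) {f : ℂ → ℂ} {hf} {hfp : ∀ l ∈ Λ.lattice, ∀ z, f (z + l) = f z} :
    Ell.ord z (Ell.mk f hf hfp) = meromorphicOrderAt f z := by
  obtain ⟨hg, hgp, h⟩ := Classical.choose_spec (Ell.mk f hf hfp).exists_rep
  rw [Ell.mk_eq_mk_iff] at h
  have h2 := (eventually_codiscrete_iff.mp h) z
  exact meromorphicOrderAt_congr (EventuallyEq.symm h2)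

theorem Ell.ord_eq_top_iff (z : ℂ) (x : Ell Λ) : Ell.ord z x = ⊤ ↔ x = 0 := by
  obtain ⟨f, hf, hp, rfl⟩ := x.exists_rep
  rw [Ell.ord_mk, Ell.mk_eq_zero_iff]
  constructor
  · intro h
    rcases zero_or_ne_zero hf with h1 | h1
    · exact h1
    · exact absurd h (h1.2 z)
  · intro h
    rw [meromorphicOrderAt_eq_top_iff]
    exact eventually_codiscrete_iff.mp h z

@[simp] theorem Ell.ord_zero (z : ℂ) : Ell.ord z (0 : Ell Λ) = ⊤ := by
  rw [Ell.ord_eq_top_iff]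

theorem Ell.ord_algebraMap (z : ℂ) {c : ℂ} (hc : c ≠ 0) :
    Ell.ord z (algebraMap ℂ (Ell Λ) c) = 0 := by
  classical
  rw [Ell.algebraMap_eq, Ell.ord_mk, meromorphicOrderAt_const, if_neg hc]

@[simp] theorem Ell.ord_one (z : ℂ) : Ell.ord z (1 : Ell Λ) = 0 := by
  rw [← map_one (algebraMap ℂ (Ell Λ))]
  exact Ell.ord_algebraMap z one_ne_zero

theorem Ell.ord_algebraMap_nonneg (z : ℂ) (c : ℂ) :
    0 ≤ Ell.ord z (algebraMap ℂ (Ell Λ) c) := by
  by_cases hc : c = 0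
  · rw [hc, map_zero, Ell.ord_zero]
    exact le_top
  · exact (Ell.ord_algebraMap z hc).ge

theorem Ell.ord_mul (z : ℂ) (x y : Ell Λ) : Ell.ord z (x * y) = Ell.ord z x + Ell.ord z y := by
  obtain ⟨f, hf, hp, rfl⟩ := x.exists_rep
  obtain ⟨g, hg, hgp, rfl⟩ := y.exists_rep
  rw [Ell.mk_mul (hs := hf.mul hg) (hsp := fun l hl z => by
      simp only [Pi.mul_apply, hp l hl z, hgp l hl z]), Ell.ord_mk, Ell.ord_mk, Ell.ord_mk,
    meromorphicOrderAt_mul (hf z) (hg z)]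

theorem Ell.ord_neg (z : ℂ) (x : Ell Λ) : Ell.ord z (-x) = Ell.ord z x := by
  obtain ⟨f, hf, hp, rfl⟩ := x.exists_rep
  rw [Ell.mk_neg (hs := hf.neg) (hsp := fun l hl z => by
      simp only [Pi.neg_apply, hp l hl z]), Ell.ord_mk, Ell.ord_mk]
  exact meromorphicOrderAt_neg.symm

theorem Ell.ord_add (z : ℂ) (x y : Ell Λ) :
    min (Ell.ord z x) (Ell.ord z y) ≤ Ell.ord z (x + y) := by
  obtain ⟨f, hf, hp, rfl⟩ := x.exists_rep
  obtain ⟨g, hg, hgp, rfl⟩ := y.exists_rep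
  rw [Ell.mk_add (hs := hf.add hg) (hsp := fun l hl z => by
      simp only [Pi.add_apply, hp l hl z, hgp l hl z]), Ell.ord_mk, Ell.ord_mk, Ell.ord_mk]
  exact meromorphicOrderAt_add (hf z) (hg z)

theorem Ell.ord_sub (z : ℂ) (x y : Ell Λ) :
    min (Ell.ord z x) (Ell.ord z y) ≤ Ell.ord z (x - y) := by
  rw [sub_eq_add_neg, ← Ell.ord_neg z y]
  exact Ell.ord_add z x (-y)

theorem Ell.ord_add_of_lt (z : ℂ) {x y : Ell Λ} (h : Ell.ord z x < Ell.ord z y) :
    Ell.ord z (x + y) = Ell.ord z x := by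
  obtain ⟨f, hf, hp, rfl⟩ := x.exists_rep
  obtain ⟨g, hg, hgp, rfl⟩ := y.exists_rep
  rw [Ell.mk_add (hs := hf.add hg) (hsp := fun l hl z => by
      simp only [Pi.add_apply, hp l hl z, hgp l hl z]), Ell.ord_mk, Ell.ord_mk]
  rw [Ell.ord_mk, Ell.ord_mk] at h
  exact meromorphicOrderAt_add_eq_left_of_lt (hg z) h

/-- The order as an integer, for nonzero elements (and `0` for the zero element). -/
noncomputable def Ell.ordZ (z : ℂ) (x : Ell Λ) : ℤ := (Ell.ord z x).untopD 0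

theorem Ell.coe_ordZ (z : ℂ) {x : Ell Λ} (hx : x ≠ 0) : (Ell.ordZ z x : WithTop ℤ) = Ell.ord z x := by
  have h : Ell.ord z x ≠ ⊤ := by rwa [Ne, Ell.ord_eq_top_iff]
  obtain ⟨k, hk⟩ := WithTop.ne_top_iff_exists.mp h
  rw [Ell.ordZ, ← hk]
  rfl

theorem Ell.ordZ_mul (z : ℂ) {x y : Ell Λ} (hx : x ≠ 0) (hy : y ≠ 0) :
    Ell.ordZ z (x * y) = Ell.ordZ z x + Ell.ordZ z y := by
  have h : (Ell.ordZ z (x * y) : WithTop ℤ) = ((Ell.ordZ z x + Ell.ordZ z y : ℤ) : WithTop ℤ) := by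
    rw [Ell.coe_ordZ z (mul_ne_zero hx hy), Ell.ord_mul, ← Ell.coe_ordZ z hx, ← Ell.coe_ordZ z hy]
    rfl
  exact_mod_cast h

theorem Ell.ordZ_zero (z : ℂ) : Ell.ordZ z (0 : Ell Λ) = 0 := by
  rw [Ell.ordZ, Ell.ord_zero]
  rfl

theorem Ell.ordZ_one (z : ℂ) : Ell.ordZ z (1 : Ell Λ) = 0 := by
  rw [Ell.ordZ, Ell.ord_one]
  rfl

theorem Ell.ordZ_inv (z : ℂ) (x : Ell Λ) : Ell.ordZ z x⁻¹ = - Ell.ordZ z x := by
  by_cases hx : x = 0
  · rw [hx, inv_zero, Ell.ordZ_zero, neg_zero]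
  · have h := Ell.ordZ_mul z (inv_ne_zero hx) hx
    rw [inv_mul_cancel₀ hx, Ell.ordZ_one] at h
    omega

theorem Ell.ordZ_div (z : ℂ) {x y : Ell Λ} (hx : x ≠ 0) (hy : y ≠ 0) :
    Ell.ordZ z (x / y) = Ell.ordZ z x - Ell.ordZ z y := by
  rw [div_eq_mul_inv, Ell.ordZ_mul z hx (inv_ne_zero hy), Ell.ordZ_inv, sub_eq_add_neg]

theorem Ell.ordZ_pow (z : ℂ) (x : Ell Λ) (k : ℕ) : Ell.ordZ z (x ^ k) = k * Ell.ordZ z x := by
  by_cases hx : x = 0
  · rcases Nat.eq_zero_or_pos k with hk | hk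
    · rw [hk, pow_zero, Ell.ordZ_one]; simp
    · rw [hx, zero_pow hk.ne', Ell.ordZ_zero, mul_zero]
  · induction k with
    | zero => rw [pow_zero, Ell.ordZ_one]; simp
    | succ k ih =>
      rw [pow_succ, Ell.ordZ_mul z (pow_ne_zero k hx) hx, ih]
      push_cast
      ring

theorem Ell.ordZ_zpow (z : ℂ) (x : Ell Λ) (k : ℤ) : Ell.ordZ z (x ^ k) = k * Ell.ordZ z x := by
  cases k with
  | ofNat k => rw [Int.ofNat_eq_natCast, zpow_natCast, Ell.ordZ_pow]
  | negSucc k =>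
    rw [zpow_negSucc, Ell.ordZ_inv, Ell.ordZ_pow, Int.negSucc_eq]
    push_cast
    ring

theorem Ell.ord_add_lattice (z : ℂ) {l : ℂ} (hl : l ∈ Λ.lattice) (x : Ell Λ) :
    Ell.ord (z + l) x = Ell.ord z x := by
  obtain ⟨f, hf, hp, rfl⟩ := x.exists_rep
  rw [Ell.ord_mk, Ell.ord_mk, ← meromorphicOrderAt_fun_comp_add_const_eq_meromorphicOrderAt]
  simp only [hp l hl]

/-- An elliptic function which is regular at `z` has a value at `z`. -/
theorem Ell.exists_value (z : ℂ) {x : Ell Λ} (h : 0 ≤ Ell.ord z x) :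
    ∃ c : ℂ, 0 < Ell.ord z (x - algebraMap ℂ (Ell Λ) c) := by
  obtain ⟨f, hf, hp, rfl⟩ := x.exists_rep
  rw [Ell.ord_mk] at h
  obtain ⟨c, hc⟩ := tendsto_nhds_of_meromorphicOrderAt_nonneg (hf z) h
  refine ⟨c, ?_⟩
  have hm : Meromorphic (f - fun _ => c) := hf.sub (Meromorphic.const c)
  rw [Ell.algebraMap_eq, Ell.mk_sub (hs := hm) (hsp := fun l hl z => by
      simp only [Pi.sub_apply, hp l hl z]), Ell.ord_mk, ← tendsto_zero_iff_meromorphicOrderAt_pos (hm z)]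
  have := hc.sub (tendsto_const_nhds (x := c))
  rwa [sub_self] at this

/-- The value is unique. -/
theorem Ell.value_unique (z : ℂ) {x : Ell Λ} {c c' : ℂ}
    (h : 0 < Ell.ord z (x - algebraMap ℂ (Ell Λ) c))
    (h' : 0 < Ell.ord z (x - algebraMap ℂ (Ell Λ) c')) : c = c' := by
  by_contra hne
  have h1 := lt_of_lt_of_le (lt_min h' h) (Ell.ord_sub z _ _)
  have e : x - algebraMap ℂ (Ell Λ) c' - (x - algebraMap ℂ (Ell Λ) c) =
      algebraMap ℂ (Ell Λ) (c - c') := by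
    rw [map_sub]; ring
  rw [e, Ell.ord_algebraMap z (sub_ne_zero.mpr hne)] at h1
  exact lt_irrefl _ h1

theorem Ell.value_mk (z : ℂ) {f : ℂ → ℂ} {hf} {hfp : ∀ l ∈ Λ.lattice, ∀ z, f (z + l) = f z}
    (h : ContinuousAt f z) :
    0 < Ell.ord z (Ell.mk f hf hfp - algebraMap ℂ (Ell Λ) (f z)) := by
  have hm : Meromorphic (f - fun _ => f z) := hf.sub (Meromorphic.const (f z))
  rw [Ell.algebraMap_eq, Ell.mk_sub (hs := hm) (hsp := fun l hl z => by
      simp only [Pi.sub_apply, hfp l hl z]), Ell.ord_mk,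
    ← tendsto_zero_iff_meromorphicOrderAt_pos (hm z)]
  have h1 : Tendsto f (𝓝[≠] z) (𝓝 (f z)) := h.tendsto.mono_left nhdsWithin_le_nhds
  have := h1.sub (tendsto_const_nhds (x := f z))
  rwa [sub_self] at this

/-- The normal form of a meromorphic function which is almost invariant under a translation
is invariant. -/
theorem nf_periodic {g : ℂ → ℂ} (hg : MeromorphicNFOn g Set.univ) {r : ℂ}
    (h : ∀ᶠ z in codiscrete ℂ, g (z + r) = g z) (z : ℂ) : g (z + r) = g z := by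
  have h1 : MeromorphicNFAt (g ∘ (· + r)) z := by
    apply MeromorphicNFAt.comp_analyticAt
    · exact hg (Set.mem_univ _)
    · fun_prop
  have h2 := (h1.eventuallyEq_nhdsNE_iff_eventuallyEq_nhds (hg (Set.mem_univ z))).mp
    (eventually_codiscrete_iff.mp h z)
  exact h2.self_of_nhds

/-- Each elliptic function is represented by a meromorphic function in normal form. -/
theorem Ell.exists_nf (x : Ell Λ) : ∃ (g : ℂ → ℂ) (hg : Meromorphic g)
    (hp : ∀ l ∈ Λ.lattice, ∀ z, g (z + l) = g z), x = Ell.mk g hg hp ∧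
    MeromorphicNFOn g Set.univ := by
  obtain ⟨f, hf, hp, rfl⟩ := x.exists_rep
  set g := toMeromorphicNFOn f Set.univ with hg
  have hgnf : MeromorphicNFOn g Set.univ := meromorphicNFOn_toMeromorphicNFOn f Set.univ
  have hgm : Meromorphic g := fun z => (hgnf (Set.mem_univ z)).meromorphicAt
  have hfg : ∀ᶠ z in codiscrete ℂ, f z = g z :=
    toMeromorphicNFOn_eqOn_codiscrete (hf.meromorphicOn (s := Set.univ))
  have hgp : ∀ l ∈ Λ.lattice, ∀ z, g (z + l) = g z := by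
    intro l hl
    apply nf_periodic hgnf
    filter_upwards [hfg, codiscrete_comp_add hfg l] with z h1 h2
    rw [← h1, ← h2, hp l hl]
  exact ⟨g, hgm, hgp, Ell.mk_eq_mk_iff.mpr hfg, hgnf⟩

/-- Liouville's theorem. -/
theorem Ell.liouville {x : Ell Λ} (h : ∀ z, 0 ≤ Ell.ord z x) : ∃ c : ℂ, x = algebraMap ℂ (Ell Λ) c := by
  obtain ⟨g, hg, hp, rfl, hnf⟩ := x.exists_nf
  have hd : Differentiable ℂ g := fun z =>
    ((hnf (Set.mem_univ z)).meromorphicOrderAt_nonneg_iff_analyticAt.mp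
      (by rw [← Ell.ord_mk z (hf := hg) (hfp := hp)]; exact h z)).differentiableAt
  have hb : Bornology.IsBounded (Set.range g) :=
    (IsZLattice.isCompact_range_of_periodic Λ.lattice g hd.continuous
      (fun z w hw => hp w hw z)).isBounded
  refine ⟨g 0, ?_⟩
  rw [Ell.algebraMap_eq, Ell.mk_eq_mk_iff]
  exact Eventually.of_forall fun z => hd.apply_eq_apply_of_bounded hb z 0

/-- The zeros and poles are finite in number modulo the lattice. -/
theorem Ell.finite_support {x : Ell Λ} (hx : x ≠ 0) :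
    ∃ S : Finset ℂ, ∀ z, Ell.ord z x ≠ 0 → ∃ s ∈ S, z - s ∈ Λ.lattice := by
  obtain ⟨f, hf, hp, rfl⟩ := x.exists_rep
  set K : Set ℂ := closure (ZSpan.fundamentalDomain Λ.basis) with hK
  have hKc : IsCompact K :=
    (ZSpan.fundamentalDomain_isBounded Λ.basis).isCompact_closure
  have hne : ∀ z, meromorphicOrderAt f z ≠ ⊤ := by
    intro z h
    rw [← Ell.ord_mk z (hf := hf) (hfp := hp), Ell.ord_eq_top_iff] at h
    exact hx h
  have hfin : {z ∈ K | meromorphicOrderAt f z ≠ 0}.Finite := by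
    have h1 := (MeromorphicOn.divisor f K).finiteSupport hKc
    apply h1.subset
    rintro z ⟨hzK, hz⟩
    rw [Function.mem_support, MeromorphicOn.divisor_apply (hf.meromorphicOn (s := K)) hzK]
    obtain ⟨k, hk⟩ := WithTop.ne_top_iff_exists.mp (hne z)
    rw [← hk] at hz ⊢
    intro h
    apply hz
    have h2 : k = 0 := by simpa using h
    rw [h2]
    rfl
  refine ⟨hfin.toFinset, ?_⟩
  intro z hz
  have hfl : ((ZSpan.floor Λ.basis z : Submodule.span ℤ (Set.range Λ.basis)) : ℂ) ∈ Λ.lattice := by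
    rw [Λ.lattice_eq_span_range_basis]
    exact (ZSpan.floor Λ.basis z).2
  have hz' : z = ZSpan.fract Λ.basis z + (ZSpan.floor Λ.basis z : ℂ) := by
    rw [ZSpan.fract_apply]; ring
  refine ⟨ZSpan.fract Λ.basis z, ?_, ?_⟩
  · rw [Set.Finite.mem_toFinset]
    refine ⟨subset_closure (ZSpan.fract_mem_fundamentalDomain _ _), ?_⟩
    rw [hz', Ell.ord_add_lattice _ hfl, Ell.ord_mk] at hz
    exact hz
  · have h3 : z - ZSpan.fract Λ.basis z = (ZSpan.floor Λ.basis z : ℂ) := by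
      rw [ZSpan.fract_apply]; ring
    rw [h3]
    exact hfl

/-- The composition with an affine map. -/
theorem affAux_meromorphic {f : ℂ → ℂ} (hf : Meromorphic f) (a s : ℂ) :
    Meromorphic (fun z => f (a * z + s)) := by
  intro z
  exact (hf (a * z + s)).comp_analyticAt (g := fun z => a * z + s) (by fun_prop)

theorem affAux_periodic {f : ℂ → ℂ} (hp : ∀ l ∈ Λ.lattice, ∀ z, f (z + l) = f z) (N : ℤ) (s : ℂ) :
    ∀ l ∈ Λ.lattice, ∀ z, (fun z => f (N * z + s)) (z + l) = (fun z => f (N * z + s)) z := by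
  intro l hl z
  have h1 : (N : ℂ) * l ∈ Λ.lattice := by
    have := Λ.lattice.smul_mem N hl
    rwa [zsmul_eq_mul] at this
  show f (N * (z + l) + s) = f (N * z + s)
  rw [← hp _ h1 (N * z + s)]
  congr 1
  ring

/-- The endomorphism `x(z) ↦ x(N z + s)` of the ring of meromorphic functions. -/
def affMer (N : ℤ) (s : ℂ) : merPer Λ →+* merPer Λ where
  toFun f := ⟨fun z => f.1 (N * z + s), affAux_meromorphic f.2.1 N s, affAux_periodic f.2.2 N s⟩
  map_one' := rfl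
  map_mul' _ _ := rfl
  map_zero' := rfl
  map_add' _ _ := rfl

theorem exists_aff (N : ℤ) (hN : N ≠ 0) (s : ℂ) : ∃ φ : Ell Λ →ₐ[ℂ] Ell Λ,
    ∀ f : merPer Λ, φ (Ell.ofMer Λ f) = Ell.ofMer Λ (affMer N s f) := by
  have hker : RingHom.ker (Ell.ofMer Λ) ≤ RingHom.ker ((Ell.ofMer Λ).comp (affMer N s)) := by
    intro f hf
    rw [RingHom.mem_ker] at hf ⊢
    rw [← map_zero (Ell.ofMer Λ), Ell.ofMer_eq_iff, sub_zero] at hf
    rw [RingHom.comp_apply, ← map_zero (Ell.ofMer Λ), Ell.ofMer_eq_iff, sub_zero]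
    exact codiscrete_comp_aff hf (Int.cast_ne_zero.mpr hN) s
  let ψ : Ell Λ →+* Ell Λ := RingHom.liftOfSurjective (Ell.ofMer Λ) (Ell.ofMer_surjective Λ)
    ⟨(Ell.ofMer Λ).comp (affMer N s), hker⟩
  have hψ : ∀ f, ψ (Ell.ofMer Λ f) = Ell.ofMer Λ (affMer N s f) := by
    intro f
    exact RingHom.liftOfRightInverse_comp_apply _ _ _ _ f
  refine ⟨{ ψ with commutes' := ?_ }, hψ⟩
  intro c
  exact hψ (constHom Λ c)

/-- The endomorphism `x(z) ↦ x(N z + s)` of the field of elliptic functions. -/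
noncomputable def Ell.aff (N : ℤ) (hN : N ≠ 0) (s : ℂ) : Ell Λ →ₐ[ℂ] Ell Λ :=
  (exists_aff N hN s).choose

theorem Ell.aff_mk (N : ℤ) (hN : N ≠ 0) (s : ℂ) {f : ℂ → ℂ} {hf}
    {hfp : ∀ l ∈ Λ.lattice, ∀ z, f (z + l) = f z} {hs hsp} :
    Ell.aff N hN s (Ell.mk f hf hfp) = (Ell.mk (fun z => f (N * z + s)) hs hsp : Ell Λ) :=
  (exists_aff N hN s).choose_spec ⟨f, hf, hfp⟩

theorem Ell.ord_aff (N : ℤ) (hN : N ≠ 0) (s : ℂ) (z : ℂ) (x : Ell Λ) :
    Ell.ord z (Ell.aff N hN s x) = Ell.ord (N * z + s) x := by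
  obtain ⟨f, hf, hp, rfl⟩ := x.exists_rep
  rw [Ell.aff_mk (hs := affAux_meromorphic hf N s) (hsp := affAux_periodic hp N s), Ell.ord_mk,
    Ell.ord_mk]
  have hg : AnalyticAt ℂ (fun z : ℂ => (N : ℂ) * z + s) z := by fun_prop
  have hg' : deriv (fun z : ℂ => (N : ℂ) * z + s) z ≠ 0 := by
    have h1 : HasDerivAt (fun z : ℂ => (N : ℂ) * z + s) (N : ℂ) z := by
      simpa using ((hasDerivAt_id z).const_mul (N : ℂ)).add_const s
    rw [h1.deriv]
    exact Int.cast_ne_zero.mpr hN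
  exact meromorphicOrderAt_comp_of_deriv_ne_zero (f := f) hg hg'

/-- An elliptic function invariant under the translations by `(1/N) Λ` is of the form
`y (N z + s)`. -/
theorem Ell.exists_aff_eq (N : ℤ) (hN : N ≠ 0) (s : ℂ) (x : Ell Λ)
    (h : ∀ r : ℂ, N * r ∈ Λ.lattice → Ell.aff 1 one_ne_zero r x = x) :
    ∃ y, Ell.aff N hN s y = x := by
  obtain ⟨g, hg, hp, rfl, hnf⟩ := x.exists_nf
  have hN' : (N : ℂ) ≠ 0 := Int.cast_ne_zero.mpr hN
  have hinv : ∀ r : ℂ, N * r ∈ Λ.lattice → ∀ z, g (z + r) = g z := by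
    intro r hr
    apply nf_periodic hnf
    have h1 := h r hr
    rw [Ell.aff_mk 1 one_ne_zero r (hs := affAux_meromorphic hg ((1 : ℤ) : ℂ) r)
      (hsp := affAux_periodic hp 1 r), Ell.mk_eq_mk_iff] at h1
    filter_upwards [h1] with z hz
    simpa using hz
  have hm : Meromorphic (fun z => g ((N : ℂ)⁻¹ * z + -((N : ℂ)⁻¹ * s))) :=
    affAux_meromorphic hg _ _
  have hper : ∀ l ∈ Λ.lattice, ∀ z, (fun z => g ((N : ℂ)⁻¹ * z + -((N : ℂ)⁻¹ * s))) (z + l) =
      (fun z => g ((N : ℂ)⁻¹ * z + -((N : ℂ)⁻¹ * s))) z := by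
    intro l hl z
    show g ((N : ℂ)⁻¹ * (z + l) + -((N : ℂ)⁻¹ * s)) = g ((N : ℂ)⁻¹ * z + -((N : ℂ)⁻¹ * s))
    have h2 := hinv ((N : ℂ)⁻¹ * l) (by rwa [mul_inv_cancel_left₀ hN'])
      ((N : ℂ)⁻¹ * z + -((N : ℂ)⁻¹ * s))
    rw [← h2]
    congr 1
    ring
  have hm2 := affAux_meromorphic hm N s
  have hper2 := affAux_periodic (f := fun z => g ((N : ℂ)⁻¹ * z + -((N : ℂ)⁻¹ * s))) hper N s
  refine ⟨Ell.mk _ hm hper, ?_⟩
  rw [Ell.aff_mk N hN s (hs := hm2) (hsp := hper2), Ell.mk_eq_mk_iff]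
  apply Eventually.of_forall
  intro z
  show g ((N : ℂ)⁻¹ * (N * z + s) + -((N : ℂ)⁻¹ * s)) = g z
  congr 1
  field_simp
  ring

theorem Ell.aff_aff (N : ℤ) (hN : N ≠ 0) (s : ℂ) (M : ℤ) (hM : M ≠ 0) (r : ℂ) (x : Ell Λ) :
    Ell.aff M hM r (Ell.aff N hN s x) = Ell.aff (N * M) (mul_ne_zero hN hM) (N * r + s) x := by
  obtain ⟨f, hf, hp, rfl⟩ := x.exists_rep
  have hm1 := affAux_meromorphic hf N s
  have hp1 := affAux_periodic hp N s
  have hm2 := affAux_meromorphic hm1 M r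
  have hp2 := affAux_periodic (f := fun z => f (N * z + s)) hp1 M r
  have hm3 := affAux_meromorphic hf ((N * M : ℤ) : ℂ) (N * r + s)
  have hp3 := affAux_periodic hp (N * M) (N * r + s)
  rw [Ell.aff_mk N hN s (hs := hm1) (hsp := hp1), Ell.aff_mk M hM r (hs := hm2) (hsp := hp2),
    Ell.aff_mk (N * M) (mul_ne_zero hN hM) (N * r + s) (hs := hm3) (hsp := hp3),
    Ell.mk_eq_mk_iff]
  apply Eventually.of_forall
  intro z
  show f (N * (M * z + r) + s) = f (((N * M : ℤ) : ℂ) * z + (N * r + s))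
  congr 1
  push_cast
  ring

theorem Ell.aff_lattice {l : ℂ} (hl : l ∈ Λ.lattice) (x : Ell Λ) :
    Ell.aff 1 one_ne_zero l x = x := by
  obtain ⟨f, hf, hp, rfl⟩ := x.exists_rep
  have hm1 := affAux_meromorphic hf ((1 : ℤ) : ℂ) l
  have hp1 := affAux_periodic hp 1 l
  rw [Ell.aff_mk 1 one_ne_zero l (hs := hm1) (hsp := hp1), Ell.mk_eq_mk_iff]
  apply Eventually.of_forall
  intro z
  show f (((1 : ℤ) : ℂ) * z + l) = f z
  rw [Int.cast_one, one_mul, hp l hl]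

theorem deriv_periodic {f : ℂ → ℂ} (hp : ∀ l ∈ Λ.lattice, ∀ z, f (z + l) = f z) :
    ∀ l ∈ Λ.lattice, ∀ z, deriv f (z + l) = deriv f z := by
  intro l hl z
  rw [← deriv_comp_add_const]
  congr 1
  ext w
  exact hp l hl w

theorem codiscrete_deriv_congr {f g : ℂ → ℂ} (h : ∀ᶠ z in codiscrete ℂ, f z = g z) :
    ∀ᶠ z in codiscrete ℂ, deriv f z = deriv g z := by
  rw [eventually_codiscrete_iff] at h ⊢
  intro x
  exact EventuallyEq.nhdsNE_deriv (h x)

theorem codiscrete_analytic {f : ℂ → ℂ} (hf : Meromorphic f) :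
    ∀ᶠ z in codiscrete ℂ, AnalyticAt ℂ f z := by
  rw [eventually_codiscrete_iff]
  intro x
  exact (hf x).eventually_analyticAt

theorem exists_D : ∃ d : Derivation ℂ (Ell Λ) (Ell Λ), ∀ (f : ℂ → ℂ) (hf : Meromorphic f)
    (hp : ∀ l ∈ Λ.lattice, ∀ z, f (z + l) = f z),
    d (Ell.mk f hf hp) = Ell.mk (deriv f) hf.deriv (deriv_periodic hp) := by
  let d : Ell Λ → Ell Λ := fun x => Ell.mk (deriv (Classical.choose x.exists_rep))
    (Classical.choose_spec x.exists_rep).choose.deriv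
    (deriv_periodic (Classical.choose_spec x.exists_rep).choose_spec.choose)
  have hd : ∀ (f : ℂ → ℂ) (hf : Meromorphic f) (hp : ∀ l ∈ Λ.lattice, ∀ z, f (z + l) = f z),
      d (Ell.mk f hf hp) = Ell.mk (deriv f) hf.deriv (deriv_periodic hp) := by
    intro f hf hp
    have h := (Classical.choose_spec (Ell.mk f hf hp).exists_rep).choose_spec.choose_spec
    rw [Ell.mk_eq_mk_iff] at h
    show Ell.mk _ _ _ = _
    rw [Ell.mk_eq_mk_iff]
    exact codiscrete_deriv_congr (EventuallyEq.symm h)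
  have hadd : ∀ x y, d (x + y) = d x + d y := by
    intro x y
    obtain ⟨f, hf, hp, rfl⟩ := x.exists_rep
    obtain ⟨g, hg, hgp, rfl⟩ := y.exists_rep
    have hsp : ∀ l ∈ Λ.lattice, ∀ z, (f + g) (z + l) = (f + g) z := fun l hl z => by
      simp only [Pi.add_apply, hp l hl z, hgp l hl z]
    have hsp' : ∀ l ∈ Λ.lattice, ∀ z, (deriv f + deriv g) (z + l) = (deriv f + deriv g) z :=
      fun l hl z => by
        simp only [Pi.add_apply, deriv_periodic hp l hl z, deriv_periodic hgp l hl z]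
    rw [Ell.mk_add (hs := hf.add hg) (hsp := hsp), hd, hd, hd,
      Ell.mk_add (hs := hf.deriv.add hg.deriv) (hsp := hsp'), Ell.mk_eq_mk_iff]
    filter_upwards [codiscrete_analytic hf, codiscrete_analytic hg] with z h1 h2
    rw [deriv_add h1.differentiableAt h2.differentiableAt, Pi.add_apply]
  have hmul : ∀ x y, d (x * y) = x * d y + y * d x := by
    intro x y
    obtain ⟨f, hf, hp, rfl⟩ := x.exists_rep
    obtain ⟨g, hg, hgp, rfl⟩ := y.exists_rep
    have hsp : ∀ l ∈ Λ.lattice, ∀ z, (f * g) (z + l) = (f * g) z := fun l hl z => by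
      simp only [Pi.mul_apply, hp l hl z, hgp l hl z]
    have hsp1 : ∀ l ∈ Λ.lattice, ∀ z, (f * deriv g) (z + l) = (f * deriv g) z :=
      fun l hl z => by
        simp only [Pi.mul_apply, hp l hl z, deriv_periodic hgp l hl z]
    have hsp2 : ∀ l ∈ Λ.lattice, ∀ z, (g * deriv f) (z + l) = (g * deriv f) z :=
      fun l hl z => by
        simp only [Pi.mul_apply, hgp l hl z, deriv_periodic hp l hl z]
    have hsp3 : ∀ l ∈ Λ.lattice, ∀ z, (f * deriv g + g * deriv f) (z + l) =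
        (f * deriv g + g * deriv f) z := fun l hl z => by
      rw [Pi.add_apply, Pi.add_apply, hsp1 l hl z, hsp2 l hl z]
    rw [Ell.mk_mul (hs := hf.mul hg) (hsp := hsp), hd, hd, hd,
      Ell.mk_mul (hs := hf.mul hg.deriv) (hsp := hsp1),
      Ell.mk_mul (hs := hg.mul hf.deriv) (hsp := hsp2),
      Ell.mk_add (hs := (hf.mul hg.deriv).add (hg.mul hf.deriv)) (hsp := hsp3), Ell.mk_eq_mk_iff]
    filter_upwards [codiscrete_analytic hf, codiscrete_analytic hg] with z h1 h2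
    rw [deriv_mul h1.differentiableAt h2.differentiableAt]
    simp only [Pi.add_apply, Pi.mul_apply]
    ring
  have hconst : ∀ c : ℂ, d (algebraMap ℂ (Ell Λ) c) = 0 := by
    intro c
    rw [Ell.algebraMap_eq, hd, Ell.mk_eq_zero_iff]
    exact Eventually.of_forall fun z => deriv_const z c
  have hsmul : ∀ (c : ℂ) (x : Ell Λ), d (c • x) = c • d x := by
    intro c x
    rw [Algebra.smul_def, hmul, hconst, mul_zero, add_zero, ← Algebra.smul_def]
  refine ⟨Derivation.mk' { toFun := d, map_add' := hadd, map_smul' := hsmul } ?_, hd⟩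
  intro a b
  exact hmul a b

/-- The derivation `d/dz`. -/
noncomputable def Ell.D : Derivation ℂ (Ell Λ) (Ell Λ) := exists_D.choose

theorem Ell.D_mk {f : ℂ → ℂ} {hf} {hfp : ∀ l ∈ Λ.lattice, ∀ z, f (z + l) = f z} {hs hsp} :
    Ell.D (Ell.mk f hf hfp) = (Ell.mk (deriv f) hs hsp : Ell Λ) :=
  exists_D.choose_spec f hf hfp

theorem Ell.D_aff (N : ℤ) (hN : N ≠ 0) (s : ℂ) (x : Ell Λ) :
    Ell.D (Ell.aff N hN s x) = (N : Ell Λ) * Ell.aff N hN s (Ell.D x) := by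
  obtain ⟨f, hf, hp, rfl⟩ := x.exists_rep
  have e : (N : Ell Λ) = algebraMap ℂ (Ell Λ) N := (map_intCast (algebraMap ℂ (Ell Λ)) N).symm
  have hm := affAux_meromorphic hf N s
  have hper := affAux_periodic hp N s
  have hm' := affAux_meromorphic hf.deriv N s
  have hper' := affAux_periodic (deriv_periodic hp) N s
  have hsp : ∀ l ∈ Λ.lattice, ∀ z, ((fun _ : ℂ => (N : ℂ)) * fun z => deriv f (N * z + s)) (z + l) =
      ((fun _ : ℂ => (N : ℂ)) * fun z => deriv f (N * z + s)) z := fun l hl z => by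
    have := hper' l hl z
    simp only [Pi.mul_apply] at this ⊢
    rw [this]
  rw [Ell.aff_mk (hs := hm) (hsp := hper), Ell.D_mk (hs := hm.deriv) (hsp := deriv_periodic hper),
    Ell.D_mk (hs := hf.deriv) (hsp := deriv_periodic hp), Ell.aff_mk (hs := hm') (hsp := hper'),
    e, Ell.algebraMap_eq, Ell.mk_mul (hs := (Meromorphic.const (N : ℂ)).mul hm') (hsp := hsp),
    Ell.mk_eq_mk_iff]
  filter_upwards [codiscrete_comp_aff (codiscrete_analytic hf) (Int.cast_ne_zero.mpr hN) s]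
    with z hz
  have h1 : HasDerivAt (fun z : ℂ => (N : ℂ) * z + s) (N : ℂ) z := by
    simpa using ((hasDerivAt_id z).const_mul (N : ℂ)).add_const s
  have h2 := (hz.differentiableAt.hasDerivAt).comp z h1
  rw [show deriv (fun z => f (N * z + s)) z = deriv f (N * z + s) * N from h2.deriv]
  simp only [Pi.mul_apply]
  ring

theorem Ell.ord_D (z : ℂ) {x : Ell Λ} {k : ℤ} (hk : k ≠ 0) (h : Ell.ord z x = k) :
    Ell.ord z (Ell.D x) = (k - 1 : ℤ) := by
  obtain ⟨f, hf, hp, rfl⟩ := x.exists_rep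
  rw [Ell.ord_mk] at h
  rw [Ell.D_mk (hs := hf.deriv) (hsp := deriv_periodic hp), Ell.ord_mk]
  exact meromorphicOrderAt_deriv_eq_sub_one (Int.cast_ne_zero.mpr hk) h

theorem Ell.ord_D_nonneg (z : ℂ) {x : Ell Λ} (h : 0 ≤ Ell.ord z x) :
    0 ≤ Ell.ord z (Ell.D x) := by
  obtain ⟨c, hc⟩ := Ell.exists_value z h
  have hD : Ell.D (x - algebraMap ℂ (Ell Λ) c) = Ell.D x := by
    rw [map_sub, Derivation.map_algebraMap, sub_zero]
  by_cases hx : x - algebraMap ℂ (Ell Λ) c = 0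
  · rw [← hD, hx, map_zero, Ell.ord_zero]
    exact le_top
  · have h1 := Ell.coe_ordZ z hx
    rw [← h1] at hc
    have h2 : 0 < Ell.ordZ z (x - algebraMap ℂ (Ell Λ) c) := by exact_mod_cast hc
    rw [← hD, Ell.ord_D z h2.ne' h1.symm]
    have h3 : 0 ≤ Ell.ordZ z (x - algebraMap ℂ (Ell Λ) c) - 1 := by omega
    exact_mod_cast h3

end Pool.Agent.CanonDeg
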