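import Mathlib
import Pool.Agent.CanonDeg.EllField

/-!
# The Weierstrass functions in the field of elliptic functions
-/

open Filter Topology PeriodPair

namespace Pool.Agent.CanonDeg

namespace Ell

variable {Λ : PeriodPair}

/-- The Weierstrass function. -/
noncomputable def wp : Ell Λ := Ell.mk ℘[Λ] Λ.meromorphic_weierstrassP
  (fun l hl z => Λ.weierstrassP_add_coe z ⟨l, hl⟩)

/-- The derivative of the Weierstrass function. -/
noncomputable def wp' : Ell Λ := Ell.mk ℘'[Λ] Λ.meromorphic_derivWeierstrassP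
  (fun l hl z => Λ.derivWeierstrassP_add_coe z ⟨l, hl⟩)

/-- The complement of the lattice is codiscrete. -/
theorem eventually_codiscrete_notMem : ∀ᶠ z in codiscrete ℂ, z ∉ Λ.lattice := by
  have h : ((Λ.lattice : Set ℂ)ᶜ) ∈ codiscrete ℂ := by
    rw [mem_codiscrete]
    intro x
    rw [disjoint_principal_right, compl_compl]
    have := Λ.compl_lattice_sdiff_singleton_mem_nhds x
    filter_upwards [self_mem_nhdsWithin, mem_nhdsWithin_of_mem_nhds this] with w hw hw'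
    intro h
    exact hw' ⟨h, hw⟩
  exact h

theorem D_wp : D (wp : Ell Λ) = wp' := by
  have hm : Meromorphic (deriv ℘[Λ]) := by
    rw [Λ.deriv_weierstrassP]; exact Λ.meromorphic_derivWeierstrassP
  have hp : ∀ l ∈ Λ.lattice, ∀ z, deriv ℘[Λ] (z + l) = deriv ℘[Λ] z := by
    rw [Λ.deriv_weierstrassP]; exact fun l hl z => Λ.derivWeierstrassP_add_coe z ⟨l, hl⟩
  rw [wp, D_mk (hs := hm) (hsp := hp), wp', mk_eq_mk_iff, Λ.deriv_weierstrassP]

/-- Evaluation of polynomial expressions in `℘` and `℘'`. -/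
theorem wp'_sq : (wp' : Ell Λ) ^ 2 =
    4 * wp ^ 3 - algebraMap ℂ (Ell Λ) Λ.g₂ * wp - algebraMap ℂ (Ell Λ) Λ.g₃ := by
  have h4 : (4 : Ell Λ) = algebraMap ℂ (Ell Λ) 4 := (map_ofNat (algebraMap ℂ (Ell Λ)) 4).symm
  have key : (⟨℘'[Λ], Λ.meromorphic_derivWeierstrassP,
      fun l hl z => Λ.derivWeierstrassP_add_coe z ⟨l, hl⟩⟩ : merPer Λ) ^ 2 -
      (constHom Λ 4 * (⟨℘[Λ], Λ.meromorphic_weierstrassP,
        fun l hl z => Λ.weierstrassP_add_coe z ⟨l, hl⟩⟩ : merPer Λ) ^ 3 -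
        constHom Λ Λ.g₂ * (⟨℘[Λ], Λ.meromorphic_weierstrassP,
        fun l hl z => Λ.weierstrassP_add_coe z ⟨l, hl⟩⟩ : merPer Λ) - constHom Λ Λ.g₃) ∈
        nullIdeal Λ := by
    show ∀ᶠ z in codiscrete ℂ, _ = (0 : ℂ)
    filter_upwards [eventually_codiscrete_notMem (Λ := Λ)] with z hz
    have := Λ.derivWeierstrassP_sq z hz
    show ℘'[Λ] z ^ 2 - (4 * ℘[Λ] z ^ 3 - Λ.g₂ * ℘[Λ] z - Λ.g₃) = 0
    rw [this]
    ring
  rw [← ofMer_eq_iff] at key
  simp only [map_pow, map_sub, map_mul] at key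
  rw [h4]
  exact key

theorem ord_wp_of_mem {z : ℂ} (hz : z ∈ Λ.lattice) : ord z (wp : Ell Λ) = (-2 : ℤ) := by
  rw [wp, ord_mk, Λ.order_weierstrassP z hz]
  norm_num

theorem ord_wp'_of_mem {z : ℂ} (hz : z ∈ Λ.lattice) : ord z (wp' : Ell Λ) = (-3 : ℤ) := by
  rw [← D_wp, ord_D z (by norm_num) (ord_wp_of_mem hz)]
  norm_num

theorem value_wp {z : ℂ} (hz : z ∉ Λ.lattice) :
    0 < ord z ((wp : Ell Λ) - algebraMap ℂ (Ell Λ) (℘[Λ] z)) :=
  value_mk z (Λ.analyticOnNhd_weierstrassP z hz).continuousAt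

theorem value_wp' {z : ℂ} (hz : z ∉ Λ.lattice) :
    0 < ord z ((wp' : Ell Λ) - algebraMap ℂ (Ell Λ) (℘'[Λ] z)) :=
  value_mk z (Λ.analyticOnNhd_derivWeierstrassP z hz).continuousAt

theorem wp_ne_zero : (wp : Ell Λ) ≠ 0 := by
  intro h
  have h1 := ord_wp_of_mem (Λ := Λ) (zero_mem _)
  rw [h, ord_zero] at h1
  exact WithTop.coe_ne_top h1.symm

theorem wp'_ne_zero : (wp' : Ell Λ) ≠ 0 := by
  intro h
  have h1 := ord_wp'_of_mem (Λ := Λ) (zero_mem _)
  rw [h, ord_zero] at h1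
  exact WithTop.coe_ne_top h1.symm

theorem wp_ne_algebraMap (c : ℂ) : (wp : Ell Λ) ≠ algebraMap ℂ (Ell Λ) c := by
  intro h
  have h1 := ord_wp_of_mem (Λ := Λ) (zero_mem _)
  have h2 := ord_algebraMap_nonneg (Λ := Λ) 0 c
  rw [← h, h1] at h2
  exact absurd (WithTop.coe_le_coe.mp h2) (by norm_num)

theorem two_ne_zero' : (2 : Ell Λ) ≠ 0 := by
  have : (2 : Ell Λ) = algebraMap ℂ (Ell Λ) 2 := (map_ofNat (algebraMap ℂ (Ell Λ)) 2).symm
  rw [this, Ne, ← map_zero (algebraMap ℂ (Ell Λ)), (algebraMap ℂ (Ell Λ)).injective.eq_iff]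
  norm_num

theorem D_wp' : D (wp' : Ell Λ) = 6 * wp ^ 2 - algebraMap ℂ (Ell Λ) (Λ.g₂ / 2) := by
  have h := congrArg D (wp'_sq (Λ := Λ))
  have h4 : (4 : Ell Λ) = algebraMap ℂ (Ell Λ) 4 := (map_ofNat (algebraMap ℂ (Ell Λ)) 4).symm
  rw [h4] at h
  simp only [map_sub, Derivation.leibniz_pow, Derivation.leibniz, Derivation.map_algebraMap,
    D_wp, smul_eq_mul, nsmul_eq_mul] at h
  have h2 : algebraMap ℂ (Ell Λ) Λ.g₂ = 2 * algebraMap ℂ (Ell Λ) (Λ.g₂ / 2) := by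
    rw [show (2 : Ell Λ) = algebraMap ℂ (Ell Λ) 2 from (map_ofNat (algebraMap ℂ (Ell Λ)) 2).symm, ← map_mul]
    congr 1
    ring
  rw [h2, ← h4] at h
  have h3 : (2 * wp' : Ell Λ) ≠ 0 := mul_ne_zero two_ne_zero' wp'_ne_zero
  apply mul_left_cancel₀ h3
  simp only [Nat.add_one_sub_one, Nat.cast_ofNat] at h
  linear_combination h

/-- If `x` has the value `c` at `z` and `c' ≠ c` then `x - c'` is a unit at `z`. -/
theorem ord_sub_eq_zero_of_value {z : ℂ} {x : Ell Λ} {c c' : ℂ} (hc : c ≠ c')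
    (h : 0 < ord z (x - algebraMap ℂ (Ell Λ) c)) : ord z (x - algebraMap ℂ (Ell Λ) c') = 0 := by
  have h1 : x - algebraMap ℂ (Ell Λ) c' =
      algebraMap ℂ (Ell Λ) (c - c') + (x - algebraMap ℂ (Ell Λ) c) := by
    rw [map_sub]; ring
  rw [h1, ord_add_of_lt, ord_algebraMap z (sub_ne_zero.mpr hc)]
  rwa [ord_algebraMap z (sub_ne_zero.mpr hc)]

theorem ord_nonneg_of_value {z : ℂ} {x : Ell Λ} {c : ℂ}
    (h : 0 < ord z (x - algebraMap ℂ (Ell Λ) c)) : 0 ≤ ord z x := by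
  have h1 : x = algebraMap ℂ (Ell Λ) c + (x - algebraMap ℂ (Ell Λ) c) := by ring
  rw [h1]
  exact le_trans (le_min (ord_algebraMap_nonneg z c) h.le) (ord_add z _ _)

theorem ord_pos_of_value_zero {z : ℂ} {x : Ell Λ}
    (h : 0 < ord z (x - algebraMap ℂ (Ell Λ) 0)) : 0 < ord z x := by
  simpa using h

theorem ord_wp_nonneg {z : ℂ} (hz : z ∉ Λ.lattice) : 0 ≤ ord z (wp : Ell Λ) :=
  ord_nonneg_of_value (value_wp hz)

theorem ord_wp'_nonneg {z : ℂ} (hz : z ∉ Λ.lattice) : 0 ≤ ord z (wp' : Ell Λ) :=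
  ord_nonneg_of_value (value_wp' hz)

/-- If `x ≠ 0` has order `≥ 1`, then its derivative has order `ord x - 1`. -/
theorem ord_D_of_pos {z : ℂ} {x : Ell Λ} (hx : x ≠ 0) (h : 0 < ord z x) :
    ∃ k : ℤ, 0 < k ∧ ord z x = (k : ℤ) ∧ ord z (D x) = ((k - 1 : ℤ) : WithTop ℤ) := by
  have h1 : ord z x ≠ ⊤ := by rwa [Ne, ord_eq_top_iff]
  obtain ⟨k, hk⟩ := WithTop.ne_top_iff_exists.mp h1
  rw [← hk] at h
  have hk0 : 0 < k := by exact_mod_cast h
  exact ⟨k, hk0, hk.symm, ord_D z hk0.ne' hk.symm⟩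

/-- A nonzero elliptic function cannot satisfy `D² x = y x` with `y` regular, `x` and `D x` vanishing
at `z`. -/
theorem eq_zero_of_D_D {z : ℂ} {x y : Ell Λ} (hy : 0 ≤ ord z y) (h : D (D x) = y * x)
    (h0 : 0 < ord z x) (h1 : 0 < ord z (D x)) : x = 0 := by
  by_contra hx
  obtain ⟨k, hk0, hk, hk'⟩ := ord_D_of_pos hx h0
  have hDx : D x ≠ 0 := by
    intro h2
    rw [h2, ord_zero] at hk'
    exact WithTop.coe_ne_top hk'.symm
  obtain ⟨m, hm0, hm, hm'⟩ := ord_D_of_pos hDx h1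
  rw [hm] at hk'
  have e1 : m = k - 1 := by exact_mod_cast hk'
  rw [h, ord_mul, hk] at hm'
  have h3 : (k : WithTop ℤ) ≤ ((m - 1 : ℤ) : WithTop ℤ) := by
    rw [← hm']
    calc (k : WithTop ℤ) = 0 + k := (zero_add _).symm
      _ ≤ _ := by gcongr
  have h4 : k ≤ m - 1 := by exact_mod_cast h3
  omega

theorem D_sub_algebraMap (x : Ell Λ) (c : ℂ) : D (x - algebraMap ℂ (Ell Λ) c) = D x := by
  rw [map_sub, Derivation.map_algebraMap, sub_zero]

/-- Uniqueness for the differential equation: `(℘, ℘')` is injective on `ℂ/Λ`. -/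
theorem sub_mem_of_eq {z w : ℂ} (hz : z ∉ Λ.lattice) (hw : w ∉ Λ.lattice)
    (h : ℘[Λ] z = ℘[Λ] w) (h' : ℘'[Λ] z = ℘'[Λ] w) : z - w ∈ Λ.lattice := by
  set F : Ell Λ := aff 1 one_ne_zero z wp with hF
  set G : Ell Λ := aff 1 one_ne_zero w wp with hG
  have hDF : ∀ (u : ℂ) (x : Ell Λ), D (aff 1 one_ne_zero u x) = aff 1 one_ne_zero u (D x) := by
    intro u x
    rw [D_aff]
    simp
  have hord : ∀ (u v : ℂ) (x : Ell Λ), ord v (aff 1 one_ne_zero u x) = ord (v + u) x := by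
    intro u v x
    rw [ord_aff]
    simp
  have hval : ∀ (u v : ℂ) (x : Ell Λ) (c : ℂ), 0 < ord (v + u) (x - algebraMap ℂ (Ell Λ) c) →
      0 < ord v (aff 1 one_ne_zero u x - algebraMap ℂ (Ell Λ) c) := by
    intro u v x c hx
    rwa [← hord u v, map_sub, AlgHom.commutes] at hx
  have hx0 : F - G = 0 := by
    apply eq_zero_of_D_D (z := 0) (y := 6 * (F + G))
    · rw [ord_mul]
      have h6 : ord 0 (6 : Ell Λ) = 0 := by
        rw [show (6 : Ell Λ) = algebraMap ℂ (Ell Λ) 6 from (map_ofNat (algebraMap ℂ (Ell Λ)) 6).symm]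
        exact ord_algebraMap _ (by norm_num)
      rw [h6, zero_add]
      refine le_trans (le_min ?_ ?_) (ord_add 0 F G)
      · rw [hF, hord, zero_add]
        exact ord_wp_nonneg hz
      · rw [hG, hord, zero_add]
        exact ord_wp_nonneg hw
    · rw [map_sub, map_sub, hF, hG, hDF, hDF, hDF, hDF, D_wp, D_wp']
      simp only [map_sub, map_mul, map_pow, AlgHom.commutes, map_ofNat]
      ring
    · have e : F - G = (F - algebraMap ℂ (Ell Λ) (℘[Λ] z)) - (G - algebraMap ℂ (Ell Λ) (℘[Λ] w)) := by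
        rw [h]; ring
      rw [e]
      refine lt_of_lt_of_le (lt_min ?_ ?_) (ord_sub 0 _ _)
      · exact hval z 0 _ _ (by rw [zero_add]; exact value_wp hz)
      · exact hval w 0 _ _ (by rw [zero_add]; exact value_wp hw)
    · have e : D (F - G) = (aff 1 one_ne_zero z wp' - algebraMap ℂ (Ell Λ) (℘'[Λ] z)) -
          (aff 1 one_ne_zero w wp' - algebraMap ℂ (Ell Λ) (℘'[Λ] w)) := by
        rw [map_sub, hF, hG, hDF, hDF, D_wp, h']; ring
      rw [e]
      refine lt_of_lt_of_le (lt_min ?_ ?_) (ord_sub 0 _ _)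
      · exact hval z 0 _ _ (by rw [zero_add]; exact value_wp' hz)
      · exact hval w 0 _ _ (by rw [zero_add]; exact value_wp' hw)
  by_contra hzw
  have e1 : ord (-z) F = (-2 : ℤ) := by
    rw [hF, hord, neg_add_cancel]
    exact ord_wp_of_mem (zero_mem _)
  have e2 : 0 ≤ ord (-z) G := by
    rw [hG, hord]
    apply ord_wp_nonneg
    intro hmem
    apply hzw
    have := neg_mem hmem
    rwa [show -(-z + w) = z - w by ring] at this
  rw [← sub_eq_zero.mp hx0, e1] at e2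
  exact absurd (WithTop.coe_le_coe.mp e2) (by norm_num)

theorem wp_eq_of_sub_mem {z w : ℂ} (h : z - w ∈ Λ.lattice) : ℘[Λ] z = ℘[Λ] w := by
  have := Λ.weierstrassP_add_coe w ⟨z - w, h⟩
  simpa using this

theorem wp'_eq_of_sub_mem {z w : ℂ} (h : z - w ∈ Λ.lattice) : ℘'[Λ] z = ℘'[Λ] w := by
  have := Λ.derivWeierstrassP_add_coe w ⟨z - w, h⟩
  simpa using this

theorem neg_notMem {w : ℂ} (hw : w ∉ Λ.lattice) : -w ∉ Λ.lattice := by
  rwa [neg_mem_iff]

theorem wp_eq_iff {z w : ℂ} (hz : z ∉ Λ.lattice) (hw : w ∉ Λ.lattice) :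
    ℘[Λ] z = ℘[Λ] w ↔ z - w ∈ Λ.lattice ∨ z + w ∈ Λ.lattice := by
  constructor
  · intro h
    have h1 := Λ.derivWeierstrassP_sq z hz
    have h2 := Λ.derivWeierstrassP_sq w hw
    rw [h, ← h2, sq_eq_sq_iff_eq_or_eq_neg] at h1
    rcases h1 with h1 | h1
    · exact Or.inl (sub_mem_of_eq hz hw h h1)
    · right
      have := sub_mem_of_eq hz (neg_notMem hw) (by rw [h, Λ.weierstrassP_neg])
        (by rw [h1, Λ.derivWeierstrassP_neg])
      simpa using this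
  · rintro (h | h)
    · exact wp_eq_of_sub_mem h
    · rw [← Λ.weierstrassP_neg w]
      exact wp_eq_of_sub_mem (by simpa using h)

theorem derivWp_eq_zero_iff {z : ℂ} (hz : z ∉ Λ.lattice) : ℘'[Λ] z = 0 ↔ 2 * z ∈ Λ.lattice := by
  constructor
  · intro h
    have := sub_mem_of_eq hz (neg_notMem hz) (by rw [Λ.weierstrassP_neg])
        (by rw [Λ.derivWeierstrassP_neg, h, neg_zero])
    rwa [show z - -z = 2 * z by ring] at this
  · intro h
    have h1 : ℘'[Λ] z = ℘'[Λ] (-z) :=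
      wp'_eq_of_sub_mem (by rwa [show z - -z = 2 * z by ring])
    rw [Λ.derivWeierstrassP_neg] at h1
    exact CharZero.eq_neg_self_iff.mp h1

/-- The Weierstrass function takes all values. -/
theorem exists_wp_value (a : ℂ) : ∃ z, z ∉ Λ.lattice ∧ ℘[Λ] z = a := by
  by_contra hne
  push Not at hne
  set x : Ell Λ := wp - algebraMap ℂ (Ell Λ) a with hx
  have hx0 : x ≠ 0 := sub_ne_zero.mpr (wp_ne_algebraMap a)
  have hmul : ∀ z, ord z x⁻¹ + ord z x = 0 := by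
    intro z
    rw [← ord_mul, inv_mul_cancel₀ hx0, ord_one]
  have hpole : ∀ z ∈ Λ.lattice, ord z x = (-2 : ℤ) := by
    intro z hz
    have hlt : ord z (wp : Ell Λ) < ord z (-algebraMap ℂ (Ell Λ) a) := by
      rw [ord_neg, ord_wp_of_mem hz]
      refine lt_of_lt_of_le ?_ (ord_algebraMap_nonneg z a)
      exact_mod_cast (by norm_num : (-2 : ℤ) < 0)
    rw [hx, sub_eq_add_neg, ord_add_of_lt z hlt, ord_wp_of_mem hz]
  have hpole' : ∀ z ∈ Λ.lattice, ord z x⁻¹ = (2 : ℤ) := by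
    intro z hz
    have h1 := hmul z
    rw [hpole z hz] at h1
    have h2 : ord z x⁻¹ ≠ ⊤ := by
      rw [Ne, ord_eq_top_iff, inv_eq_zero]; exact hx0
    obtain ⟨k, hk⟩ := WithTop.ne_top_iff_exists.mp h2
    rw [← hk] at h1 ⊢
    have h3 : k + (-2) = 0 := by exact_mod_cast h1
    have h4 : k = 2 := by omega
    rw [h4]
  have hreg : ∀ z, 0 ≤ ord z x⁻¹ := by
    intro z
    by_cases hz : z ∈ Λ.lattice
    · rw [hpole' z hz]
      exact_mod_cast (by norm_num : (0 : ℤ) ≤ 2)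
    · have h1 : ord z x = 0 := ord_sub_eq_zero_of_value (hne z hz) (value_wp hz)
      have h2 := hmul z
      rw [h1, add_zero] at h2
      exact h2.ge
  obtain ⟨c, hc⟩ := liouville hreg
  have h1 := hpole' 0 (zero_mem _)
  rw [hc] at h1
  by_cases hc0 : c = 0
  · rw [hc0, map_zero] at hc
    exact hx0 (inv_eq_zero.mp hc)
  · rw [ord_algebraMap 0 hc0] at h1
    exact absurd (WithTop.coe_eq_coe.mp h1) (by norm_num)

/-- Each point of the affine cubic is of the form `(℘ z, ℘' z)`. -/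
theorem exists_wp_eq {a b : ℂ} (h : b ^ 2 = 4 * a ^ 3 - Λ.g₂ * a - Λ.g₃) :
    ∃ z, z ∉ Λ.lattice ∧ ℘[Λ] z = a ∧ ℘'[Λ] z = b := by
  obtain ⟨z, hz, hza⟩ := exists_wp_value (Λ := Λ) a
  have h1 := Λ.derivWeierstrassP_sq z hz
  rw [hza, ← h, sq_eq_sq_iff_eq_or_eq_neg] at h1
  rcases h1 with h1 | h1
  · exact ⟨z, hz, hza, h1⟩
  · exact ⟨-z, neg_notMem hz, by rw [Λ.weierstrassP_neg, hza],
      by rw [Λ.derivWeierstrassP_neg, h1, neg_neg]⟩

/-- The cubic is nonsingular. -/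
theorem nonsingular {a : ℂ} (h : 4 * a ^ 3 - Λ.g₂ * a - Λ.g₃ = 0) : 12 * a ^ 2 - Λ.g₂ ≠ 0 := by
  intro h2
  obtain ⟨z, hz, hza, hzb⟩ := exists_wp_eq (Λ := Λ) (a := a) (b := 0) (by rw [h]; ring)
  have hval := value_wp hz
  have hval' := value_wp' hz
  rw [hza] at hval
  rw [hzb, map_zero, sub_zero] at hval'
  have hx0 : (wp : Ell Λ) - algebraMap ℂ (Ell Λ) a = 0 := by
    apply eq_zero_of_D_D (z := z) (y := 6 * (wp + algebraMap ℂ (Ell Λ) a)) _ _ hval
      (by rwa [D_sub_algebraMap, D_wp])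
    · rw [ord_mul]
      have h6 : ord z (6 : Ell Λ) = 0 := by
        rw [show (6 : Ell Λ) = algebraMap ℂ (Ell Λ) 6 from (map_ofNat (algebraMap ℂ (Ell Λ)) 6).symm]
        exact ord_algebraMap _ (by norm_num)
      rw [h6, zero_add]
      exact le_trans (le_min (ord_wp_nonneg hz) (ord_algebraMap_nonneg z a)) (ord_add z _ _)
    · rw [D_sub_algebraMap, D_wp, D_wp']
      have h3 : Λ.g₂ / 2 = 6 * a ^ 2 := by linear_combination (-1/2 : ℂ) * h2
      rw [h3, map_mul, map_pow, map_ofNat]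
      ring
  exact wp_ne_algebraMap a (sub_eq_zero.mp hx0)

open Classical in
/-- The zeros and poles of `℘ - ℘(t)` for `2 t ∉ Λ`. -/
theorem ord_wp_sub {t : ℂ} (ht : 2 * t ∉ Λ.lattice) (z : ℂ) :
    ord z ((wp : Ell Λ) - algebraMap ℂ (Ell Λ) (℘[Λ] t)) =
      if z ∈ Λ.lattice then ((-2 : ℤ) : WithTop ℤ)
      else if z - t ∈ Λ.lattice ∨ z + t ∈ Λ.lattice then 1 else 0 := by
  have ht' : t ∉ Λ.lattice := fun h => ht (by
    have := add_mem h h
    rwa [← two_mul] at this)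
  split_ifs with hz hzt
  · have hlt : ord z (wp : Ell Λ) < ord z (-algebraMap ℂ (Ell Λ) (℘[Λ] t)) := by
      rw [ord_neg, ord_wp_of_mem hz]
      refine lt_of_lt_of_le ?_ (ord_algebraMap_nonneg z _)
      exact_mod_cast (by norm_num : (-2 : ℤ) < 0)
    rw [sub_eq_add_neg, ord_add_of_lt z hlt, ord_wp_of_mem hz]
  · have he : ℘[Λ] z = ℘[Λ] t := (wp_eq_iff hz ht').mpr hzt
    have hval := value_wp hz
    rw [he] at hval
    have hx0 : (wp : Ell Λ) - algebraMap ℂ (Ell Λ) (℘[Λ] t) ≠ 0 :=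
      sub_ne_zero.mpr (wp_ne_algebraMap _)
    obtain ⟨k, hk0, hk, hk'⟩ := ord_D_of_pos hx0 hval
    rw [D_sub_algebraMap, D_wp] at hk'
    have h2z : 2 * z ∉ Λ.lattice := by
      intro h2
      apply ht
      rcases hzt with h | h
      · have := sub_mem h2 (add_mem h h)
        rwa [show 2 * z - (z - t + (z - t)) = 2 * t by ring] at this
      · have := sub_mem (add_mem h h) h2
        rwa [show z + t + (z + t) - 2 * z = 2 * t by ring] at this
    have hne : ℘'[Λ] z ≠ 0 := fun h => h2z ((derivWp_eq_zero_iff hz).mp h)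
    have h0 := ord_sub_eq_zero_of_value hne (value_wp' hz)
    rw [map_zero, sub_zero, hk'] at h0
    have h1 : k - 1 = 0 := by exact_mod_cast h0
    rw [hk, show k = 1 by omega]
    rfl
  · have hne : ℘[Λ] z ≠ ℘[Λ] t := fun h => hzt ((wp_eq_iff hz ht').mp h)
    exact ord_sub_eq_zero_of_value hne (value_wp hz)

end Ell

end Pool.Agent.CanonDeg
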