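import Mathlib
import Pool.Agent.CanonDeg.EllField
import Pool.Agent.CanonDeg.EllWp

/-!
# Generation of the field of elliptic functions by `℘` and `℘'`
-/

open Filter Topology PeriodPair

namespace Pool.Agent.CanonDeg

namespace Ell

variable {Λ : PeriodPair}

/-- The involution `x(z) ↦ x(-z)`. -/
noncomputable def invol : Ell Λ →ₐ[ℂ] Ell Λ := aff (-1) (by norm_num) 0

theorem invol_invol (x : Ell Λ) : invol (invol x) = x := by
  rw [invol, aff_aff]
  have h := aff_lattice (Λ := Λ) (zero_mem _) x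
  simpa using h

theorem ord_invol (z : ℂ) (x : Ell Λ) : ord z (invol x) = ord (-z) x := by
  rw [invol, ord_aff]
  simp

theorem invol_wp : invol (wp : Ell Λ) = wp := by
  have hm := affAux_meromorphic Λ.meromorphic_weierstrassP ((-1 : ℤ) : ℂ) 0
  have hp := affAux_periodic (Λ := Λ) (f := ℘[Λ])
    (fun l hl z => Λ.weierstrassP_add_coe z ⟨l, hl⟩) (-1) 0
  rw [invol, wp, aff_mk (-1) (by norm_num) 0 (hs := hm) (hsp := hp), mk_eq_mk_iff]
  apply Eventually.of_forall
  intro z
  show ℘[Λ] (((-1 : ℤ) : ℂ) * z + 0) = ℘[Λ] z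
  rw [← Λ.weierstrassP_neg z]
  congr 1
  push_cast
  ring

theorem invol_wp' : invol (wp' : Ell Λ) = -wp' := by
  have h := D_aff (Λ := Λ) (-1) (by norm_num) 0 wp
  have h2 : invol (wp : Ell Λ) = wp := invol_wp
  rw [invol] at h2
  rw [h2, D_wp] at h
  rw [invol]
  push_cast at h
  linear_combination h

theorem ord_lattice {z : ℂ} (hz : z ∈ Λ.lattice) (x : Ell Λ) : ord z x = ord 0 x := by
  have := ord_add_lattice 0 hz x
  rwa [zero_add] at this

theorem ordZ_wp_zero : ordZ 0 (wp : Ell Λ) = -2 := by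
  have h := coe_ordZ 0 (wp_ne_zero (Λ := Λ))
  rw [ord_wp_of_mem (zero_mem _)] at h
  exact_mod_cast h

theorem ordZ_wp'_zero : ordZ 0 (wp' : Ell Λ) = -3 := by
  have h := coe_ordZ 0 (wp'_ne_zero (Λ := Λ))
  rw [ord_wp'_of_mem (zero_mem _)] at h
  exact_mod_cast h

theorem ord_eq_zero_of_ordZ {z : ℂ} {x : Ell Λ} (hx : x ≠ 0) (h : ordZ z x = 0) : ord z x = 0 := by
  rw [← coe_ordZ z hx, h]
  rfl

/-- An elliptic function of order `0` has a nonzero value. -/
theorem exists_value_ne_zero {z : ℂ} {x : Ell Λ} (hx : x ≠ 0) (h : ordZ z x = 0) :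
    ∃ c : ℂ, c ≠ 0 ∧ 0 < ord z (x - algebraMap ℂ (Ell Λ) c) := by
  have h0 := ord_eq_zero_of_ordZ hx h
  obtain ⟨c, hc⟩ := exists_value z h0.ge
  refine ⟨c, ?_, hc⟩
  rintro rfl
  rw [map_zero, sub_zero, h0] at hc
  exact lt_irrefl _ hc

/-- An even function has even order at `0`. -/
theorem even_ordZ {x : Ell Λ} (hx : x ≠ 0) (h : invol x = x) : Even (ordZ 0 x) := by
  by_contra hodd
  rw [Int.not_even_iff_odd] at hodd
  set u : Ell Λ := wp / wp' with hu
  have hu0 : u ≠ 0 := div_ne_zero wp_ne_zero wp'_ne_zero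
  have hu1 : ordZ 0 u = 1 := by
    rw [hu, ordZ_div 0 wp_ne_zero wp'_ne_zero, ordZ_wp_zero, ordZ_wp'_zero]
    norm_num
  have hui : invol u = -u := by
    rw [hu, map_div₀, invol_wp, invol_wp', div_neg]
  set k := ordZ 0 x with hk
  set y : Ell Λ := x / u ^ k with hy
  have hy0 : y ≠ 0 := div_ne_zero hx (zpow_ne_zero k hu0)
  have hyo : ordZ 0 y = 0 := by
    rw [hy, ordZ_div 0 hx (zpow_ne_zero k hu0), ordZ_zpow, hu1, ← hk]
    ring
  have hyi : invol y = -y := by
    rw [hy, map_div₀, h, map_zpow₀, hui, hodd.neg_zpow, div_neg]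
  obtain ⟨c, hc, hv⟩ := exists_value_ne_zero hy0 hyo
  have h1 : 0 < ord 0 (-y - algebraMap ℂ (Ell Λ) c) := by
    have := ord_invol 0 (y - algebraMap ℂ (Ell Λ) c)
    rw [map_sub, AlgHom.commutes, hyi, neg_zero] at this
    rw [this]
    exact hv
  have h2 := lt_of_lt_of_le (lt_min hv h1) (ord_add 0 _ _)
  have e : y - algebraMap ℂ (Ell Λ) c + (-y - algebraMap ℂ (Ell Λ) c) =
      algebraMap ℂ (Ell Λ) (-2 * c) := by
    rw [map_mul, map_neg, map_ofNat]
    ring
  rw [e, ord_algebraMap 0 (mul_ne_zero (by norm_num) hc)] at h2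
  exact lt_irrefl _ h2

/-- An even elliptic function with poles at the lattice points only is a polynomial in `℘`. -/
theorem mem_of_even (A : IntermediateField ℂ (Ell Λ)) (hA : wp ∈ A) (n : ℕ) :
    ∀ x : Ell Λ, invol x = x → (∀ z, z ∉ Λ.lattice → 0 ≤ ord z x) → -(n : ℤ) ≤ ordZ 0 x → x ∈ A := by
  induction n using Nat.strong_induction_on with
  | _ n ih =>
    intro x hx hreg hn
    by_cases hx0 : x = 0
    · rw [hx0]; exact zero_mem A
    by_cases hpos : 0 ≤ ordZ 0 x
    · have hall : ∀ z, 0 ≤ ord z x := by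
        intro z
        by_cases hz : z ∈ Λ.lattice
        · rw [ord_lattice hz, ← coe_ordZ 0 hx0]
          exact_mod_cast hpos
        · exact hreg z hz
      obtain ⟨c, rfl⟩ := liouville hall
      exact A.algebraMap_mem c
    · push Not at hpos
      obtain ⟨k, hk⟩ := even_ordZ hx0 hx
      obtain ⟨m, hm⟩ : ∃ m : ℕ, k = -m := ⟨k.natAbs, by omega⟩
      have hm0 : 0 < m := by omega
      have hwm : (wp ^ m : Ell Λ) ≠ 0 := pow_ne_zero m wp_ne_zero
      have hq0 : x / wp ^ m ≠ 0 := div_ne_zero hx0 hwm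
      have hqo : ordZ 0 (x / wp ^ m) = 0 := by
        rw [ordZ_div 0 hx0 hwm, ordZ_pow, ordZ_wp_zero]
        omega
      obtain ⟨c, hc, hv⟩ := exists_value_ne_zero hq0 hqo
      set y : Ell Λ := x - algebraMap ℂ (Ell Λ) c * wp ^ m with hy
      have hyA : y ∈ A := by
        by_cases hy0 : y = 0
        · rw [hy0]; exact zero_mem A
        have hye : y = wp ^ m * (x / wp ^ m - algebraMap ℂ (Ell Λ) c) := by
          rw [hy, mul_sub, mul_div_cancel₀ _ hwm]
          ring
        have hr0 : x / wp ^ m - algebraMap ℂ (Ell Λ) c ≠ 0 := by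
          intro h
          rw [hye, h, mul_zero] at hy0
          exact hy0 rfl
        have hr1 : 0 < ordZ 0 (x / wp ^ m - algebraMap ℂ (Ell Λ) c) := by
          rw [← coe_ordZ 0 hr0] at hv
          exact_mod_cast hv
        have hyo : ordZ 0 y = -2 * m + ordZ 0 (x / wp ^ m - algebraMap ℂ (Ell Λ) c) := by
          rw [hye, ordZ_mul 0 hwm hr0, ordZ_pow, ordZ_wp_zero]
          ring
        apply ih (2 * m - 1) (by omega) y
        · rw [hy, map_sub, map_mul, map_pow, invol_wp, AlgHom.commutes, hx]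
        · intro z hz
          have h1 : 0 ≤ ord z (algebraMap ℂ (Ell Λ) c * wp ^ m) := by
            rw [← coe_ordZ z (mul_ne_zero (by
              rw [Ne, map_eq_zero_iff _ (algebraMap ℂ (Ell Λ)).injective]; exact hc) hwm)]
            rw [ordZ_mul z (by
              rw [Ne, map_eq_zero_iff _ (algebraMap ℂ (Ell Λ)).injective]; exact hc) hwm, ordZ_pow]
            have h2 : 0 ≤ ordZ z (wp : Ell Λ) := by
              have := ord_wp_nonneg hz
              rw [← coe_ordZ z wp_ne_zero] at this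
              exact_mod_cast this
            have h3 : ordZ z (algebraMap ℂ (Ell Λ) c) = 0 := by
              rw [ordZ, ord_algebraMap z hc]; rfl
            rw [h3, zero_add]
            have h4 : 0 ≤ (m : ℤ) * ordZ z (wp : Ell Λ) := by positivity
            exact_mod_cast h4
          exact le_trans (le_min (hreg z hz) h1) (ord_sub z _ _)
        · rw [hyo]; omega
      have hxy : x = y + algebraMap ℂ (Ell Λ) c * wp ^ m := by rw [hy]; ring
      rw [hxy]
      exact add_mem hyA (mul_mem (A.algebraMap_mem c) (pow_mem hA m))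

/-- Each elliptic function can be multiplied by a polynomial in `℘` such that all poles
are lattice points. -/
theorem exists_kill (x : Ell Λ) : ∃ p : Ell Λ, p ≠ 0 ∧ invol p = p ∧
    (∀ A : IntermediateField ℂ (Ell Λ), wp ∈ A → p ∈ A) ∧
    ∀ z, z ∉ Λ.lattice → 0 ≤ ord z (x * p) := by
  classical
  by_cases hx0 : x = 0
  · exact ⟨1, one_ne_zero, map_one _, fun A _ => one_mem A, fun z _ => by
      rw [hx0, zero_mul, ord_zero]; exact le_top⟩
  obtain ⟨S, hS⟩ := finite_support hx0
  have hne : ∀ s : ℂ, (wp : Ell Λ) - algebraMap ℂ (Ell Λ) (℘[Λ] s) ≠ 0 :=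
    fun s => sub_ne_zero.mpr (wp_ne_algebraMap _)
  set T := S.filter (fun s => s ∉ Λ.lattice) with hT
  set p : Ell Λ := ∏ s ∈ T, ((wp : Ell Λ) - algebraMap ℂ (Ell Λ) (℘[Λ] s)) ^ (ordZ s x).natAbs with hp
  have hp0 : p ≠ 0 := Finset.prod_ne_zero_iff.mpr fun s _ => pow_ne_zero _ (hne s)
  refine ⟨p, hp0, ?_, ?_, ?_⟩
  · rw [hp, map_prod]
    refine Finset.prod_congr rfl fun s _ => ?_
    rw [map_pow, map_sub, invol_wp, AlgHom.commutes]
  · intro A hA
    exact prod_mem fun s _ => pow_mem (sub_mem hA (A.algebraMap_mem _)) _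
  · intro z hz
    have hfac : ∀ s : ℂ, 0 ≤ ordZ z ((wp : Ell Λ) - algebraMap ℂ (Ell Λ) (℘[Λ] s)) := by
      intro s
      have h1 : 0 ≤ ord z ((wp : Ell Λ) - algebraMap ℂ (Ell Λ) (℘[Λ] s)) :=
        le_trans (le_min (ord_wp_nonneg hz) (ord_algebraMap_nonneg z _)) (ord_sub z _ _)
      rw [← coe_ordZ z (hne s)] at h1
      exact_mod_cast h1
    have hprod : ∀ U : Finset ℂ, ordZ z (∏ s ∈ U,
        ((wp : Ell Λ) - algebraMap ℂ (Ell Λ) (℘[Λ] s)) ^ (ordZ s x).natAbs) =
        ∑ s ∈ U, (ordZ s x).natAbs * ordZ z ((wp : Ell Λ) - algebraMap ℂ (Ell Λ) (℘[Λ] s)) := by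
      intro U
      induction U using Finset.induction_on with
      | empty => rw [Finset.prod_empty, Finset.sum_empty, ordZ_one]
      | insert a U ha ih =>
        rw [Finset.prod_insert ha, Finset.sum_insert ha, ordZ_mul z (pow_ne_zero _ (hne a))
          (Finset.prod_ne_zero_iff.mpr fun s _ => pow_ne_zero _ (hne s)), ih, ordZ_pow]
    rw [← coe_ordZ z (mul_ne_zero hx0 hp0), ordZ_mul z hx0 hp0]
    have hterm : ∀ s ∈ T, 0 ≤ ((ordZ s x).natAbs : ℤ) *
        ordZ z ((wp : Ell Λ) - algebraMap ℂ (Ell Λ) (℘[Λ] s)) :=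
      fun s _ => mul_nonneg (by positivity) (hfac s)
    have hgoal : 0 ≤ ordZ z x + ordZ z p := by
      rw [hp, hprod]
      by_cases hxz : 0 ≤ ordZ z x
      · exact add_nonneg hxz (Finset.sum_nonneg hterm)
      · push Not at hxz
        obtain ⟨s, hsS, hzs⟩ := hS z (by
          intro h
          rw [ordZ, h] at hxz
          exact absurd hxz (by norm_num))
        have hs : s ∉ Λ.lattice := by
          intro h
          apply hz
          have := add_mem hzs h
          rwa [sub_add_cancel] at this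
        have hsT : s ∈ T := Finset.mem_filter.mpr ⟨hsS, hs⟩
        have h1 : ordZ s x = ordZ z x := by
          rw [ordZ, ordZ, ← ord_add_lattice s hzs x, add_sub_cancel]
        have h2 : 1 ≤ ordZ z ((wp : Ell Λ) - algebraMap ℂ (Ell Λ) (℘[Λ] s)) := by
          have h3 := value_wp hz
          rw [(wp_eq_iff hz hs).mpr (Or.inl hzs), ← coe_ordZ z (hne s)] at h3
          have h4 : 0 < ordZ z ((wp : Ell Λ) - algebraMap ℂ (Ell Λ) (℘[Λ] s)) := by
            exact_mod_cast h3
          omega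
        have h5 := Finset.single_le_sum hterm hsT
        have h6 : ((ordZ s x).natAbs : ℤ) ≤ (ordZ s x).natAbs *
            ordZ z ((wp : Ell Λ) - algebraMap ℂ (Ell Λ) (℘[Λ] s)) :=
          le_mul_of_one_le_right (by positivity) h2
        rw [h1] at h5 h6
        have h7 : ((ordZ z x).natAbs : ℤ) = - ordZ z x := by omega
        linarith
    exact_mod_cast hgoal

/-- `ℂ(℘, ℘')` is the field of all elliptic functions. -/
theorem adjoin_wp_eq_top : IntermediateField.adjoin ℂ {(wp : Ell Λ), wp'} = ⊤ := by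
  set A := IntermediateField.adjoin ℂ {(wp : Ell Λ), wp'} with hA
  have hwp : wp ∈ A := IntermediateField.subset_adjoin _ _ (by simp)
  have hwp' : wp' ∈ A := IntermediateField.subset_adjoin _ _ (by simp)
  have heven : ∀ x : Ell Λ, invol x = x → x ∈ A := by
    intro x hx
    obtain ⟨p, hp0, hpi, hpA, hreg⟩ := exists_kill x
    have h1 : x * p ∈ A := by
      apply mem_of_even A hwp (ordZ 0 (x * p)).natAbs (x * p)
      · rw [map_mul, hx, hpi]
      · exact hreg
      · omega
    have h2 : x = (x * p) / p := by rw [mul_div_cancel_right₀ _ hp0]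
    rw [h2]
    exact div_mem h1 (hpA A hwp)
  rw [eq_top_iff]
  intro x _
  have h1 : x + invol x ∈ A := heven _ (by rw [map_add, invol_invol, add_comm])
  have h2 : (x - invol x) * wp' ∈ A := heven _ (by
    rw [map_mul, map_sub, invol_invol, invol_wp']; ring)
  have h3 : x - invol x ∈ A := by
    have := div_mem h2 hwp'
    rwa [mul_div_cancel_right₀ _ wp'_ne_zero] at this
  have h4 : x = ((x + invol x) + (x - invol x)) / 2 := by
    rw [eq_div_iff two_ne_zero']; ring
  rw [h4]
  exact div_mem (add_mem h1 h3) (by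
    have : (2 : Ell Λ) = algebraMap ℂ (Ell Λ) 2 := (map_ofNat (algebraMap ℂ (Ell Λ)) 2).symm
    rw [this]
    exact A.algebraMap_mem _)

end Ell

end Pool.Agent.CanonDeg
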