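import Mathlib
import Pool.Agent.CanonDeg.EllField
import Pool.Agent.CanonDeg.EllWp

/-!
# Generators of the field of elliptic functions: Galois theory of the translations
-/

open Filter Topology PeriodPair

namespace Pool.Agent.CanonDeg

namespace Ell

variable {Λ : PeriodPair}

theorem aff_one_zero (x : Ell Λ) : aff 1 one_ne_zero 0 x = x := aff_lattice (zero_mem _) x

theorem aff_one_aff_one (r t : ℂ) (x : Ell Λ) :
    aff 1 one_ne_zero r (aff 1 one_ne_zero t x) = aff 1 one_ne_zero (r + t) x := by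
  have h := aff_aff 1 one_ne_zero t 1 one_ne_zero r x
  rw [h]
  simp

/-- The translation by `r`. -/
noncomputable def trans (r : ℂ) : Ell Λ ≃ₐ[ℂ] Ell Λ :=
  AlgEquiv.ofAlgHom (aff 1 one_ne_zero r) (aff 1 one_ne_zero (-r))
    (by
      ext x
      rw [AlgHom.comp_apply, aff_one_aff_one, add_neg_cancel, aff_one_zero]
      rfl)
    (by
      ext x
      rw [AlgHom.comp_apply, aff_one_aff_one, neg_add_cancel, aff_one_zero]
      rfl)

theorem trans_apply (r : ℂ) (x : Ell Λ) : trans r x = aff 1 one_ne_zero r x := rfl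

theorem trans_mul (r t : ℂ) : (trans r : Ell Λ ≃ₐ[ℂ] Ell Λ) * trans t = trans (r + t) := by
  ext x
  rw [AlgEquiv.mul_apply, trans_apply, trans_apply, trans_apply, aff_one_aff_one]

theorem trans_eq_of_sub_mem {r t : ℂ} (h : r - t ∈ Λ.lattice) :
    (trans r : Ell Λ ≃ₐ[ℂ] Ell Λ) = trans t := by
  have : r = (r - t) + t := by ring
  rw [this, ← trans_mul]
  ext x
  rw [AlgEquiv.mul_apply, trans_apply (r - t), aff_lattice h]

/-- The group of the translations by `N`-torsion points. -/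
noncomputable def torsionGroup (N : ℤ) : Subgroup (Ell Λ ≃ₐ[ℂ] Ell Λ) where
  carrier := {σ | ∃ r : ℂ, N * r ∈ Λ.lattice ∧ σ = trans r}
  mul_mem' := by
    rintro _ _ ⟨r, hr, rfl⟩ ⟨t, ht, rfl⟩
    refine ⟨r + t, ?_, trans_mul r t⟩
    rw [mul_add]
    exact add_mem hr ht
  one_mem' := ⟨0, by simp, by ext x; rw [trans_apply, aff_one_zero]; rfl⟩
  inv_mem' := by
    rintro _ ⟨r, hr, rfl⟩
    refine ⟨-r, by rw [mul_neg]; exact neg_mem hr, ?_⟩
    rw [inv_eq_iff_mul_eq_one, trans_mul, add_neg_cancel]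
    ext x
    rw [trans_apply, aff_one_zero]
    rfl

theorem torsionGroup_finite (N : ℤ) (hN : N ≠ 0) :
    Finite (torsionGroup N : Subgroup (Ell Λ ≃ₐ[ℂ] Ell Λ)) := by
  have hN' : (N : ℂ) ≠ 0 := Int.cast_ne_zero.mpr hN
  apply Set.Finite.to_subtype
  apply Set.Finite.subset (s := (fun p : ℤ × ℤ => (trans ((p.1 * Λ.ω₁ + p.2 * Λ.ω₂) / N) :
    Ell Λ ≃ₐ[ℂ] Ell Λ)) '' (Set.Ico 0 |N| ×ˢ Set.Ico 0 |N|))
  · exact ((Set.finite_Ico _ _).prod (Set.finite_Ico _ _)).image _
  · rintro _ ⟨r, hr, rfl⟩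
    obtain ⟨m, n, hmn⟩ := PeriodPair.mem_lattice.mp hr
    refine ⟨(m % N, n % N), ⟨⟨Int.emod_nonneg _ hN, Int.emod_lt_abs _ hN⟩,
      ⟨Int.emod_nonneg _ hN, Int.emod_lt_abs _ hN⟩⟩, ?_⟩
    apply trans_eq_of_sub_mem
    have h1 : ((m % N : ℤ) : ℂ) = m - N * (m / N : ℤ) := by
      rw [Int.emod_def]; push_cast; ring
    have h2 : ((n % N : ℤ) : ℂ) = n - N * (n / N : ℤ) := by
      rw [Int.emod_def]; push_cast; ring
    rw [PeriodPair.mem_lattice]
    refine ⟨-(m / N), -(n / N), ?_⟩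
    have h3 : r = (m * Λ.ω₁ + n * Λ.ω₂) / N := by
      rw [hmn]; field_simp
    show _ = (((m % N : ℤ) : ℂ) * Λ.ω₁ + ((n % N : ℤ) : ℂ) * Λ.ω₂) / N - r
    rw [h1, h2, h3]
    field_simp
    push_cast
    ring

/-- If no nontrivial translation by an `N`-torsion point fixes `x`, then `x` together with
the functions of the form `y (N z + s)` generates the field of elliptic functions. -/
theorem adjoin_eq_top_of (hgen : IntermediateField.adjoin ℂ {(wp : Ell Λ), wp'} = ⊤)
    (N : ℤ) (hN : N ≠ 0) (s : ℂ) (x : Ell Λ)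
    (h : ∀ r : ℂ, N * r ∈ Λ.lattice → aff 1 one_ne_zero r x = x → r ∈ Λ.lattice) :
    IntermediateField.adjoin ℂ {aff N hN s (wp : Ell Λ), aff N hN s wp', x} = ⊤ := by
  let H : Subgroup (Ell Λ ≃ₐ[ℂ] Ell Λ) := torsionGroup N
  have hfin : Finite H := torsionGroup_finite N hN
  let K := FixedPoints.subfield H (Ell Λ)
  let M : IntermediateField K (Ell Λ) := IntermediateField.adjoin K {x}
  have hfix : M.fixingSubgroup = ⊥ := by
    rw [eq_bot_iff]
    intro σ hσ
    rw [IntermediateField.mem_fixingSubgroup_iff] at hσ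
    obtain ⟨τ, hτ⟩ := FixedPoints.toAlgAut_surjective H (Ell Λ) σ
    obtain ⟨τ, ht⟩ := τ
    obtain ⟨r, hr, rfl⟩ := ht
    have hx : σ x = x := hσ x (IntermediateField.mem_adjoin_simple_self K x)
    have h1 : ∀ y : Ell Λ, σ y = aff 1 one_ne_zero r y := by
      intro y
      rw [← hτ]
      rfl
    rw [h1] at hx
    have hr' := h r hr hx
    rw [Subgroup.mem_bot]
    ext y
    rw [h1, aff_lattice hr']
    rfl
  have htop : M = ⊤ := by
    rw [← IsGalois.fixedField_fixingSubgroup M, hfix]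
    exact IntermediateField.fixedField_bot
  set A : IntermediateField ℂ (Ell Λ) :=
    IntermediateField.adjoin ℂ {aff N hN s (wp : Ell Λ), aff N hN s wp', x} with hA
  have hxA : x ∈ A := IntermediateField.subset_adjoin _ _ (by simp)
  have hKA : ∀ y ∈ K, y ∈ A := by
    intro y hy
    have h1 : ∀ r : ℂ, N * r ∈ Λ.lattice → aff 1 one_ne_zero r y = y := by
      intro r hr
      exact hy ⟨trans r, r, hr, rfl⟩
    obtain ⟨w, rfl⟩ := exists_aff_eq N hN s y h1
    have h2 : (⊤ : IntermediateField ℂ (Ell Λ)) ≤ A.comap (aff N hN s) := by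
      rw [← hgen, IntermediateField.adjoin_le_iff]
      rintro z (rfl | rfl)
      · exact IntermediateField.subset_adjoin _ _ (by simp)
      · exact IntermediateField.subset_adjoin _ _ (by simp)
    exact h2 (IntermediateField.mem_top)
  let A' : IntermediateField K (Ell Λ) :=
    { A.toSubfield with
      algebraMap_mem' := fun c => hKA c.1 c.2 }
  have h3 : M ≤ A' := by
    rw [IntermediateField.adjoin_le_iff]
    rintro _ rfl
    exact hxA
  rw [htop, top_le_iff] at h3
  rw [eq_top_iff]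
  intro y _
  have : y ∈ A' := by rw [h3]; trivial
  exact this

end Ell

end Pool.Agent.CanonDeg
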