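import Mathlib
import Pool.Agent.CanonDeg.EllField
import Pool.Agent.CanonDeg.EllWp
import Pool.Agent.CanonDeg.EllGen1
import Pool.Agent.CanonDeg.EllGen2

/-!
# Generators of the field of elliptic functions
-/

open Filter Topology PeriodPair

namespace Pool.Agent.CanonDeg

namespace Ell

variable {Λ : PeriodPair}

/-- `ℂ(℘, ℘')` is the field of all elliptic functions. -/
theorem adjoin_wp : IntermediateField.adjoin ℂ {(wp : Ell Λ), wp'} = ⊤ := adjoin_wp_eq_top

/-- If no nontrivial translation by an `N`-torsion point fixes `x`, then `x` together with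
the functions of the form `y (N z + s)` generates the field of elliptic functions. -/
theorem adjoin_eq_top (N : ℤ) (hN : N ≠ 0) (s : ℂ) (x : Ell Λ)
    (h : ∀ r : ℂ, N * r ∈ Λ.lattice → aff 1 one_ne_zero r x = x → r ∈ Λ.lattice) :
    IntermediateField.adjoin ℂ {aff N hN s (wp : Ell Λ), aff N hN s wp', x} = ⊤ :=
  adjoin_eq_top_of adjoin_wp N hN s x h

end Ell

end Pool.Agent.CanonDeg
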