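import Mathlib
import Pool.Agent.CanonDeg.Defs

/-!
# A criterion for the genus of a function field to be one
-/

namespace Pool.Agent.CanonDeg

namespace GenusAux

variable {L : Type} [Field L] [Algebra ℂ L]

theorem charZero : CharZero L := charZero_of_injective_algebraMap (algebraMap ℂ L).injective

theorem d_mem_span {x y : L} {c e : ℂ} (hgen : IntermediateField.adjoin ℂ {x, y} = ⊤)
    (hrel : y ^ 2 = 4 * x ^ 3 - algebraMap ℂ L c * x - algebraMap ℂ L e) (hy : y ≠ 0) (g : L) :
    KaehlerDifferential.D ℂ L g ∈ Submodule.span L {KaehlerDifferential.D ℂ L x} := by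
  have hg : g ∈ IntermediateField.adjoin ℂ {x, y} := by rw [hgen]; trivial
  induction hg using IntermediateField.adjoin_induction with
  | mem z hz =>
    rcases hz with rfl | hz
    · exact Submodule.mem_span_singleton_self _
    · rw [Set.mem_singleton_iff.1 hz]
      have h := congrArg (KaehlerDifferential.D ℂ L) hrel
      have h4 : KaehlerDifferential.D ℂ L 4 = 0 := by
        have e4 : algebraMap ℂ L 4 = 4 := map_ofNat _ 4
        rw [← e4]
        exact Derivation.map_algebraMap _ _
      have h1 : (2 * y : L) • KaehlerDifferential.D ℂ L y =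
          (12 * x ^ 2 - algebraMap ℂ L c : L) • KaehlerDifferential.D ℂ L x := by
        rw [map_sub, map_sub, Derivation.leibniz_pow, Derivation.leibniz, Derivation.leibniz,
          Derivation.leibniz_pow, Derivation.map_algebraMap, Derivation.map_algebraMap, h4] at h
        simp only [smul_zero, add_zero, sub_zero, Nat.add_one_sub_one, pow_one] at h
        rw [mul_smul, two_smul, sub_smul, mul_smul]
        rw [← two_nsmul, h]
        simp only [← Nat.cast_smul_eq_nsmul L, smul_smul]
        congr 2
        push_cast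
        ring
      have hc : CharZero L := charZero
      have h2 : (2 * y : L) ≠ 0 := mul_ne_zero two_ne_zero hy
      have h3 : KaehlerDifferential.D ℂ L y = ((2 * y : L)⁻¹ *
          (12 * x ^ 2 - algebraMap ℂ L c : L)) • KaehlerDifferential.D ℂ L x := by
        rw [mul_smul, ← h1, smul_smul, inv_mul_cancel₀ h2, one_smul]
      rw [h3]
      exact Submodule.smul_mem _ _ (Submodule.mem_span_singleton_self _)
  | algebraMap x => rw [Derivation.map_algebraMap]; exact zero_mem _
  | add x y _ _ hx hy => rw [map_add]; exact add_mem hx hy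
  | inv x _ hx => rw [Derivation.leibniz_inv]; exact Submodule.smul_mem _ _ hx
  | mul x y _ _ hx hy =>
    rw [Derivation.leibniz]
    exact add_mem (Submodule.smul_mem _ _ hy) (Submodule.smul_mem _ _ hx)

theorem mem_span_d {x y : L} {c e : ℂ} (hgen : IntermediateField.adjoin ℂ {x, y} = ⊤)
    (hrel : y ^ 2 = 4 * x ^ 3 - algebraMap ℂ L c * x - algebraMap ℂ L e) (hy : y ≠ 0)
    (η : Ω[L⁄ℂ]) : η ∈ Submodule.span L {KaehlerDifferential.D ℂ L x} := by
  have h : (⊤ : Submodule L (Ω[L⁄ℂ])) ≤ Submodule.span L {KaehlerDifferential.D ℂ L x} := by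
    rw [← KaehlerDifferential.span_range_derivation, Submodule.span_le]
    rintro _ ⟨g, rfl⟩
    exact d_mem_span hgen hrel hy g
  exact h trivial

/-- If the differentials are spanned by `dx`, a derivation `δ` with `δ x ≠ 0` gives an injective
linear form on them. -/
theorem lift_injective {x : L} (hspan : ∀ η : Ω[L⁄ℂ], η ∈
      Submodule.span L {KaehlerDifferential.D ℂ L x})
    (δ : Derivation ℂ L L) (hδ : δ x ≠ 0) : Function.Injective δ.liftKaehlerDifferential := by
  rw [injective_iff_map_eq_zero]
  intro η hη
  obtain ⟨h, rfl⟩ := Submodule.mem_span_singleton.1 (hspan η)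
  rw [map_smul, δ.liftKaehlerDifferential_comp_D, smul_eq_mul, mul_eq_zero] at hη
  rcases hη with h0 | h0
  · rw [h0, zero_smul]
  · exact absurd h0 hδ

/-- A criterion for the genus of a function field to be one. -/
theorem genus_eq_one {x : L} (hspan : ∀ η : Ω[L⁄ℂ], η ∈
      Submodule.span L {KaehlerDifferential.D ℂ L x})
    (δ : Derivation ℂ L L) (hδ : δ x ≠ 0)
    (hreg : ∀ (A : Place L) (f : L), f ∈ A.1 → δ f ∈ A.1)
    (hunif : ∀ A : Place L, ∃ t ∈ A.1, δ t ≠ 0 ∧ (δ t)⁻¹ ∈ A.1)
    (hliou : ∀ f : L, (∀ A : Place L, f ∈ A.1) → ∃ c : ℂ, f = algebraMap ℂ L c) :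
    genus L = 1 := by
  have hinj := lift_injective hspan δ hδ
  set η₀ : Ω[L⁄ℂ] := (δ x)⁻¹ • KaehlerDifferential.D ℂ L x with hη₀
  have h1 : δ.liftKaehlerDifferential η₀ = 1 := by
    rw [hη₀, map_smul, δ.liftKaehlerDifferential_comp_D, smul_eq_mul, inv_mul_cancel₀ hδ]
  have heq : regularDifferentials L = Submodule.span ℂ {η₀} := by
    apply le_antisymm
    · intro η hη
      rw [regularDifferentials, Submodule.mem_iInf] at hη
      have hr : ∀ A : Place L, δ.liftKaehlerDifferential η ∈ A.1 := by
        intro A
        have h2 := hη A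
        clear hη
        induction h2 using Submodule.span_induction with
        | mem z hz =>
          obtain ⟨f, hf, g, hg, rfl⟩ := hz
          rw [map_smul, δ.liftKaehlerDifferential_comp_D, smul_eq_mul]
          exact mul_mem hf (hreg A g hg)
        | zero => rw [map_zero]; exact zero_mem _
        | add z w _ _ hz hw => rw [map_add]; exact add_mem hz hw
        | smul c z _ hz =>
          rw [LinearMap.map_smul_of_tower, Algebra.smul_def]
          exact mul_mem (A.2.2 c) hz
      obtain ⟨c, hc⟩ := hliou _ hr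
      rw [Submodule.mem_span_singleton]
      refine ⟨c, hinj ?_⟩
      rw [LinearMap.map_smul_of_tower, h1, hc, Algebra.smul_def, mul_one]
    · rw [Submodule.span_singleton_le_iff_mem, regularDifferentials, Submodule.mem_iInf]
      intro A
      obtain ⟨t, ht, ht0, htA⟩ := hunif A
      have e : η₀ = (δ t)⁻¹ • KaehlerDifferential.D ℂ L t := by
        apply hinj
        rw [h1, map_smul, δ.liftKaehlerDifferential_comp_D, smul_eq_mul, inv_mul_cancel₀ ht0]
      apply Submodule.subset_span
      exact ⟨(δ t)⁻¹, htA, t, ht, e⟩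
  rw [genus, heq]
  apply finrank_span_singleton
  intro h
  rw [h, map_zero] at h1
  exact zero_ne_one h1

end GenusAux

end Pool.Agent.CanonDeg
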