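import Mathlib
import Pool.Agent.CanonDeg.Defs

/-!
# Auxiliary facts on places of a field
-/

namespace Pool.Agent.CanonDeg

namespace Place

variable {L : Type} [Field L] [Algebra ℂ L]

section Alg

open Polynomial

theorem isAlgebraic_of_adjoin {x y : L} (hgen : IntermediateField.adjoin ℂ {x, y} = ⊤)
    (hy : IsAlgebraic (IntermediateField.adjoin ℂ {x}) y) :
    Algebra.IsAlgebraic (IntermediateField.adjoin ℂ {x}) L := by
  set F := IntermediateField.adjoin ℂ {x} with hF
  have h : (⊤ : IntermediateField ℂ L) ≤ (algebraicClosure F L).restrictScalars ℂ := by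
    rw [← hgen, IntermediateField.adjoin_le_iff]
    rintro z (rfl | hz)
    · change z ∈ algebraicClosure F L
      rw [mem_algebraicClosure_iff]
      have hz : z ∈ F := IntermediateField.subset_adjoin ℂ _ rfl
      exact isAlgebraic_algebraMap (⟨z, hz⟩ : F)
    · change z ∈ algebraicClosure F L
      rw [mem_algebraicClosure_iff]
      rw [Set.mem_singleton_iff.1 hz]
      exact hy
  refine ⟨fun z => ?_⟩
  have := h (show z ∈ ⊤ by trivial)
  exact mem_algebraicClosure_iff.1 this

/-- If `x` is in the valuation ring and `L` is algebraic over `ℂ(x)`, then `x` has a value. -/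
theorem exists_sub_nonunit {x : L} [Algebra.IsAlgebraic (IntermediateField.adjoin ℂ {x}) L]
    (A : Place L) (hx : x ∈ A.1) : ∃ a : ℂ, x - algebraMap ℂ L a ∈ A.1.nonunits := by
  by_contra! hcon
  have hinv : ∀ a : ℂ, x - algebraMap ℂ L a ≠ 0 ∧ (x - algebraMap ℂ L a)⁻¹ ∈ A.1 := by
    intro a
    have := hcon a
    rw [ValuationSubring.mem_nonunits_iff_or] at this
    push Not at this
    exact this
  have hpol : ∀ (n : ℕ) (p : ℂ[X]), p ≠ 0 → p.natDegree ≤ n →
      (aeval x p)⁻¹ ∈ A.1 := by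
    intro n
    induction n with
    | zero =>
      intro p hp hn
      rw [Polynomial.eq_C_of_natDegree_le_zero hn]
      simp only [aeval_C]
      rw [← map_inv₀]
      exact A.2.2 _
    | succ n ih =>
      intro p hp hn
      by_cases hd : p.natDegree = 0
      · rw [Polynomial.eq_C_of_natDegree_le_zero hd.le]
        simp only [aeval_C]
        rw [← map_inv₀]
        exact A.2.2 _
      · obtain ⟨a, ha⟩ := IsAlgClosed.exists_root p (by
          intro h; exact hd (Polynomial.natDegree_eq_of_degree_eq_some h))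
        obtain ⟨q, hq⟩ := Polynomial.dvd_iff_isRoot.2 ha
        have hq0 : q ≠ 0 := by rintro rfl; rw [mul_zero] at hq; exact hp hq
        have hdeg : q.natDegree ≤ n := by
          rw [hq, Polynomial.natDegree_mul (Polynomial.X_sub_C_ne_zero a) hq0,
            Polynomial.natDegree_X_sub_C] at hn
          omega
        rw [hq, map_mul, mul_inv]
        refine mul_mem ?_ (ih q hq0 hdeg)
        simpa using (hinv a).2
  have hpol' : ∀ p : ℂ[X], aeval x p ∈ A.1 := by
    intro p
    induction p using Polynomial.induction_on' with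
    | add p q hp hq => rw [map_add]; exact add_mem hp hq
    | monomial n a =>
      rw [aeval_monomial]
      exact mul_mem (A.2.2 a) (pow_mem hx n)
  have hF : ∀ z ∈ IntermediateField.adjoin ℂ {x}, z ∈ A.1 := by
    intro z hz
    obtain ⟨r, s, rfl⟩ := (IntermediateField.mem_adjoin_simple_iff ℂ z).1 hz
    by_cases hs : s = 0
    · simp [hs]
    · rw [div_eq_mul_inv]
      exact mul_mem (hpol' r) (hpol _ s hs le_rfl)
  apply A.2.1
  rw [eq_top_iff]
  intro z _
  let φ : IntermediateField.adjoin ℂ {x} →+* A.1 :=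
    { toFun := fun z => ⟨z, hF z z.2⟩
      map_one' := rfl
      map_mul' := fun _ _ => rfl
      map_zero' := rfl
      map_add' := fun _ _ => rfl }
  have hz : IsIntegral (IntermediateField.adjoin ℂ {x}) z :=
    (Algebra.IsAlgebraic.isAlgebraic (R := IntermediateField.adjoin ℂ {x}) z).isIntegral
  obtain ⟨p, hp, hpz⟩ := hz
  have hz' : IsIntegral A.1 z := by
    refine ⟨p.map φ, hp.map φ, ?_⟩
    rw [Polynomial.eval₂_map]
    exact hpz
  obtain ⟨w, hw⟩ := (IsIntegrallyClosed.isIntegral_iff (R := A.1) (K := L)).1 hz'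
  rw [← hw]
  exact w.2

end Alg

section Local

open MvPolynomial

theorem algebraMap_mem (A : Place L) (c : ℂ) : algebraMap ℂ L c ∈ A.1 := A.2.2 c

theorem algebraMap_nonunit_iff (A : Place L) (c : ℂ) :
    algebraMap ℂ L c ∈ A.1.nonunits ↔ c = 0 := by
  rw [ValuationSubring.mem_nonunits_iff_or]
  constructor
  · rintro (h | h)
    · exact (map_eq_zero _).1 h
    · exact absurd (by rw [← map_inv₀]; exact A.algebraMap_mem _) h
  · rintro rfl
    left
    simp

theorem mem_of_nonunit {A : Place L} {x : L} (h : x ∈ A.1.nonunits) : x ∈ A.1 :=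
  ValuationSubring.nonunits_subset h

theorem nonunit_mul_mem {A : Place L} {x y : L} (h : x ∈ A.1.nonunits) (hy : y ∈ A.1) :
    x * y ∈ A.1.nonunits := by
  rw [ValuationSubring.mem_nonunits_iff] at *
  rw [← A.1.valuation_le_one_iff] at hy
  rw [map_mul]
  calc A.1.valuation x * A.1.valuation y ≤ A.1.valuation x * 1 := mul_le_mul_right hy _
    _ < 1 := by rwa [mul_one]

theorem nonunit_add {A : Place L} {x y : L} (h : x ∈ A.1.nonunits) (hy : y ∈ A.1.nonunits) :
    x + y ∈ A.1.nonunits := add_mem h hy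

theorem nonunit_sub {A : Place L} {x y : L} (h : x ∈ A.1.nonunits) (hy : y ∈ A.1.nonunits) :
    x - y ∈ A.1.nonunits := sub_mem h hy

theorem nonunit_or_of_mul {A : Place L} {x y : L} (h : x * y ∈ A.1.nonunits) : x ∈ A.1.nonunits ∨ y ∈ A.1.nonunits := by
  by_contra! hc
  rw [ValuationSubring.mem_nonunits_iff_or, ValuationSubring.mem_nonunits_iff_or] at hc
  push Not at hc
  rw [ValuationSubring.mem_nonunits_iff_or] at h
  rcases h with h | h
  · rcases mul_eq_zero.1 h with h | h
    · exact hc.1.1 h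
    · exact hc.2.1 h
  · apply h
    rw [mul_inv]
    exact mul_mem hc.1.2 hc.2.2

/-- A polynomial in elements with given values has the expected value. -/
theorem aeval_sub_nonunit {ι : Type} {A : Place L} {x : ι → L} {α : ι → ℂ}
    (h : ∀ i, x i - algebraMap ℂ L (α i) ∈ A.1.nonunits) (p : MvPolynomial ι ℂ) :
    aeval x p - algebraMap ℂ L (eval α p) ∈ A.1.nonunits := by
  induction p using MvPolynomial.induction_on with
  | C a =>
    have e : aeval x (C a : MvPolynomial ι ℂ) - algebraMap ℂ L (eval α (C a)) = 0 := by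
      simp
    rw [e]
    exact zero_mem _
  | add p q hp hq =>
    have e : aeval x (p + q) - algebraMap ℂ L (eval α (p + q)) =
        (aeval x p - algebraMap ℂ L (eval α p)) + (aeval x q - algebraMap ℂ L (eval α q)) := by
      simp only [map_add]; ring
    rw [e]
    exact add_mem hp hq
  | mul_X p i hp =>
    have hx : x i ∈ A.1 := by
      have := add_mem (mem_of_nonunit (h i)) (A.algebraMap_mem (α i))
      simpa using this
    have e : aeval x (p * X i) - algebraMap ℂ L (eval α (p * X i)) =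
        (aeval x p - algebraMap ℂ L (eval α p)) * x i +
          (x i - algebraMap ℂ L (α i)) * algebraMap ℂ L (eval α p) := by
      simp only [map_mul, aeval_X, eval_X]; ring
    rw [e]
    exact add_mem (nonunit_mul_mem hp hx) (nonunit_mul_mem (h i) (A.algebraMap_mem _))

theorem aeval_mem {ι : Type} {A : Place L} {x : ι → L} {α : ι → ℂ}
    (h : ∀ i, x i - algebraMap ℂ L (α i) ∈ A.1.nonunits) (p : MvPolynomial ι ℂ) :
    aeval x p ∈ A.1 := by
  have := add_mem (mem_of_nonunit (aeval_sub_nonunit h p)) (A.algebraMap_mem (eval α p))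
  simpa using this

theorem aeval_nonunit_iff {ι : Type} {A : Place L} {x : ι → L} {α : ι → ℂ}
    (h : ∀ i, x i - algebraMap ℂ L (α i) ∈ A.1.nonunits) (p : MvPolynomial ι ℂ) :
    aeval x p ∈ A.1.nonunits ↔ eval α p = 0 := by
  have h1 := aeval_sub_nonunit h p
  constructor
  · intro h2
    have := sub_mem h2 h1
    rw [sub_sub_cancel] at this
    exact (A.algebraMap_nonunit_iff _).1 this
  · intro h2
    rw [h2] at h1
    simpa using h1

theorem exists_decomp (α : Fin 2 → ℂ) (p : MvPolynomial (Fin 2) ℂ) :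
    ∃ r s : MvPolynomial (Fin 2) ℂ, p = C (eval α p) + ((X 0 - C (α 0)) * r + (X 1 - C (α 1)) * s) := by
  induction p using MvPolynomial.induction_on with
  | C a => exact ⟨0, 0, by simp⟩
  | add p q hp hq =>
    obtain ⟨r, s, h1⟩ := hp
    obtain ⟨r', s', h2⟩ := hq
    refine ⟨r + r', s + s', ?_⟩
    rw [map_add, map_add]
    linear_combination h1 + h2
  | mul_X p i hp =>
    obtain ⟨r, s, h1⟩ := hp
    fin_cases i
    · refine ⟨r * X 0 + C (eval α p), s * X 0, ?_⟩
      simp only [Fin.zero_eta, map_mul, eval_X]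
      linear_combination X 0 * h1
    · refine ⟨r * X 1, s * X 1 + C (eval α p), ?_⟩
      simp only [Fin.mk_one, map_mul, eval_X]
      linear_combination X 1 * h1

/-- The local ring of the point `α` of the affine curve with generic point `x`. -/
def InLocal (x : Fin 2 → L) (α : Fin 2 → ℂ) (f : L) : Prop :=
  ∃ p q : MvPolynomial (Fin 2) ℂ, eval α q ≠ 0 ∧ aeval x q ≠ 0 ∧ f = aeval x p / aeval x q

section

variable {x : Fin 2 → L} {α : Fin 2 → ℂ} {A B : Place L}

theorem aeval_ne_zero (hA : ∀ i, x i - algebraMap ℂ L (α i) ∈ A.1.nonunits)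
    {p : MvPolynomial (Fin 2) ℂ} (hp : eval α p ≠ 0) : aeval x p ≠ 0 := by
  intro h
  apply hp
  rw [← aeval_nonunit_iff hA p, h]
  exact zero_mem _

theorem inv_aeval_mem (hA : ∀ i, x i - algebraMap ℂ L (α i) ∈ A.1.nonunits)
    {p : MvPolynomial (Fin 2) ℂ} (hp : eval α p ≠ 0) : (aeval x p)⁻¹ ∈ A.1 := by
  have h1 : ¬ (aeval x p ∈ A.1.nonunits) := fun h => hp ((aeval_nonunit_iff hA p).1 h)
  rw [ValuationSubring.mem_nonunits_iff_or] at h1
  push Not at h1
  exact h1.2

theorem InLocal.mem (hA : ∀ i, x i - algebraMap ℂ L (α i) ∈ A.1.nonunits) {f : L}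
    (hf : InLocal x α f) : f ∈ A.1 := by
  obtain ⟨p, q, hq, hq', rfl⟩ := hf
  rw [div_eq_mul_inv]
  exact mul_mem (aeval_mem hA p) (inv_aeval_mem hA hq)

theorem InLocal.of_aeval (p : MvPolynomial (Fin 2) ℂ) : InLocal x α (aeval x p) :=
  ⟨p, 1, by simp, by simp, by simp⟩

theorem InLocal.mul {f g : L} (hf : InLocal x α f) (hg : InLocal x α g) :
    InLocal x α (f * g) := by
  obtain ⟨p, q, hq, hq', rfl⟩ := hf
  obtain ⟨r, s, hs, hs', rfl⟩ := hg
  refine ⟨p * r, q * s, ?_, ?_, ?_⟩
  · rw [map_mul]; exact mul_ne_zero hq hs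
  · rw [map_mul]; exact mul_ne_zero hq' hs'
  · rw [map_mul, map_mul]; field_simp

theorem InLocal.add {f g : L} (hf : InLocal x α f) (hg : InLocal x α g) :
    InLocal x α (f + g) := by
  obtain ⟨p, q, hq, hq', rfl⟩ := hf
  obtain ⟨r, s, hs, hs', rfl⟩ := hg
  refine ⟨p * s + r * q, q * s, ?_, ?_, ?_⟩
  · rw [map_mul]; exact mul_ne_zero hq hs
  · rw [map_mul]; exact mul_ne_zero hq' hs'
  · simp only [map_mul, map_add]; field_simp

/-- Elements of the local ring are, up to a power of the uniformizer, units. -/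
theorem InLocal.exists_pow (ν : L → ℤ) (hν : ∀ f g, f ≠ 0 → g ≠ 0 → ν (f * g) = ν f + ν g)
    (hν0 : ∀ f, InLocal x α f → f ≠ 0 → 0 ≤ ν f)
    {t f₀ f₁ : L} (ht : 0 < ν t) (ht0 : t ≠ 0)
    (h0 : x 0 - algebraMap ℂ L (α 0) = t * f₀) (h1 : x 1 - algebraMap ℂ L (α 1) = t * f₁)
    (hf₀ : InLocal x α f₀) (hf₁ : InLocal x α f₁) :
    ∀ n : ℕ, ∀ g, InLocal x α g → g ≠ 0 → ν g ≤ n →
      ∃ (k : ℕ) (p q : MvPolynomial (Fin 2) ℂ), eval α p ≠ 0 ∧ eval α q ≠ 0 ∧
        g = t ^ k * (aeval x p / aeval x q) := by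
  intro n
  induction n with
  | zero =>
    rintro g ⟨p, q, hq, hq', rfl⟩ hg hn
    by_cases hp : eval α p = 0
    · exfalso
      obtain ⟨r, s, hrs⟩ := exists_decomp α p
      rw [hp, map_zero, zero_add] at hrs
      have e1 : aeval x p = t * (f₀ * aeval x r + f₁ * aeval x s) := by
        conv_lhs => rw [hrs]
        simp only [map_add, map_mul, map_sub, aeval_X, aeval_C]
        rw [h0, h1]
        ring
      have e2 : aeval x p / aeval x q = t * ((f₀ * aeval x r + f₁ * aeval x s) * (aeval x q)⁻¹) := by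
        rw [e1, div_eq_mul_inv]; ring
      have hl : InLocal x α ((f₀ * aeval x r + f₁ * aeval x s) * (aeval x q)⁻¹) := by
        refine InLocal.mul (InLocal.add (hf₀.mul (InLocal.of_aeval r))
          (hf₁.mul (InLocal.of_aeval s))) ⟨1, q, hq, hq', by simp⟩
      have hne : (f₀ * aeval x r + f₁ * aeval x s) * (aeval x q)⁻¹ ≠ 0 := by
        intro h
        rw [e2, h, mul_zero] at hg
        exact hg rfl
      have := hν0 _ hl hne
      rw [e2, hν _ _ ht0 hne] at hn
      push_cast at hn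
      omega
    · exact ⟨0, p, q, hp, hq, by simp⟩
  | succ n ih =>
    rintro g ⟨p, q, hq, hq', rfl⟩ hg hn
    by_cases hp : eval α p = 0
    · obtain ⟨r, s, hrs⟩ := exists_decomp α p
      rw [hp, map_zero, zero_add] at hrs
      have e1 : aeval x p = t * (f₀ * aeval x r + f₁ * aeval x s) := by
        conv_lhs => rw [hrs]
        simp only [map_add, map_mul, map_sub, aeval_X, aeval_C]
        rw [h0, h1]
        ring
      have e2 : aeval x p / aeval x q = t * ((f₀ * aeval x r + f₁ * aeval x s) * (aeval x q)⁻¹) := by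
        rw [e1, div_eq_mul_inv]; ring
      have hl : InLocal x α ((f₀ * aeval x r + f₁ * aeval x s) * (aeval x q)⁻¹) := by
        refine InLocal.mul (InLocal.add (hf₀.mul (InLocal.of_aeval r))
          (hf₁.mul (InLocal.of_aeval s))) ⟨1, q, hq, hq', by simp⟩
      have hne : (f₀ * aeval x r + f₁ * aeval x s) * (aeval x q)⁻¹ ≠ 0 := by
        intro h
        rw [e2, h, mul_zero] at hg
        exact hg rfl
      rw [e2, hν _ _ ht0 hne] at hn
      obtain ⟨k, p', q', hp', hq'', he⟩ := ih _ hl hne (by push_cast at hn; omega)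
      refine ⟨k + 1, p', q', hp', hq'', ?_⟩
      rw [e2, he]
      ring
    · exact ⟨0, p, q, hp, hq, by simp⟩

/-- Two places with the same center, the center being a regular point, are equal. -/
theorem eq_of_center (hgen : IntermediateField.adjoin ℂ (Set.range x) = ⊤)
    (hA : ∀ i, x i - algebraMap ℂ L (α i) ∈ A.1.nonunits)
    (hB : ∀ i, x i - algebraMap ℂ L (α i) ∈ B.1.nonunits)
    (ν : L → ℤ) (hν : ∀ f g, f ≠ 0 → g ≠ 0 → ν (f * g) = ν f + ν g)
    (hνB : ∀ f, f ≠ 0 → (0 ≤ ν f ↔ f ∈ B.1))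
    {t f₀ f₁ : L} (ht0 : t ≠ 0) (htA : t ∈ A.1.nonunits) (htB : t ∈ B.1.nonunits)
    (htν : 0 < ν t)
    (h0 : x 0 - algebraMap ℂ L (α 0) = t * f₀) (h1 : x 1 - algebraMap ℂ L (α 1) = t * f₁)
    (hf₀ : InLocal x α f₀) (hf₁ : InLocal x α f₁) : A = B := by
  have key : ∀ g : L, g ≠ 0 → ∃ (k : ℤ) (u : L), u ≠ 0 ∧ u ∈ A.1 ∧ u⁻¹ ∈ A.1 ∧ u ∈ B.1 ∧ u⁻¹ ∈ B.1 ∧
      g = t ^ k * u := by
    intro g hg
    have hmem : g ∈ IntermediateField.adjoin ℂ (Set.range x) := by rw [hgen]; trivial
    obtain ⟨r, s, hrs⟩ := (IntermediateField.mem_adjoin_range_iff ℂ x g).1 hmem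
    have hr : aeval x r ≠ 0 := by
      intro h; rw [h, zero_div] at hrs; exact hg hrs
    have hs : aeval x s ≠ 0 := by
      intro h; rw [h, div_zero] at hrs; exact hg hrs
    have hν0 : ∀ f, InLocal x α f → f ≠ 0 → 0 ≤ ν f := fun f hf hf0 =>
      (hνB f hf0).2 (hf.mem hB)
    obtain ⟨k, p, q, hp, hq, e1⟩ := InLocal.exists_pow ν hν hν0 htν ht0 h0 h1 hf₀ hf₁
      (ν (aeval x r)).toNat _ (InLocal.of_aeval r) hr (Int.self_le_toNat _)
    obtain ⟨k', p', q', hp', hq', e2⟩ := InLocal.exists_pow ν hν hν0 htν ht0 h0 h1 hf₀ hf₁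
      (ν (aeval x s)).toNat _ (InLocal.of_aeval s) hs (Int.self_le_toNat _)
    have np := aeval_ne_zero hA hp
    have nq := aeval_ne_zero hA hq
    have np' := aeval_ne_zero hA hp'
    have nq' := aeval_ne_zero hA hq'
    have unit : ∀ (P : Place L), (∀ i, x i - algebraMap ℂ L (α i) ∈ P.1.nonunits) →
        (aeval x p / aeval x q) / (aeval x p' / aeval x q') ∈ P.1 ∧
        ((aeval x p / aeval x q) / (aeval x p' / aeval x q'))⁻¹ ∈ P.1 := by
      intro P hP
      have a1 := aeval_mem hP p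
      have a2 := aeval_mem hP q
      have a3 := aeval_mem hP p'
      have a4 := aeval_mem hP q'
      have b1 := inv_aeval_mem hP hp
      have b2 := inv_aeval_mem hP hq
      have b3 := inv_aeval_mem hP hp'
      have b4 := inv_aeval_mem hP hq'
      constructor
      · have : (aeval x p / aeval x q) / (aeval x p' / aeval x q') =
            aeval x p * (aeval x q)⁻¹ * ((aeval x p')⁻¹ * aeval x q') := by field_simp
        rw [this]
        exact mul_mem (mul_mem a1 b2) (mul_mem b3 a4)
      · have : ((aeval x p / aeval x q) / (aeval x p' / aeval x q'))⁻¹ =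
            (aeval x p)⁻¹ * aeval x q * (aeval x p' * (aeval x q')⁻¹) := by field_simp
        rw [this]
        exact mul_mem (mul_mem b1 a2) (mul_mem a3 b4)
    refine ⟨(k : ℤ) - k', (aeval x p / aeval x q) / (aeval x p' / aeval x q'), ?_,
      (unit A hA).1, (unit A hA).2, (unit B hB).1, (unit B hB).2, ?_⟩
    · exact div_ne_zero (div_ne_zero np nq) (div_ne_zero np' nq')
    · rw [hrs, e1, e2, zpow_sub₀ ht0, zpow_natCast, zpow_natCast]
      field_simp
  have powmem : ∀ (P : Place L), t ∈ P.1.nonunits → ∀ k : ℤ, t ^ k ∈ P.1 ↔ 0 ≤ k := by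
    intro P htP k
    constructor
    · intro h
      by_contra hk
      push Not at hk
      obtain ⟨m, hm⟩ : ∃ m : ℕ, k = -((m : ℤ) + 1) := ⟨(-k - 1).toNat, by omega⟩
      have h2 : t ^ (m + 1) ∈ P.1.nonunits := by
        rw [pow_succ']
        exact nonunit_mul_mem htP (pow_mem (mem_of_nonunit htP) m)
      rw [ValuationSubring.mem_nonunits_iff_or] at h2
      rcases h2 with h2 | h2
      · exact pow_ne_zero _ ht0 h2
      · apply h2
        have e : (t ^ (m + 1))⁻¹ = t ^ k := by
          rw [hm, zpow_neg]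
          norm_cast
        rw [e]; exact h
    · intro h
      lift k to ℕ using h
      rw [zpow_natCast]
      exact pow_mem (mem_of_nonunit htP) k
  have mem_iff : ∀ (P : Place L), t ∈ P.1.nonunits → ∀ (k : ℤ) (u : L), u ≠ 0 → u ∈ P.1 →
      u⁻¹ ∈ P.1 → (t ^ k * u ∈ P.1 ↔ 0 ≤ k) := by
    intro P htP k u hu0 hu hu'
    rw [← powmem P htP k]
    constructor
    · intro h
      have := mul_mem h hu'
      rwa [mul_assoc, mul_inv_cancel₀ hu0, mul_one] at this
    · intro h
      exact mul_mem h hu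
  apply Subtype.ext
  ext g
  by_cases hg : g = 0
  · rw [hg]; simp
  · obtain ⟨k, u, hu0, h2, h3, h4, h5, rfl⟩ := key g hg
    rw [mem_iff A htA k u hu0 h2 h3, mem_iff B htB k u hu0 h4 h5]

end

end Local

end Place

end Pool.Agent.CanonDeg
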