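import Mathlib
import Pool.Agent.CanonDeg.Defs
import Pool.Agent.CanonDeg.EllField
import Pool.Agent.CanonDeg.EllWp
import Pool.Agent.CanonDeg.EllGen
import Pool.Agent.CanonDeg.PlaceAux
import Pool.Agent.CanonDeg.GenusAux

/-!
# The places, the genus and the transcendence degree of the field of elliptic functions
-/

open Filter Topology PeriodPair

namespace Pool.Agent.CanonDeg

namespace Ell

variable {Λ : PeriodPair}

theorem ordZ_nonneg_iff {z : ℂ} {x : Ell Λ} (hx : x ≠ 0) : 0 ≤ ordZ z x ↔ 0 ≤ ord z x := by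
  rw [← coe_ordZ z hx]
  exact_mod_cast Iff.rfl

theorem ordZ_pos_iff {z : ℂ} {x : Ell Λ} (hx : x ≠ 0) : 0 < ordZ z x ↔ 0 < ord z x := by
  rw [← coe_ordZ z hx]
  exact_mod_cast Iff.rfl

theorem ordZ_eq {z : ℂ} {x : Ell Λ} {k : ℤ} (h : ord z x = k) : ordZ z x = k := by
  simp [ordZ, h]

theorem ne_zero_of_ord {z : ℂ} {x : Ell Λ} {k : ℤ} (h : ord z x = k) : x ≠ 0 := by
  rintro rfl
  simp at h

/-- The valuation ring of the functions regular at `z`. -/
noncomputable def valRing (z : ℂ) : ValuationSubring (Ell Λ) where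
  carrier := {x | 0 ≤ ord z x}
  mul_mem' := by
    intro a b ha hb
    change 0 ≤ ord z (a * b)
    rw [ord_mul]
    exact add_nonneg ha hb
  one_mem' := by
    change 0 ≤ ord z 1
    simp
  add_mem' := by
    intro a b ha hb
    exact le_trans (le_min ha hb) (ord_add z a b)
  zero_mem' := by
    change 0 ≤ ord z 0
    simp
  neg_mem' := by
    intro a ha
    change 0 ≤ ord z (-a)
    rwa [ord_neg]
  mem_or_inv_mem' := by
    intro x
    change 0 ≤ ord z x ∨ 0 ≤ ord z x⁻¹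
    by_cases hx : x = 0
    · left; simp [hx]
    · rcases le_total 0 (ordZ z x) with h | h
      · left; exact (ordZ_nonneg_iff hx).1 h
      · right
        rw [← ordZ_nonneg_iff (inv_ne_zero hx), ordZ_inv]
        omega

theorem mem_valRing {z : ℂ} {x : Ell Λ} : x ∈ valRing z ↔ 0 ≤ ord z x := Iff.rfl

/-- There is a function with a simple zero at a given point. -/
theorem exists_ord_eq_one (z : ℂ) : ∃ u : Ell Λ, ord z u = (1 : ℤ) := by
  refine ⟨aff 1 one_ne_zero (-z) (wp / wp'), ?_⟩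
  rw [ord_aff]
  have h0 : ((1 : ℤ) : ℂ) * z + -z = 0 := by push_cast; ring
  rw [h0, ← coe_ordZ 0 (div_ne_zero wp_ne_zero wp'_ne_zero), ordZ_div 0 wp_ne_zero wp'_ne_zero,
    ordZ_eq (ord_wp_of_mem (Submodule.zero_mem _)), ordZ_eq (ord_wp'_of_mem (Submodule.zero_mem _))]
  norm_num

/-- The place given by a point of `ℂ`. -/
noncomputable def place (z : ℂ) : Place (Ell Λ) :=
  ⟨valRing z, by
    intro h
    obtain ⟨u, hu⟩ := exists_ord_eq_one (Λ := Λ) z
    have h1 : u⁻¹ ∈ valRing z := by rw [h]; trivial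
    rw [mem_valRing, ← ordZ_nonneg_iff (inv_ne_zero (ne_zero_of_ord hu)), ordZ_inv, ordZ_eq hu] at h1
    omega, fun c => ord_algebraMap_nonneg z c⟩

theorem mem_place {z : ℂ} {x : Ell Λ} : x ∈ (place z : Place (Ell Λ)).1 ↔ 0 ≤ ord z x := Iff.rfl

theorem mem_nonunits_place {z : ℂ} {x : Ell Λ} :
    x ∈ (place z : Place (Ell Λ)).1.nonunits ↔ 0 < ord z x := by
  rw [ValuationSubring.mem_nonunits_iff_or, mem_place]
  by_cases hx : x = 0
  · simp [hx]
  · rw [← ordZ_nonneg_iff (inv_ne_zero hx), ← ordZ_pos_iff hx, ordZ_inv]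
    simp [hx]


theorem ordZ_zpow' (z : ℂ) (x : Ell Λ) (k : ℤ) : ordZ z (x ^ k) = k * ordZ z x := ordZ_zpow z x k

theorem hasOrd_place_iff {z : ℂ} {x : Ell Λ} (hx : x ≠ 0) (k : ℤ) :
    (place z : Place (Ell Λ)).HasOrd x k ↔ k = ordZ z x := by
  constructor
  · rintro ⟨π, u, hπ, hu0, hu, hu', hxe⟩
    have hπ0 : π ≠ 0 := by
      rintro rfl
      obtain ⟨t, ht⟩ := exists_ord_eq_one (Λ := Λ) z
      have h1 : t ∈ (place z : Place (Ell Λ)).1.nonunits := by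
        rw [mem_nonunits_place, ht]
        exact_mod_cast Int.one_pos
      obtain ⟨a, _, ha⟩ := (hπ t).1 h1
      rw [mul_zero] at ha
      exact ne_zero_of_ord ht ha
    have hπ1 : ordZ z π = 1 := by
      obtain ⟨t, ht⟩ := exists_ord_eq_one (Λ := Λ) z
      have h1 : t ∈ (place z : Place (Ell Λ)).1.nonunits := by
        rw [mem_nonunits_place, ht]
        exact_mod_cast Int.one_pos
      obtain ⟨a, ha, hat⟩ := (hπ t).1 h1
      have ha0 : a ≠ 0 := by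
        rintro rfl
        rw [zero_mul] at hat
        exact ne_zero_of_ord ht hat
      have h2 := ordZ_mul z ha0 hπ0
      rw [← hat, ordZ_eq ht] at h2
      have h3 : 0 ≤ ordZ z a := (ordZ_nonneg_iff ha0).2 (mem_place.1 ha)
      have h4 : π ∈ (place z : Place (Ell Λ)).1.nonunits :=
        (hπ π).2 ⟨1, one_mem _, (one_mul _).symm⟩
      have h5 : 0 < ordZ z π := (ordZ_pos_iff hπ0).2 (mem_nonunits_place.1 h4)
      omega
    have hu1 : ordZ z u = 0 := by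
      have h1 : 0 ≤ ordZ z u := (ordZ_nonneg_iff hu0).2 (mem_place.1 hu)
      have h2 : 0 ≤ ordZ z u⁻¹ := (ordZ_nonneg_iff (inv_ne_zero hu0)).2 (mem_place.1 hu')
      rw [ordZ_inv] at h2
      omega
    rw [hxe, ordZ_mul z hu0 (zpow_ne_zero k hπ0), ordZ_zpow, hπ1, hu1]
    ring
  · rintro rfl
    obtain ⟨t, ht⟩ := exists_ord_eq_one (Λ := Λ) z
    have ht0 := ne_zero_of_ord ht
    have hu0 : x * (t ^ (ordZ z x))⁻¹ ≠ 0 := mul_ne_zero hx (inv_ne_zero (zpow_ne_zero _ ht0))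
    have hu1 : ordZ z (x * (t ^ (ordZ z x))⁻¹) = 0 := by
      rw [ordZ_mul z hx (inv_ne_zero (zpow_ne_zero _ ht0)), ordZ_inv, ordZ_zpow, ordZ_eq ht]
      ring
    refine ⟨t, x * (t ^ (ordZ z x))⁻¹, ?_, hu0, ?_, ?_, ?_⟩
    · intro y
      rw [mem_nonunits_place]
      constructor
      · intro hy
        refine ⟨y * t⁻¹, ?_, by field_simp⟩
        rw [mem_place]
        by_cases hy0 : y = 0
        · simp [hy0]
        · rw [← ordZ_nonneg_iff (mul_ne_zero hy0 (inv_ne_zero ht0)),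
            ordZ_mul z hy0 (inv_ne_zero ht0), ordZ_inv, ordZ_eq ht]
          have := (ordZ_pos_iff hy0).2 hy
          omega
      · rintro ⟨a, ha, rfl⟩
        rw [ord_mul, ht]
        rw [mem_place] at ha
        exact lt_of_lt_of_le (by exact_mod_cast Int.one_pos) (le_add_of_nonneg_left ha)
    · rw [mem_place, ← ordZ_nonneg_iff hu0, hu1]
    · rw [mem_place, ← ordZ_nonneg_iff (inv_ne_zero hu0), ordZ_inv, hu1]
      simp
    · field_simp

theorem ord_place {z : ℂ} {x : Ell Λ} (hx : x ≠ 0) :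
    (place z : Place (Ell Λ)).ord x = ordZ z x := by
  have h : ∃ k, (place z : Place (Ell Λ)).HasOrd x k := ⟨_, (hasOrd_place_iff hx _).2 rfl⟩
  rw [Place.ord, dif_pos h]
  exact (hasOrd_place_iff hx _).1 h.choose_spec


/-! ### Algebraic facts -/

theorem range_pair (x y : Ell Λ) : Set.range ![x, y] = {x, y} := by
  ext z
  simp [Matrix.range_cons, Matrix.range_empty, or_comm, eq_comm]

theorem isAlgebraic_wp' : IsAlgebraic (IntermediateField.adjoin ℂ {(wp : Ell Λ)}) (wp' : Ell Λ) := by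
  have hmem : (4 * wp ^ 3 - algebraMap ℂ (Ell Λ) Λ.g₂ * wp - algebraMap ℂ (Ell Λ) Λ.g₃ : Ell Λ) ∈
      IntermediateField.adjoin ℂ {(wp : Ell Λ)} := by
    have h1 : (wp : Ell Λ) ∈ IntermediateField.adjoin ℂ {(wp : Ell Λ)} :=
      IntermediateField.mem_adjoin_simple_self ℂ _
    have h4 : (4 : Ell Λ) ∈ IntermediateField.adjoin ℂ {(wp : Ell Λ)} := ofNat_mem _ 4
    exact sub_mem (sub_mem (mul_mem h4 (pow_mem h1 3))
      (mul_mem (IntermediateField.algebraMap_mem _ _) h1)) (IntermediateField.algebraMap_mem _ _)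
  have h2 : IsAlgebraic (IntermediateField.adjoin ℂ {(wp : Ell Λ)}) ((wp' : Ell Λ) ^ 2) := by
    rw [wp'_sq]
    exact isAlgebraic_algebraMap (⟨_, hmem⟩ : IntermediateField.adjoin ℂ {(wp : Ell Λ)})
  exact (isAlgebraic_iff_isIntegral.1 h2).of_pow (by norm_num) |>.isAlgebraic

instance isAlgebraic_adjoin_wp :
    Algebra.IsAlgebraic (IntermediateField.adjoin ℂ {(wp : Ell Λ)}) (Ell Λ) :=
  Place.isAlgebraic_of_adjoin adjoin_wp isAlgebraic_wp'

theorem transcendental_wp : Transcendental ℂ (wp : Ell Λ) := by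
  intro h
  have h1 : IsIntegral ℂ (wp : Ell Λ) := isAlgebraic_iff_isIntegral.1 h
  obtain ⟨c, hc⟩ := minpoly.mem_range_of_degree_eq_one ℂ (wp : Ell Λ)
    (IsAlgClosed.degree_eq_one_of_irreducible ℂ (minpoly.irreducible h1))
  exact wp_ne_algebraMap c hc.symm

theorem trdeg_eq_one : Algebra.trdeg ℂ (Ell Λ) = 1 := by
  apply le_antisymm
  · have h1 : Algebra.IsAlgebraic (Algebra.adjoin ℂ {(wp : Ell Λ)}) (Ell Λ) :=
      IntermediateField.isAlgebraic_adjoin_iff_top.1 inferInstance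
    have := Algebra.IsAlgebraic.trdeg_le_cardinalMk ℂ {(wp : Ell Λ)}
    simpa using this
  · have h : AlgebraicIndependent ℂ (fun _ : Unit => (wp : Ell Λ)) :=
      algebraicIndependent_unique_type_iff.2 transcendental_wp
    have := h.cardinalMk_le_trdeg
    simpa using this


/-! ### Classification of the places -/

theorem algebraMap_four : algebraMap ℂ (Ell Λ) 4 = 4 := map_ofNat _ 4

theorem wp_mem_of_sq {A : Place (Ell Λ)} {y : Ell Λ} (h : y ^ 2 ∈ A.1) : y ∈ A.1 := by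
  rcases A.1.mem_or_inv_mem y with h1 | h1
  · exact h1
  · by_cases hy : y = 0
    · simp [hy]
    · have e : y = y ^ 2 * y⁻¹ := by field_simp
      rw [e]
      exact mul_mem h h1

open MvPolynomial in
theorem exists_place_eq_of_mem (A : Place (Ell Λ)) (hx : (wp : Ell Λ) ∈ A.1) :
    ∃ z : ℂ, A = place z := by
  obtain ⟨a, ha⟩ := Place.exists_sub_nonunit A hx
  have am := A.2.2
  have m4 : (4 : Ell Λ) ∈ A.1 := ofNat_mem _ 4
  have hy : (wp' : Ell Λ) ∈ A.1 := by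
    apply wp_mem_of_sq
    rw [wp'_sq]
    exact sub_mem (sub_mem (mul_mem m4 (pow_mem hx 3)) (mul_mem (am _) hx)) (am _)
  obtain ⟨b, hb2, hb⟩ : ∃ b : ℂ, b ^ 2 = 4 * a ^ 3 - Λ.g₂ * a - Λ.g₃ ∧
      (wp' : Ell Λ) - algebraMap ℂ (Ell Λ) b ∈ A.1.nonunits := by
    obtain ⟨b, hb⟩ := IsAlgClosed.exists_pow_nat_eq (4 * a ^ 3 - Λ.g₂ * a - Λ.g₃)
      (n := 2) (by norm_num)
    have e : ((wp' : Ell Λ) - algebraMap ℂ (Ell Λ) b) * (wp' - algebraMap ℂ (Ell Λ) (-b)) =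
        (wp - algebraMap ℂ (Ell Λ) a) * (4 * (wp ^ 2 + algebraMap ℂ (Ell Λ) a * wp +
          algebraMap ℂ (Ell Λ) a ^ 2) - algebraMap ℂ (Ell Λ) Λ.g₂) := by
      have h1 : algebraMap ℂ (Ell Λ) b ^ 2 = 4 * algebraMap ℂ (Ell Λ) a ^ 3 -
          algebraMap ℂ (Ell Λ) Λ.g₂ * algebraMap ℂ (Ell Λ) a - algebraMap ℂ (Ell Λ) Λ.g₃ := by
        rw [← map_pow, hb]
        simp [algebraMap_four]
      rw [map_neg]
      linear_combination (wp'_sq (Λ := Λ)) - h1
    have h2 : ((wp' : Ell Λ) - algebraMap ℂ (Ell Λ) b) * (wp' - algebraMap ℂ (Ell Λ) (-b)) ∈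
        A.1.nonunits := by
      rw [e]
      refine Place.nonunit_mul_mem ha (sub_mem (mul_mem m4 ?_) (am _))
      exact add_mem (add_mem (pow_mem hx 2) (mul_mem (am _) hx)) (pow_mem (am _) 2)
    rcases Place.nonunit_or_of_mul h2 with h3 | h3
    · exact ⟨b, hb, h3⟩
    · exact ⟨-b, by rw [neg_sq, hb], h3⟩
  obtain ⟨z, hz, hza, hzb⟩ := exists_wp_eq hb2
  refine ⟨z, ?_⟩
  have hz1 : (wp : Ell Λ) - algebraMap ℂ (Ell Λ) a ∈ (place z : Place (Ell Λ)).1.nonunits := by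
    rw [mem_nonunits_place, ← hza]
    exact value_wp hz
  have hz2 : (wp' : Ell Λ) - algebraMap ℂ (Ell Λ) b ∈ (place z : Place (Ell Λ)).1.nonunits := by
    rw [mem_nonunits_place, ← hzb]
    exact value_wp' hz
  have hA : ∀ i, (![wp, wp'] : Fin 2 → Ell Λ) i - algebraMap ℂ (Ell Λ) (![a, b] i) ∈
      A.1.nonunits := by
    rw [Fin.forall_fin_two]
    exact ⟨by simpa using ha, by simpa using hb⟩
  have hB : ∀ i, (![wp, wp'] : Fin 2 → Ell Λ) i - algebraMap ℂ (Ell Λ) (![a, b] i) ∈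
      (place z : Place (Ell Λ)).1.nonunits := by
    rw [Fin.forall_fin_two]
    exact ⟨by simpa using hz1, by simpa using hz2⟩
  have hgen : IntermediateField.adjoin ℂ (Set.range (![wp, wp'] : Fin 2 → Ell Λ)) = ⊤ := by
    rw [range_pair]; exact adjoin_wp
  have hνB : ∀ f : Ell Λ, f ≠ 0 → (0 ≤ ordZ z f ↔ f ∈ (place z : Place (Ell Λ)).1) :=
    fun f hf => by rw [ordZ_nonneg_iff hf, mem_place]
  -- the key relation
  have hrel : ((wp' : Ell Λ) - algebraMap ℂ (Ell Λ) b) * (wp' + algebraMap ℂ (Ell Λ) b) =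
      (wp - algebraMap ℂ (Ell Λ) a) * (4 * (wp ^ 2 + algebraMap ℂ (Ell Λ) a * wp +
        algebraMap ℂ (Ell Λ) a ^ 2) - algebraMap ℂ (Ell Λ) Λ.g₂) := by
    have h1 : algebraMap ℂ (Ell Λ) b ^ 2 = 4 * algebraMap ℂ (Ell Λ) a ^ 3 -
        algebraMap ℂ (Ell Λ) Λ.g₂ * algebraMap ℂ (Ell Λ) a - algebraMap ℂ (Ell Λ) Λ.g₃ := by
      rw [← map_pow, hb2]
      simp [algebraMap_four]
    linear_combination (wp'_sq (Λ := Λ)) - h1
  let P : MvPolynomial (Fin 2) ℂ := C 4 * (X 0 ^ 2 + C a * X 0 + C (a ^ 2)) - C Λ.g₂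
  have hP : aeval (![wp, wp'] : Fin 2 → Ell Λ) P = 4 * (wp ^ 2 + algebraMap ℂ (Ell Λ) a * wp +
        algebraMap ℂ (Ell Λ) a ^ 2) - algebraMap ℂ (Ell Λ) Λ.g₂ := by
    simp [P, algebraMap_four]
  have hPe : eval ![a, b] P = 12 * a ^ 2 - Λ.g₂ := by
    simp only [P, map_sub, map_mul, map_add, eval_C, eval_X, map_pow, Matrix.cons_val_zero]
    ring
  by_cases hb0 : b = 0
  · subst hb0
    have hns : 12 * a ^ 2 - Λ.g₂ ≠ 0 := nonsingular (by rw [← hb2]; ring)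
    have hPne : aeval (![wp, wp'] : Fin 2 → Ell Λ) P ≠ 0 :=
      Place.aeval_ne_zero hA (by rw [hPe]; exact hns)
    refine Place.eq_of_center (x := ![wp, wp']) (α := ![a, 0]) (t := wp')
      (f₀ := wp' / aeval (![wp, wp'] : Fin 2 → Ell Λ) P) (f₁ := 1) hgen hA hB (ordZ z)
      (fun f g => ordZ_mul z) hνB wp'_ne_zero (by simpa using hb) (by simpa using hz2) ?_ ?_ ?_
      ?_ ?_
    · rw [ordZ_pos_iff wp'_ne_zero, ← mem_nonunits_place]
      simpa using hz2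
    · rw [eq_comm, mul_div_assoc', div_eq_iff hPne, hP]
      simp only [map_zero, sub_zero, add_zero] at hrel
      simpa using hrel
    · simp
    · exact ⟨X 1, P, by rw [hPe]; exact hns, hPne, by simp⟩
    · exact ⟨1, 1, by simp, by simp, by simp⟩
  · have hQe : eval ![a, b] (X 1 + C b : MvPolynomial (Fin 2) ℂ) ≠ 0 := by
      simp only [map_add, eval_X, eval_C, Matrix.cons_val_one, Matrix.cons_val_fin_one]
      intro h
      exact hb0 (by linear_combination h / 2)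
    have hQne : aeval (![wp, wp'] : Fin 2 → Ell Λ) (X 1 + C b : MvPolynomial (Fin 2) ℂ) ≠ 0 :=
      Place.aeval_ne_zero hA hQe
    have hQ : aeval (![wp, wp'] : Fin 2 → Ell Λ) (X 1 + C b : MvPolynomial (Fin 2) ℂ) =
        wp' + algebraMap ℂ (Ell Λ) b := by simp
    have ht0 : (wp : Ell Λ) - algebraMap ℂ (Ell Λ) a ≠ 0 := sub_ne_zero.2 (wp_ne_algebraMap a)
    refine Place.eq_of_center (x := ![wp, wp']) (α := ![a, b]) (t := wp - algebraMap ℂ (Ell Λ) a)
      (f₀ := 1) (f₁ := aeval (![wp, wp'] : Fin 2 → Ell Λ) P /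
        aeval (![wp, wp'] : Fin 2 → Ell Λ) (X 1 + C b : MvPolynomial (Fin 2) ℂ)) hgen hA hB
      (ordZ z) (fun f g => ordZ_mul z) hνB ht0 ha hz1 ?_ ?_ ?_ ?_ ?_
    · rw [ordZ_pos_iff ht0, ← mem_nonunits_place]
      exact hz1
    · simp
    · rw [eq_comm, mul_div_assoc', div_eq_iff hQne, hP, hQ]
      simpa using hrel.symm
    · exact ⟨1, 1, by simp, by simp, by simp⟩
    · exact ⟨P, X 1 + C b, hQe, hQne, rfl⟩


theorem ord_quot_zero : ord 0 ((wp : Ell Λ) / wp') = (1 : ℤ) := by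
  rw [← coe_ordZ 0 (div_ne_zero wp_ne_zero wp'_ne_zero), ordZ_div 0 wp_ne_zero wp'_ne_zero,
    ordZ_eq (ord_wp_of_mem (Submodule.zero_mem _)), ordZ_eq (ord_wp'_of_mem (Submodule.zero_mem _))]
  norm_num

theorem ord_inv_wp'_zero : ord 0 ((wp' : Ell Λ)⁻¹) = (3 : ℤ) := by
  rw [← coe_ordZ 0 (inv_ne_zero wp'_ne_zero), ordZ_inv,
    ordZ_eq (ord_wp'_of_mem (Submodule.zero_mem _))]
  norm_num

open MvPolynomial in
theorem eq_place_zero_of_notMem (A : Place (Ell Λ)) (hx : (wp : Ell Λ) ∉ A.1) :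
    A = place 0 := by
  have am := A.2.2
  have m4 : (4 : Ell Λ) ∈ A.1 := ofNat_mem _ 4
  have hw : (wp : Ell Λ)⁻¹ ∈ A.1.nonunits :=
    (ValuationSubring.inv_mem_nonunits_iff _).2 (Or.inr hx)
  have hw' := Place.mem_of_nonunit hw
  have hx0 : (wp : Ell Λ) ≠ 0 := wp_ne_zero
  have hy0 : (wp' : Ell Λ) ≠ 0 := wp'_ne_zero
  -- `s = wp'^2 / wp^3` is a unit
  have hs : (wp' : Ell Λ) ^ 2 * (wp⁻¹) ^ 3 = 4 - algebraMap ℂ (Ell Λ) Λ.g₂ * (wp⁻¹) ^ 2 -
      algebraMap ℂ (Ell Λ) Λ.g₃ * (wp⁻¹) ^ 3 := by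
    rw [wp'_sq]
    field_simp
  have hs4 : (wp' : Ell Λ) ^ 2 * (wp⁻¹) ^ 3 - algebraMap ℂ (Ell Λ) 4 ∈ A.1.nonunits := by
    have e : (wp' : Ell Λ) ^ 2 * (wp⁻¹) ^ 3 - algebraMap ℂ (Ell Λ) 4 = wp⁻¹ *
        (- (algebraMap ℂ (Ell Λ) Λ.g₂ * wp⁻¹) - algebraMap ℂ (Ell Λ) Λ.g₃ * (wp⁻¹) ^ 2) := by
      rw [hs, algebraMap_four]; ring
    rw [e]
    exact Place.nonunit_mul_mem hw (sub_mem (neg_mem (mul_mem (am _) hw'))
      (mul_mem (am _) (pow_mem hw' 2)))
  have hsinv : ((wp' : Ell Λ) ^ 2 * (wp⁻¹) ^ 3)⁻¹ ∈ A.1 := by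
    have h1 : ¬ ((wp' : Ell Λ) ^ 2 * (wp⁻¹) ^ 3 ∈ A.1.nonunits) := by
      intro h
      have := sub_mem h hs4
      rw [sub_sub_cancel, Place.algebraMap_nonunit_iff] at this
      norm_num at this
    rw [ValuationSubring.mem_nonunits_iff_or] at h1
    push Not at h1
    exact h1.2
  have hu : (wp : Ell Λ) / wp' ∈ A.1.nonunits := by
    have e : (wp : Ell Λ) / wp' * (wp / wp') = wp⁻¹ * ((wp' : Ell Λ) ^ 2 * (wp⁻¹) ^ 3)⁻¹ := by
      field_simp
    have h1 : (wp : Ell Λ) / wp' * (wp / wp') ∈ A.1.nonunits := by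
      rw [e]
      exact Place.nonunit_mul_mem hw hsinv
    rcases Place.nonunit_or_of_mul h1 with h | h <;> exact h
  have hv : (wp' : Ell Λ)⁻¹ ∈ A.1.nonunits := by
    have e : (wp' : Ell Λ)⁻¹ = wp / wp' * wp⁻¹ := by field_simp
    rw [e]
    exact Place.nonunit_mul_mem hu hw'
  have hu0 : (wp : Ell Λ) / wp' ≠ 0 := div_ne_zero hx0 hy0
  have hzu : (wp : Ell Λ) / wp' ∈ (place 0 : Place (Ell Λ)).1.nonunits := by
    rw [mem_nonunits_place, ord_quot_zero]
    exact_mod_cast Int.one_pos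
  have hzv : (wp' : Ell Λ)⁻¹ ∈ (place 0 : Place (Ell Λ)).1.nonunits := by
    rw [mem_nonunits_place, ord_inv_wp'_zero]
    exact_mod_cast (by norm_num : (0 : ℤ) < 3)
  have hA : ∀ i, (![wp / wp', wp'⁻¹] : Fin 2 → Ell Λ) i - algebraMap ℂ (Ell Λ) (![0, 0] i) ∈
      A.1.nonunits := by
    rw [Fin.forall_fin_two]
    exact ⟨by simpa using hu, by simpa using hv⟩
  have hB : ∀ i, (![wp / wp', wp'⁻¹] : Fin 2 → Ell Λ) i - algebraMap ℂ (Ell Λ) (![0, 0] i) ∈
      (place 0 : Place (Ell Λ)).1.nonunits := by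
    rw [Fin.forall_fin_two]
    exact ⟨by simpa using hzu, by simpa using hzv⟩
  have hgen : IntermediateField.adjoin ℂ (Set.range (![wp / wp', wp'⁻¹] : Fin 2 → Ell Λ)) = ⊤ := by
    rw [range_pair, eq_top_iff, ← adjoin_wp, IntermediateField.adjoin_le_iff]
    have h1 : (wp : Ell Λ) / wp' ∈ IntermediateField.adjoin ℂ {(wp : Ell Λ) / wp', wp'⁻¹} :=
      IntermediateField.subset_adjoin ℂ _ (by simp)
    have h2 : (wp' : Ell Λ)⁻¹ ∈ IntermediateField.adjoin ℂ {(wp : Ell Λ) / wp', wp'⁻¹} :=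
      IntermediateField.subset_adjoin ℂ _ (by simp)
    rintro z (rfl | hz)
    · have e : (wp : Ell Λ) / wp' / wp'⁻¹ = wp := by field_simp
      have h3 := div_mem h1 h2
      rw [e] at h3
      exact h3
    · rw [Set.mem_singleton_iff.1 hz]
      simpa using inv_mem h2
  have hνB : ∀ f : Ell Λ, f ≠ 0 → (0 ≤ ordZ 0 f ↔ f ∈ (place 0 : Place (Ell Λ)).1) :=
    fun f hf => by rw [ordZ_nonneg_iff hf, mem_place]
  let Q : MvPolynomial (Fin 2) ℂ := 1 + C Λ.g₂ * X 0 * X 1 + C Λ.g₃ * X 1 ^ 2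
  have hQe : eval ![0, 0] Q ≠ 0 := by
    simp [Q]
  have hQ : aeval (![wp / wp', wp'⁻¹] : Fin 2 → Ell Λ) Q = 1 + algebraMap ℂ (Ell Λ) Λ.g₂ *
      (wp / wp') * wp'⁻¹ + algebraMap ℂ (Ell Λ) Λ.g₃ * (wp'⁻¹) ^ 2 := by
    simp [Q]
  have hQne : aeval (![wp / wp', wp'⁻¹] : Fin 2 → Ell Λ) Q ≠ 0 := Place.aeval_ne_zero hA hQe
  refine Place.eq_of_center (x := ![wp / wp', wp'⁻¹]) (α := ![0, 0]) (t := wp / wp')
    (f₀ := 1) (f₁ := aeval (![wp / wp', wp'⁻¹] : Fin 2 → Ell Λ) (4 * X 0 ^ 2 : MvPolynomial (Fin 2) ℂ) /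
      aeval (![wp / wp', wp'⁻¹] : Fin 2 → Ell Λ) Q)
    hgen hA hB (ordZ 0) (fun f g => ordZ_mul 0) hνB hu0 hu hzu ?_ ?_ ?_ ?_ ?_
  · rw [ordZ_eq ord_quot_zero]; norm_num
  · simp
  · rw [eq_comm, mul_div_assoc', div_eq_iff hQne, hQ]
    simp only [map_mul, map_pow, aeval_X, Matrix.cons_val_zero, Matrix.cons_val_one,
      Matrix.cons_val_fin_one, map_zero, sub_zero, map_ofNat]
    field_simp
    rw [wp'_sq]
    ring
  · exact ⟨1, 1, by simp, by simp, by simp⟩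
  · exact ⟨4 * X 0 ^ 2, Q, hQe, hQne, rfl⟩

/-- Each place of the field of elliptic functions is given by a point. -/
theorem exists_place_eq (A : Place (Ell Λ)) : ∃ z : ℂ, A = place z := by
  by_cases hx : (wp : Ell Λ) ∈ A.1
  · exact exists_place_eq_of_mem A hx
  · exact ⟨0, eq_place_zero_of_notMem A hx⟩

theorem place_eq_iff {z w : ℂ} : (place z : Place (Ell Λ)) = place w ↔ z - w ∈ Λ.lattice := by
  constructor
  · intro h
    have hiff : ∀ x : Ell Λ, 0 < ord z x ↔ 0 < ord w x := by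
      intro x
      rw [← mem_nonunits_place, ← mem_nonunits_place, h]
    have hiff' : ∀ x : Ell Λ, 0 ≤ ord z x ↔ 0 ≤ ord w x := by
      intro x
      rw [← mem_place, ← mem_place, h]
    by_cases hz : z ∈ Λ.lattice
    · by_cases hw : w ∈ Λ.lattice
      · exact Submodule.sub_mem _ hz hw
      · exfalso
        have h1 : 0 < ord w ((wp : Ell Λ) - algebraMap ℂ (Ell Λ) (℘[Λ] w)) := value_wp hw
        rw [← hiff] at h1
        have h2 := ord_add z ((wp : Ell Λ) - algebraMap ℂ (Ell Λ) (℘[Λ] w))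
          (algebraMap ℂ (Ell Λ) (℘[Λ] w))
        rw [sub_add_cancel, ord_wp_of_mem hz] at h2
        have h3 : (0 : WithTop ℤ) ≤ ((-2 : ℤ) : WithTop ℤ) :=
          le_trans (le_min h1.le (ord_algebraMap_nonneg z _)) h2
        norm_cast at h3
    · by_cases hw : w ∈ Λ.lattice
      · exfalso
        have h1 : 0 < ord z ((wp : Ell Λ) - algebraMap ℂ (Ell Λ) (℘[Λ] z)) := value_wp hz
        rw [hiff] at h1
        have h2 := ord_add w ((wp : Ell Λ) - algebraMap ℂ (Ell Λ) (℘[Λ] z))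
          (algebraMap ℂ (Ell Λ) (℘[Λ] z))
        rw [sub_add_cancel, ord_wp_of_mem hw] at h2
        have h3 : (0 : WithTop ℤ) ≤ ((-2 : ℤ) : WithTop ℤ) :=
          le_trans (le_min h1.le (ord_algebraMap_nonneg w _)) h2
        norm_cast at h3
      · apply sub_mem_of_eq hz hw
        · exact value_unique w ((hiff _).1 (value_wp hz)) (value_wp hw)
        · exact value_unique w ((hiff _).1 (value_wp' hz)) (value_wp' hw)
  · intro h
    apply Subtype.ext
    ext x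
    change x ∈ (place z : Place (Ell Λ)).1 ↔ x ∈ (place w : Place (Ell Λ)).1
    rw [mem_place, mem_place]
    have e : z = w + (z - w) := by ring
    rw [e, ord_add_lattice w h]


/-! ### The genus -/

theorem mem_span_d (η : Ω[Ell Λ⁄ℂ]) : η ∈
    Submodule.span (Ell Λ) {KaehlerDifferential.D ℂ (Ell Λ) (wp : Ell Λ)} :=
  GenusAux.mem_span_d adjoin_wp wp'_sq wp'_ne_zero η

theorem genus_eq_one : genus (Ell Λ) = 1 := by
  refine GenusAux.genus_eq_one (x := (wp : Ell Λ)) mem_span_d (D : Derivation ℂ (Ell Λ) (Ell Λ))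
    ?_ ?_ ?_ ?_
  · rw [D_wp]; exact wp'_ne_zero
  · intro A f hf
    obtain ⟨z, rfl⟩ := exists_place_eq A
    exact ord_D_nonneg z hf
  · intro A
    obtain ⟨z, rfl⟩ := exists_place_eq A
    obtain ⟨t, ht⟩ := exists_ord_eq_one (Λ := Λ) z
    have hDt : ord z (D t) = ((0 : ℤ) : WithTop ℤ) := by
      rw [ord_D z one_ne_zero ht]
      norm_num
    have hDt0 : D t ≠ 0 := ne_zero_of_ord hDt
    refine ⟨t, ?_, hDt0, ?_⟩
    · rw [mem_place, ht]
      exact_mod_cast Int.zero_le_ofNat 1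
    · rw [mem_place, ← ordZ_nonneg_iff (inv_ne_zero hDt0), ordZ_inv, ordZ_eq hDt]
      simp
  · intro f hf
    exact liouville fun z => hf (place z)

end Ell

end Pool.Agent.CanonDeg
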