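import Mathlib
import Pool.Agent.CanonDeg.Defs

/-!
# Calculus of specializations `SpecTo`
-/

open MvPolynomial

namespace Pool.Agent.CanonDeg

section Spec

variable {ι : Type} {K M : Type} [Field K] [Algebra ℂ K] [Field M] [Algebra ℂ M]
  {x : ι → K} {y : ι → M}

theorem SpecTo.const {x : ι → K} {y : ι → M} (c : ℂ) :
    SpecTo x y (algebraMap ℂ K c) (algebraMap ℂ M c) :=
  ⟨0, C c, C 1, isHomogeneous_C _ _, isHomogeneous_C _ _, by simp, by simp, by simp, by simp⟩

theorem SpecTo.add {q q' : K} {r r' : M} (h : SpecTo x y q r) (h' : SpecTo x y q' r') :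
    SpecTo x y (q + q') (r + r') := by
  obtain ⟨d, F, G, hF, hG, hx, hy, rfl, rfl⟩ := h
  obtain ⟨d', F', G', hF', hG', hx', hy', rfl, rfl⟩ := h'
  refine ⟨d + d', F * G' + G * F', G * G', (hF.mul hG').add (hG.mul hF'), hG.mul hG', ?_, ?_, ?_, ?_⟩
  · simp [hx, hx']
  · simp [hy, hy']
  · simp only [map_add, map_mul]; field_simp
  · simp only [map_add, map_mul]; field_simp

theorem SpecTo.mul {q q' : K} {r r' : M} (h : SpecTo x y q r) (h' : SpecTo x y q' r') :
    SpecTo x y (q * q') (r * r') := by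
  obtain ⟨d, F, G, hF, hG, hx, hy, rfl, rfl⟩ := h
  obtain ⟨d', F', G', hF', hG', hx', hy', rfl, rfl⟩ := h'
  refine ⟨d + d', F * F', G * G', hF.mul hF', hG.mul hG', ?_, ?_, ?_, ?_⟩
  · simp [hx, hx']
  · simp [hy, hy']
  · simp only [map_mul]; field_simp
  · simp only [map_mul]; field_simp

theorem SpecTo.neg {q : K} {r : M} (h : SpecTo x y q r) : SpecTo x y (-q) (-r) := by
  have := (SpecTo.const (x := x) (y := y) (-1)).mul h
  simpa using this

theorem SpecTo.sub {q q' : K} {r r' : M} (h : SpecTo x y q r) (h' : SpecTo x y q' r') :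
    SpecTo x y (q - q') (r - r') := by
  simpa [sub_eq_add_neg] using h.add h'.neg

theorem SpecTo.inv {q : K} {r : M} (h : SpecTo x y q r) (hq : q ≠ 0) (hr : r ≠ 0) :
    SpecTo x y q⁻¹ r⁻¹ := by
  obtain ⟨d, F, G, hF, hG, hx, hy, rfl, rfl⟩ := h
  have h1 : aeval x F ≠ 0 := by
    intro h; apply hq; simp [h]
  have h2 : aeval y F ≠ 0 := by
    intro h; apply hr; simp [h]
  exact ⟨d, G, F, hG, hF, h1, h2, by simp, by simp⟩

theorem SpecTo.div {q q' : K} {r r' : M} (h : SpecTo x y q r) (h' : SpecTo x y q' r')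
    (hq : q' ≠ 0) (hr : r' ≠ 0) : SpecTo x y (q / q') (r / r') := by
  simpa [div_eq_mul_inv] using h.mul (h'.inv hq hr)

theorem SpecTo.one {x : ι → K} {y : ι → M} : SpecTo x y 1 1 := by
  simpa using SpecTo.const (x := x) (y := y) 1

theorem SpecTo.zero {x : ι → K} {y : ι → M} : SpecTo x y 0 0 := by
  simpa using SpecTo.const (x := x) (y := y) 0

theorem SpecTo.ofNat {x : ι → K} {y : ι → M} (n : ℕ) [n.AtLeastTwo] :
    SpecTo x y (OfNat.ofNat n : K) (OfNat.ofNat n : M) := by
  have := SpecTo.const (x := x) (y := y) (OfNat.ofNat n)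
  rwa [map_ofNat, map_ofNat] at this

theorem SpecTo.pow {q : K} {r : M} (h : SpecTo x y q r) (n : ℕ) : SpecTo x y (q ^ n) (r ^ n) := by
  induction n with
  | zero => simpa using SpecTo.one
  | succ n ih => rw [pow_succ, pow_succ]; exact ih.mul h

theorem SpecTo.coord {x : ι → K} {y : ι → M} (i j : ι) (hx : x j ≠ 0) (hy : y j ≠ 0) :
    SpecTo x y (x i / x j) (y i / y j) :=
  ⟨1, X i, X j, isHomogeneous_X _ _, isHomogeneous_X _ _, by simpa using hx, by simpa using hy,
    by simp, by simp⟩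

/-- The value of a rational function at a point is well defined. -/
theorem SpecTo.unique (H : ∀ (d : ℕ) (F : MvPolynomial ι ℂ), F.IsHomogeneous d →
    aeval x F = 0 → aeval y F = 0) {q : K} {r r' : M} (h : SpecTo x y q r)
    (h' : SpecTo x y q r') : r = r' := by
  obtain ⟨d, F, G, hF, hG, hx, hy, rfl, rfl⟩ := h
  obtain ⟨d', F', G', hF', hG', hx', hy', h3, rfl⟩ := h'
  have h4 : aeval x (F * G' - F' * G) = 0 := by
    rw [div_eq_div_iff hx hx'] at h3
    simp [h3]
  have h5 := H (d + d') (F * G' - F' * G) ((hF.mul hG').sub (by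
    rw [add_comm]; exact hF'.mul hG)) h4
  rw [div_eq_div_iff hy hy']
  simpa [sub_eq_zero] using h5

/-- Composition of specializations. -/
theorem SpecTo.unit_ne_zero (H : ∀ (d : ℕ) (F : MvPolynomial ι ℂ), F.IsHomogeneous d →
    aeval x F = 0 → aeval y F = 0) {q : K} {r : M} (h : SpecTo x y q r) (hr : r ≠ 0) : q ≠ 0 := by
  rintro rfl
  exact hr (SpecTo.unique H h SpecTo.zero)

end Spec

theorem aeval_smul_of_isHomogeneous {ι K : Type} [Field K] [Algebra ℂ K]
    {d : ℕ} {F : MvPolynomial ι ℂ} (hF : F.IsHomogeneous d) (c : K) (y : ι → K) :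
    aeval (fun i => c * y i) F = c ^ d * aeval y F := by
  classical
  rw [aeval_def, aeval_def, eval₂_eq, eval₂_eq, Finset.mul_sum]
  refine Finset.sum_congr rfl fun m hm => ?_
  have h1 : m.degree = d := (hF.degree_eq_sum_deg_support hm).symm
  have h2 : ∏ i ∈ m.support, (c * y i) ^ m i = c ^ d * ∏ i ∈ m.support, y i ^ m i := by
    simp_rw [mul_pow]
    rw [Finset.prod_mul_distrib, Finset.prod_pow_eq_pow_sum, ← h1]
    rfl
  rw [h2]
  ring

section Local

variable {ι : Type} [Fintype ι] {K : Type} [Field K] [Algebra ℂ K] {X : ProjVariety ι K}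
  {α : ι → ℂ}

/-- Criterion for local parameters: it suffices that the two functions vanish at the point and
that all the (affine) coordinate functions minus their values are in the ideal they
generate. -/
theorem isLocalParameters_of {a b : K} (ha : X.VanishesAt α a)
    (hb : X.VanishesAt α b) (j : ι) (hj : α j ≠ 0) (hxj : X.coord j ≠ 0)
    (H : ∀ i, ∃ r s, X.RegularAt α r ∧ X.RegularAt α s ∧
      X.coord i / X.coord j - algebraMap ℂ K (α i / α j) = r * a + s * b) :
    X.IsLocalParameters α a b := by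
  have hcoord : ∀ i, SpecTo X.coord α (X.coord i / X.coord j) (α i / α j) :=
    fun i => SpecTo.coord i j hxj hj
  -- polynomials in the affine coordinates
  have key : ∀ p : MvPolynomial ι ℂ,
      SpecTo X.coord α (aeval (fun i => X.coord i / X.coord j) p) (aeval (fun i => α i / α j) p) ∧
      ∃ r s, X.RegularAt α r ∧ X.RegularAt α s ∧
        aeval (fun i => X.coord i / X.coord j) p - algebraMap ℂ K (aeval (fun i => α i / α j) p)
          = r * a + s * b := by
    intro p
    induction p using MvPolynomial.induction_on with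
    | C c =>
      refine ⟨by simpa using SpecTo.const (x := X.coord) (y := α) c, 0, 0, ⟨0, SpecTo.zero⟩,
        ⟨0, SpecTo.zero⟩, by simp⟩
    | add p q hp hq =>
      obtain ⟨h1, r, s, ⟨c1, hr⟩, ⟨c2, hs⟩, h2⟩ := hp
      obtain ⟨h1', r', s', ⟨c1', hr'⟩, ⟨c2', hs'⟩, h2'⟩ := hq
      refine ⟨by simpa using h1.add h1', r + r', s + s', ⟨_, hr.add hr'⟩, ⟨_, hs.add hs'⟩, ?_⟩
      simp only [map_add]
      linear_combination h2 + h2'
    | mul_X p i hp =>
      obtain ⟨h1, r, s, ⟨c1, hr⟩, ⟨c2, hs⟩, h2⟩ := hp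
      obtain ⟨r', s', ⟨c1', hr'⟩, ⟨c2', hs'⟩, h2'⟩ := H i
      refine ⟨by simpa using h1.mul (hcoord i),
        r * (X.coord i / X.coord j) + algebraMap ℂ K (aeval (fun i => α i / α j) p) * r',
        s * (X.coord i / X.coord j) + algebraMap ℂ K (aeval (fun i => α i / α j) p) * s',
        ⟨_, (hr.mul (hcoord i)).add ((SpecTo.const _).mul hr')⟩,
        ⟨_, (hs.mul (hcoord i)).add ((SpecTo.const _).mul hs')⟩, ?_⟩
      simp only [map_mul, aeval_X]
      linear_combination (X.coord i / X.coord j) * h2 +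
        algebraMap ℂ K (aeval (fun i => α i / α j) p) * h2'
  refine ⟨ha, hb, ?_⟩
  rintro q ⟨d, F, G, hF, hG, hx, hy, rfl, h0⟩
  have hF0 : aeval α F = 0 := by
    rcases div_eq_zero_iff.mp h0.symm with h | h
    · exact h
    · exact absurd h hy
  have e1 : ∀ (P : MvPolynomial ι ℂ), P.IsHomogeneous d →
      aeval X.coord P = X.coord j ^ d * aeval (fun i => X.coord i / X.coord j) P := by
    intro P hP
    rw [← aeval_smul_of_isHomogeneous hP]
    congr 2
    ext i
    field_simp
  have e2 : ∀ (P : MvPolynomial ι ℂ), P.IsHomogeneous d →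
      aeval α P = α j ^ d * aeval (fun i => α i / α j) P := by
    intro P hP
    rw [← aeval_smul_of_isHomogeneous hP]
    congr 2
    ext i
    field_simp
  obtain ⟨hF1, r, s, ⟨c1, hr⟩, ⟨c2, hs⟩, h2⟩ := key F
  obtain ⟨hG1, -⟩ := key G
  have hFv : aeval (fun i => α i / α j) F = 0 := by
    rw [e2 F hF] at hF0
    exact (mul_eq_zero.mp hF0).resolve_left (pow_ne_zero _ hj)
  have hGv : aeval (fun i => α i / α j) G ≠ 0 := by
    intro h
    apply hy
    rw [e2 G hG, h, mul_zero]
  have hGx : aeval (fun i => X.coord i / X.coord j) G ≠ 0 := by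
    intro h
    apply hx
    rw [e1 G hG, h, mul_zero]
  rw [hFv, map_zero, sub_zero] at h2
  have hGi := hG1.inv hGx hGv
  refine ⟨(aeval (fun i => X.coord i / X.coord j) G)⁻¹ * r,
    (aeval (fun i => X.coord i / X.coord j) G)⁻¹ * s, ⟨_, hGi.mul hr⟩, ⟨_, hGi.mul hs⟩, ?_⟩
  rw [e1 F hF, e1 G hG, h2]
  have := pow_ne_zero d hxj
  field_simp

end Local

end Pool.Agent.CanonDeg
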