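import Mathlib
import Pool.Agent.CanonDeg.Defs

/-!
# Calculus of differentials and 2-forms
-/

namespace Pool.Agent.CanonDeg

variable {K : Type} [Field K] [Algebra ℂ K]

/-- The element `da ∧ db` of the exterior square of the Kähler differentials. -/
noncomputable def wedge (a b : K) : ⋀[K]^2 (Ω[K⁄ℂ]) :=
  exteriorPower.ιMulti K 2 ![KaehlerDifferential.D ℂ K a, KaehlerDifferential.D ℂ K b]

/-- The evaluation of an element of the exterior square of the Kähler differentials at two
derivations. -/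
noncomputable def evalAt (D E : Derivation ℂ K K) : ⋀[K]^2 (Ω[K⁄ℂ]) →ₗ[K] K :=
  exteriorPower.alternatingMapLinearEquiv
    (Matrix.detRowAlternating.compLinearMap
      (LinearMap.pi ![D.liftKaehlerDifferential, E.liftKaehlerDifferential]))

theorem evalAt_wedge (D E : Derivation ℂ K K) (a b : K) :
    evalAt D E (wedge a b) = twoForm a b D E := by
  rw [evalAt, wedge, exteriorPower.alternatingMapLinearEquiv_apply_ιMulti, twoForm,
    AlternatingMap.compLinearMap_apply]
  show Matrix.det (Matrix.of fun i => (LinearMap.pi ![D.liftKaehlerDifferential,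
    E.liftKaehlerDifferential]) (![(KaehlerDifferential.D ℂ K) a,
      (KaehlerDifferential.D ℂ K) b] i)) = _
  rw [Matrix.det_fin_two]
  simp
  ring

theorem evalAt_smul_wedge (D E : Derivation ℂ K K) (a b J : K) :
    evalAt D E (J • wedge a b) = J * twoForm a b D E := by
  rw [map_smul, evalAt_wedge, smul_eq_mul]

/-- `HasD η θ a p q`: `da = p η + q θ`. -/
def HasD (η θ : Ω[K⁄ℂ]) (a p q : K) : Prop :=
  KaehlerDifferential.D ℂ K a = p • η + q • θ

variable {η θ : Ω[K⁄ℂ]}

theorem HasD.const (c : ℂ) : HasD η θ (algebraMap ℂ K c) 0 0 := by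
  simp [HasD]

theorem HasD.add {a b p q p' q' : K} (h : HasD η θ a p q) (h' : HasD η θ b p' q') :
    HasD η θ (a + b) (p + p') (q + q') := by
  simp only [HasD] at *
  rw [map_add, h, h', add_smul, add_smul]
  abel

theorem HasD.sub {a b p q p' q' : K} (h : HasD η θ a p q) (h' : HasD η θ b p' q') :
    HasD η θ (a - b) (p - p') (q - q') := by
  simp only [HasD] at *
  rw [map_sub, h, h', sub_smul, sub_smul]
  abel

theorem HasD.sub_const {a p q : K} (h : HasD η θ a p q) (c : ℂ) :
    HasD η θ (a - algebraMap ℂ K c) p q := by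
  simpa using h.sub (HasD.const c)

theorem HasD.mul {a b p q p' q' : K} (h : HasD η θ a p q) (h' : HasD η θ b p' q') :
    HasD η θ (a * b) (a * p' + b * p) (a * q' + b * q) := by
  simp only [HasD] at *
  rw [Derivation.leibniz, h, h', smul_add, smul_add, smul_smul, smul_smul, smul_smul, smul_smul,
    add_smul, add_smul]
  abel

theorem HasD.inv {a p q : K} (h : HasD η θ a p q) :
    HasD η θ a⁻¹ (-(a ^ 2)⁻¹ * p) (-(a ^ 2)⁻¹ * q) := by
  simp only [HasD] at *
  rw [Derivation.leibniz_inv, h, smul_add, smul_smul, smul_smul]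
  congr 2 <;> ring

theorem HasD.div {a b p q p' q' : K} (h : HasD η θ a p q) (h' : HasD η θ b p' q') (hb : b ≠ 0) :
    HasD η θ (a / b) ((b * p - a * p') / b ^ 2) ((b * q - a * q') / b ^ 2) := by
  have := h.mul h'.inv
  rw [← div_eq_mul_inv] at this
  convert this using 1 <;> field_simp <;> ring

theorem HasD.congr {a p q p' q' : K} (h : HasD η θ a p q) (hp : p = p') (hq : q = q') :
    HasD η θ a p' q' := hp ▸ hq ▸ h

theorem wedge_eq {a b p q p' q' : K} (h : HasD η θ a p q) (h' : HasD η θ b p' q') :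
    wedge a b = (p * q' - q * p') • exteriorPower.ιMulti K 2 ![η, θ] := by
  simp only [HasD] at *
  rw [wedge, h, h']
  have u1 : ∀ (u v w : Ω[K⁄ℂ]), Function.update ![u, v] 1 w = ![u, w] := by
    intro u v w; ext i; fin_cases i <;> simp
  have u0 : ∀ (u v w : Ω[K⁄ℂ]), Function.update ![v, u] 0 w = ![w, u] := by
    intro u v w; ext i; fin_cases i <;> simp
  have e1 : ∀ (u v v' : Ω[K⁄ℂ]), exteriorPower.ιMulti K 2 ![u, v + v'] =
      exteriorPower.ιMulti K 2 ![u, v] + exteriorPower.ιMulti K 2 ![u, v'] := by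
    intro u v v'
    have := (exteriorPower.ιMulti K 2 (M := Ω[K⁄ℂ])).map_update_add ![u, v] 1 v v'
    rwa [u1, u1, u1] at this
  have e2 : ∀ (u v v' : Ω[K⁄ℂ]), exteriorPower.ιMulti K 2 ![v + v', u] =
      exteriorPower.ιMulti K 2 ![v, u] + exteriorPower.ιMulti K 2 ![v', u] := by
    intro u v v'
    have := (exteriorPower.ιMulti K 2 (M := Ω[K⁄ℂ])).map_update_add ![v, u] 0 v v'
    rwa [u0, u0, u0] at this
  have e3 : ∀ (c : K) (u v : Ω[K⁄ℂ]), exteriorPower.ιMulti K 2 ![u, c • v] =
      c • exteriorPower.ιMulti K 2 ![u, v] := by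
    intro c u v
    have := (exteriorPower.ιMulti K 2 (M := Ω[K⁄ℂ])).map_update_smul ![u, v] 1 c v
    rwa [u1, u1] at this
  have e4 : ∀ (c : K) (u v : Ω[K⁄ℂ]), exteriorPower.ιMulti K 2 ![c • u, v] =
      c • exteriorPower.ιMulti K 2 ![u, v] := by
    intro c u v
    have := (exteriorPower.ιMulti K 2 (M := Ω[K⁄ℂ])).map_update_smul ![u, v] 0 c u
    rwa [u0, u0] at this
  have e5 : ∀ (u : Ω[K⁄ℂ]), exteriorPower.ιMulti K 2 ![u, u] = 0 := by
    intro u
    exact (exteriorPower.ιMulti K 2 (M := Ω[K⁄ℂ])).map_eq_zero_of_eq _ (i := 0) (j := 1) rfl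
      (by decide)
  have e6 : exteriorPower.ιMulti K 2 ![θ, η] = - exteriorPower.ιMulti K 2 ![η, θ] := by
    have := e5 (η + θ)
    rw [e1, e2, e2, e5, e5, zero_add, add_zero] at this
    exact eq_neg_of_add_eq_zero_left this
  rw [e1, e2, e2, e3, e3, e4, e4, e3, e3, e4, e4, e5, e5, e6]
  simp only [smul_zero, smul_neg, smul_smul, zero_add, add_zero]
  rw [mul_comm q' p, mul_comm p' q]
  have h7 := sub_smul (p * q') (q * p') (exteriorPower.ιMulti K 2 ![η, θ])
  refine Eq.trans ?_ h7.symm
  abel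

/-- The reference form expressed through a pair with nonzero Jacobian. -/
theorem omega_eq {a b p q p' q' : K} (h : HasD η θ a p q) (h' : HasD η θ b p' q')
    (hJ : p * q' - q * p' ≠ 0) :
    exteriorPower.ιMulti K 2 ![η, θ] = (p * q' - q * p')⁻¹ • wedge a b := by
  rw [wedge_eq h h', smul_smul, inv_mul_cancel₀ hJ, one_smul]

end Pool.Agent.CanonDeg
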