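import Mathlib
import Pool.Agent.CanonDeg.Defs
import Pool.Agent.CanonDeg.Spec
import Pool.Agent.CanonDeg.Wedge

/-!
# Local analysis of the surface
-/

open MvPolynomial

namespace Pool.Agent.CanonDeg

variable {ι : Type} [Fintype ι] {K : Type} [Field K] [Algebra ℂ K]

/-- `q` is regular at `α` with value `c`, and `q - c` lies in the ideal generated by `a, b`. -/
def Cg (X : ProjVariety ι K) (α : ι → ℂ) (a b q : K) (c : ℂ) : Prop :=
  SpecTo X.coord α q c ∧ ∃ r s, X.RegularAt α r ∧ X.RegularAt α s ∧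
    q - algebraMap ℂ K c = r * a + s * b

variable {X : ProjVariety ι K} {α : ι → ℂ} {a b : K}

theorem Cg.const (c : ℂ) : Cg X α a b (algebraMap ℂ K c) c := by
  refine ⟨by simpa using SpecTo.const (x := X.coord) (y := α) c, 0, 0, ⟨0, SpecTo.zero⟩,
    ⟨0, SpecTo.zero⟩, by simp⟩

theorem Cg.zero : Cg X α a b 0 0 := by simpa using Cg.const (X := X) (α := α) (a := a) (b := b) 0

theorem Cg.one : Cg X α a b 1 1 := by simpa using Cg.const (X := X) (α := α) (a := a) (b := b) 1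

theorem Cg.ofNat (n : ℕ) [n.AtLeastTwo] : Cg X α a b (OfNat.ofNat n) (OfNat.ofNat n) := by
  have := Cg.const (X := X) (α := α) (a := a) (b := b) (OfNat.ofNat n)
  rwa [map_ofNat] at this

theorem Cg.add {q q' : K} {c c' : ℂ} (h : Cg X α a b q c) (h' : Cg X α a b q' c') :
    Cg X α a b (q + q') (c + c') := by
  obtain ⟨h1, r, s, ⟨c1, hr⟩, ⟨c2, hs⟩, h2⟩ := h
  obtain ⟨h1', r', s', ⟨c1', hr'⟩, ⟨c2', hs'⟩, h2'⟩ := h'
  refine ⟨h1.add h1', r + r', s + s', ⟨_, hr.add hr'⟩, ⟨_, hs.add hs'⟩, ?_⟩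
  simp only [map_add]
  linear_combination h2 + h2'

theorem Cg.mul {q q' : K} {c c' : ℂ} (h : Cg X α a b q c) (h' : Cg X α a b q' c') :
    Cg X α a b (q * q') (c * c') := by
  obtain ⟨h1, r, s, ⟨c1, hr⟩, ⟨c2, hs⟩, h2⟩ := h
  obtain ⟨h1', r', s', ⟨c1', hr'⟩, ⟨c2', hs'⟩, h2'⟩ := h'
  refine ⟨h1.mul h1', r * q' + algebraMap ℂ K c * r', s * q' + algebraMap ℂ K c * s',
    ⟨_, (hr.mul h1').add ((SpecTo.const _).mul hr')⟩,
    ⟨_, (hs.mul h1').add ((SpecTo.const _).mul hs')⟩, ?_⟩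
  simp only [map_mul]
  linear_combination q' * h2 + algebraMap ℂ K c * h2'

theorem Cg.neg {q : K} {c : ℂ} (h : Cg X α a b q c) : Cg X α a b (-q) (-c) := by
  simpa using (Cg.const (X := X) (α := α) (a := a) (b := b) (-1)).mul h

theorem Cg.sub {q q' : K} {c c' : ℂ} (h : Cg X α a b q c) (h' : Cg X α a b q' c') :
    Cg X α a b (q - q') (c - c') := by
  simpa [sub_eq_add_neg] using h.add h'.neg

theorem Cg.pow {q : K} {c : ℂ} (h : Cg X α a b q c) (n : ℕ) : Cg X α a b (q ^ n) (c ^ n) := by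
  induction n with
  | zero => simpa using Cg.one
  | succ n ih => rw [pow_succ, pow_succ]; exact ih.mul h

theorem Cg.inv {q : K} {c : ℂ} (h : Cg X α a b q c) (hq : q ≠ 0) (hc : c ≠ 0) :
    Cg X α a b q⁻¹ c⁻¹ := by
  obtain ⟨h1, r, s, ⟨c1, hr⟩, ⟨c2, hs⟩, h2⟩ := h
  have h3 := h1.inv hq hc
  refine ⟨h3, -(algebraMap ℂ K c⁻¹) * q⁻¹ * r, -(algebraMap ℂ K c⁻¹) * q⁻¹ * s,
    ⟨_, (((SpecTo.const c⁻¹).neg.mul h3).mul hr)⟩, ⟨_, (((SpecTo.const c⁻¹).neg.mul h3).mul hs)⟩, ?_⟩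
  have hc' : algebraMap ℂ K c ≠ 0 := by simpa using hc
  rw [map_inv₀]
  field_simp
  linear_combination -h2

theorem Cg.div {q q' : K} {c c' : ℂ} (h : Cg X α a b q c) (h' : Cg X α a b q' c')
    (hq : q' ≠ 0) (hc : c' ≠ 0) : Cg X α a b (q / q') (c / c') := by
  simpa [div_eq_mul_inv] using h.mul (h'.inv hq hc)

theorem Cg.mul_reg {q r : K} {c : ℂ} (h : Cg X α a b q 0) (hr : SpecTo X.coord α r c) :
    Cg X α a b (q * r) 0 := by
  obtain ⟨h1, r1, s, ⟨c1, hr1⟩, ⟨c2, hs⟩, h2⟩ := h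
  refine ⟨by simpa using h1.mul hr, r1 * r, s * r, ⟨_, hr1.mul hr⟩, ⟨_, hs.mul hr⟩, ?_⟩
  simp only [map_zero, sub_zero] at *
  rw [h2]; ring

theorem Cg.of_sub {q : K} {c : ℂ} (h : Cg X α a b (q - algebraMap ℂ K c) 0) :
    Cg X α a b q c := by
  simpa using h.add (Cg.const (X := X) (α := α) (a := a) (b := b) c)

theorem Cg.to_sub {q : K} {c : ℂ} (h : Cg X α a b q c) :
    Cg X α a b (q - algebraMap ℂ K c) 0 := by
  simpa using h.sub (Cg.const (X := X) (α := α) (a := a) (b := b) c)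

theorem Cg.left (ha : X.VanishesAt α a) : Cg X α a b a 0 :=
  ⟨ha, 1, 0, ⟨1, SpecTo.one⟩, ⟨0, SpecTo.zero⟩, by simp⟩

theorem Cg.right (hb : X.VanishesAt α b) : Cg X α a b b 0 :=
  ⟨hb, 0, 1, ⟨0, SpecTo.zero⟩, ⟨1, SpecTo.one⟩, by simp⟩

theorem Cg.congr {q q' : K} {c c' : ℂ} (h : Cg X α a b q c) (hq : q = q') (hc : c = c') :
    Cg X α a b q' c' := hq ▸ hc ▸ h

theorem SpecTo.congr {ι K M : Type} [Field K] [Algebra ℂ K] [Field M] [Algebra ℂ M]
    {x : ι → K} {y : ι → M} {q q' : K} {c c' : M} (h : SpecTo x y q c) (hq : q = q')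
    (hc : c = c') : SpecTo x y q' c' := hq ▸ hc ▸ h

theorem isLocalParameters_of_Cg (ha : X.VanishesAt α a)
    (hb : X.VanishesAt α b) (j : ι) (hj : α j ≠ 0) (hxj : X.coord j ≠ 0)
    (H : ∀ i, Cg X α a b (X.coord i / X.coord j) (α i / α j)) :
    X.IsLocalParameters α a b :=
  isLocalParameters_of ha hb j hj hxj fun i => (H i).2

/-- `q` is a unit at `α`. -/
def UnitAt (X : ProjVariety ι K) (α : ι → ℂ) (q : K) : Prop :=
  ∃ c : ℂ, c ≠ 0 ∧ SpecTo X.coord α q c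

/-- Data of one factor (elliptic curve or line): a parameter `u` on which coordinate functions
depend, its derivative `κ` along the reference form, a function `h` with derivative `h'` which
is either a unit, or `u` times a unit, or the inverse of such a function. -/
structure Fac {J : Type} (X : ProjVariety ι K) (α : ι → ℂ) (D : K → K → Prop)
    (coords : J → K) (vals : J → ℂ) (u κ h h' : K) : Prop where
  van : X.VanishesAt α u
  coo : ∀ a b, Cg X α a b u 0 → ∀ i, Cg X α a b (coords i) (vals i)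
  ne : h ≠ 0
  dne : κ ≠ 0
  du : D u κ
  dh : D h h'
  out : (∃ c : ℂ, c ≠ 0 ∧ ∀ a b, Cg X α a b u 0 → Cg X α a b h c) ∨
    (∃ ε, ε ≠ 0 ∧ UnitAt X α ε ∧ h = u * ε ∧ h' ≠ 0 ∧ UnitAt X α (h' / κ)) ∨
    (∃ ε, ε ≠ 0 ∧ UnitAt X α ε ∧ h⁻¹ = u * ε ∧ -h' / h ^ 2 ≠ 0 ∧ UnitAt X α (-h' / h ^ 2 / κ))

theorem Fac.swap {J : Type} {D : K → K → Prop} {coords : J → K} {vals : J → ℂ} {u κ h h' : K}
    (hD : D h⁻¹ (-h' / h ^ 2))
    (H : Fac X α D coords vals u κ h h') : Fac X α D coords vals u κ h⁻¹ (-h' / h ^ 2) := by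
  refine ⟨H.van, H.coo, inv_ne_zero H.ne, H.dne, H.du, hD, ?_⟩
  rcases H.out with ⟨c, hc, h1⟩ | h2 | h3
  · exact Or.inl ⟨c⁻¹, inv_ne_zero hc, fun a b hab => (h1 a b hab).inv H.ne hc⟩
  · right; right
    obtain ⟨ε, h4, h5, h6, h7, h8⟩ := h2
    have e : -(-h' / h ^ 2) / h⁻¹ ^ 2 = h' := by
      have := H.ne
      field_simp
    exact ⟨ε, h4, h5, by rw [inv_inv]; exact h6, by rw [e]; exact h7, by rw [e]; exact h8⟩
  · right; left
    exact h3

theorem UnitAt.ne_zero (hX : ∀ (d : ℕ) (F : MvPolynomial ι ℂ), F.IsHomogeneous d →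
    aeval X.coord F = 0 → aeval α F = 0) {q : K} (h : UnitAt X α q) : q ≠ 0 := by
  obtain ⟨c, hc, h1⟩ := h
  exact SpecTo.unit_ne_zero hX h1 hc

theorem UnitAt.inv (hX : ∀ (d : ℕ) (F : MvPolynomial ι ℂ), F.IsHomogeneous d →
    aeval X.coord F = 0 → aeval α F = 0) {q : K} (h : UnitAt X α q) : UnitAt X α q⁻¹ := by
  have h0 := h.ne_zero hX
  obtain ⟨c, hc, h1⟩ := h
  exact ⟨c⁻¹, inv_ne_zero hc, h1.inv h0 hc⟩

theorem UnitAt.mul {q q' : K} (h : UnitAt X α q) (h' : UnitAt X α q') : UnitAt X α (q * q') := by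
  obtain ⟨c, hc, h1⟩ := h
  obtain ⟨c', hc', h1'⟩ := h'
  exact ⟨c * c', mul_ne_zero hc hc', h1.mul h1'⟩

theorem UnitAt.neg {q : K} (h : UnitAt X α q) : UnitAt X α (-q) := by
  obtain ⟨c, hc, h1⟩ := h
  exact ⟨-c, neg_ne_zero.mpr hc, h1.neg⟩

/-- The basic local structure of the surface `{h(P) = τ g(w)}`. -/
theorem local_main {I J : Type} {η θ : Ω[K⁄ℂ]}
    {ec : I → K} {ev : I → ℂ} {wc : J → K} {wv : J → ℂ} {u κ h h' m ν g g' τ : K} {δ : ℂ}
    (HE : Fac X α (fun q p => HasD η θ q p 0) ec ev u κ h h')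
    (HW : Fac X α (fun q p => HasD η θ q 0 p) wc wv m ν g g')
    (hκ : UnitAt X α κ)
    (hX : ∀ (d : ℕ) (F : MvPolynomial ι ℂ), F.IsHomogeneous d → aeval X.coord F = 0 →
      aeval α F = 0)
    (hτ : τ = h / g) (hτδ : SpecTo X.coord α τ δ)
    (crit : ∀ a b, X.VanishesAt α a → X.VanishesAt α b → (∀ i, Cg X α a b (ec i) (ev i)) →
      (∀ j, Cg X α a b (wc j) (wv j)) → Cg X α a b τ δ → X.IsLocalParameters α a b) :
    ∃ a b v q : K, X.IsLocalParameters α a b ∧ UnitAt X α v ∧ v ≠ 0 ∧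
      exteriorPower.ιMulti K 2 ![η, θ] = (ν⁻¹ * v * q) • wedge a b ∧
      ((q = 1 ∧ ((X.RegularAt α h ∧ X.RegularAt α g⁻¹))) ∨
       (q = g ∧ X.VanishesAt α h ∧ X.VanishesAt α g) ∨
       (q = h⁻¹ ∧ X.VanishesAt α h⁻¹ ∧ X.VanishesAt α g⁻¹)) := by
  have hh := HE.ne
  have hg := HW.ne
  have hν := HW.dne
  have hκ0 := HE.dne
  have hHD : HasD η θ τ (h' / g) (-(h * g') / g ^ 2) := by
    rw [hτ]
    exact (HE.dh.div HW.dh hg).congr (by field_simp; ring) (by ring)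
  have hHDδ : HasD η θ (τ - algebraMap ℂ K δ) (h' / g) (-(h * g') / g ^ 2) := hHD.sub_const δ
  have hvanτ : X.VanishesAt α (τ - algebraMap ℂ K δ) := by
    have := hτδ.sub (SpecTo.const (x := X.coord) (y := α) δ)
    exact this.congr rfl (by simp)
  -- case 1
  have case1 : (∃ c, ∀ a b, Cg X α a b u 0 → Cg X α a b h c) →
      (∃ c, ∀ a b, Cg X α a b m 0 → Cg X α a b g⁻¹ c) → ∃ a b v q : K,
      X.IsLocalParameters α a b ∧ UnitAt X α v ∧ v ≠ 0 ∧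
      exteriorPower.ιMulti K 2 ![η, θ] = (ν⁻¹ * v * q) • wedge a b ∧
      ((q = 1 ∧ ((X.RegularAt α h ∧ X.RegularAt α g⁻¹))) ∨
       (q = g ∧ X.VanishesAt α h ∧ X.VanishesAt α g) ∨
       (q = h⁻¹ ∧ X.VanishesAt α h⁻¹ ∧ X.VanishesAt α g⁻¹)) := by
    rintro ⟨c, hc⟩ ⟨c', hc'⟩
    have hu : Cg X α u m u 0 := Cg.left HE.van
    have hm : Cg X α u m m 0 := Cg.right HW.van
    have h1 := (hc u m hu).mul (hc' u m hm)
    have h2 : h * g⁻¹ = τ := by rw [hτ]; field_simp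
    rw [h2] at h1
    have h3 : c * c' = δ := SpecTo.unique hX h1.1 hτδ
    rw [h3] at h1
    refine ⟨u, m, κ⁻¹, 1, crit u m HE.van HW.van (HE.coo u m hu) (HW.coo u m hm) h1, hκ.inv hX,
      inv_ne_zero hκ0, ?_, Or.inl ⟨rfl, ⟨c, (hc u m hu).1⟩, ⟨c', (hc' u m hm).1⟩⟩⟩
    rw [wedge_eq HE.du HW.du, smul_smul]
    have : ν⁻¹ * κ⁻¹ * 1 * (κ * ν - 0 * 0) = 1 := by field_simp; ring
    rw [this, one_smul]
  rcases HW.out with ⟨cg, hcg, hgC⟩ | ⟨εg, hεg0, hεg, hgm, hg'0, hg'u⟩ | ⟨εg, hεg0, hεg, hgm, hg'0, hg'u⟩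
  · -- `g` is a unit
    have hgi : ∃ c, ∀ a b, Cg X α a b m 0 → Cg X α a b g⁻¹ c :=
      ⟨cg⁻¹, fun a b hab => (hgC a b hab).inv hg hcg⟩
    rcases HE.out with ⟨ch, hch, hhC⟩ | ⟨εh, hεh0, hεh, hhu, hh'0, hh'u⟩ |
      ⟨εh, hεh0, hεh, hhu, hh'0, hh'u⟩
    · exact case1 ⟨ch, hhC⟩ hgi
    · refine case1 ⟨0, fun a b hab => ?_⟩ hgi
      obtain ⟨c, hc, hs⟩ := hεh
      rw [hhu]
      exact hab.mul_reg hs
    · -- impossible
      exfalso
      obtain ⟨c, hc, hs⟩ := hεh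
      have h1 : SpecTo X.coord α h⁻¹ 0 := by
        rw [hhu]; simpa using SpecTo.mul HE.van hs
      have h2 : SpecTo X.coord α (τ * h⁻¹) 0 := by simpa using hτδ.mul h1
      have h3 : τ * h⁻¹ = g⁻¹ := by rw [hτ]; field_simp
      rw [h3] at h2
      have h4 := ((hgC u m (Cg.right HW.van)).inv hg hcg).1
      exact inv_ne_zero hcg (SpecTo.unique hX h4 h2)
  · -- `g` vanishes
    obtain ⟨cε, hcε, hsε⟩ := hεg
    have hg0 : SpecTo X.coord α g 0 := by rw [hgm]; simpa using SpecTo.mul HW.van hsε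
    have hh0 : SpecTo X.coord α h 0 := by
      have : h = τ * g := by rw [hτ]; field_simp
      rw [this]; simpa using hτδ.mul hg0
    rcases HE.out with ⟨ch, hch, hhC⟩ | ⟨εh, hεh0, hεh, hhu, hh'0, hh'u⟩ |
      ⟨εh, hεh0, hεh, hhu, hh'0, hh'u⟩
    · exact absurd (SpecTo.unique hX (hhC u m (Cg.left HE.van)).1 hh0) hch
    · obtain ⟨ce, hce, hse⟩ := hεh
      set a := τ - algebraMap ℂ K δ with ha
      have hm : Cg X α a m m 0 := Cg.right HW.van
      have hu : Cg X α a m u 0 := by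
        have h1 : u = m * (εg * τ / εh) := by
          have : u = h / εh := by rw [hhu]; field_simp
          rw [this, show h = τ * g by rw [hτ]; field_simp, hgm]
          ring
        rw [h1]
        exact hm.mul_reg ((hsε.mul hτδ).div hse hεh0 hce)
      have hτC : Cg X α a m τ δ := Cg.of_sub (Cg.left hvanτ)
      have hh'U : UnitAt X α h' := by
        have : h' = h' / κ * κ := by field_simp
        rw [this]; exact hh'u.mul hκ
      refine ⟨a, m, h'⁻¹, g, crit a m hvanτ HW.van (HE.coo a m hu) (HW.coo a m hm) hτC,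
        hh'U.inv hX, inv_ne_zero hh'0, ?_, Or.inr (Or.inl ⟨rfl, hh0, hg0⟩)⟩
      rw [wedge_eq hHDδ HW.du, smul_smul]
      have : ν⁻¹ * h'⁻¹ * g * (h' / g * ν - -(h * g') / g ^ 2 * 0) = 1 := by
        field_simp; ring
      rw [this, one_smul]
    · exfalso
      obtain ⟨c, hc, hs⟩ := hεh
      have h1 : SpecTo X.coord α h⁻¹ 0 := by
        rw [hhu]; simpa using SpecTo.mul HE.van hs
      have h2 : SpecTo X.coord α (h * h⁻¹) 0 := by simpa using hh0.mul h1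
      rw [mul_inv_cancel₀ hh] at h2
      exact one_ne_zero (SpecTo.unique hX SpecTo.one h2)
  · -- `g` has a pole
    obtain ⟨cε, hcε, hsε⟩ := hεg
    have hgi : ∃ c, ∀ a b, Cg X α a b m 0 → Cg X α a b g⁻¹ c :=
      ⟨0, fun a b hab => by rw [hgm]; exact hab.mul_reg hsε⟩
    rcases HE.out with ⟨ch, hch, hhC⟩ | ⟨εh, hεh0, hεh, hhu, hh'0, hh'u⟩ |
      ⟨εh, hεh0, hεh, hhu, hh'0, hh'u⟩
    · exact case1 ⟨ch, hhC⟩ hgi
    · refine case1 ⟨0, fun a b hab => ?_⟩ hgi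
      obtain ⟨c, hc, hs⟩ := hεh
      rw [hhu]
      exact hab.mul_reg hs
    · obtain ⟨ce, hce, hse⟩ := hεh
      set a := τ - algebraMap ℂ K δ with ha
      have hgi0 : SpecTo X.coord α g⁻¹ 0 := by rw [hgm]; simpa using SpecTo.mul HW.van hsε
      have hhi0 : SpecTo X.coord α h⁻¹ 0 := by rw [hhu]; simpa using SpecTo.mul HE.van hse
      have hu : Cg X α a u u 0 := Cg.right HE.van
      have hm : Cg X α a u m 0 := by
        have h1 : m = u * (εh * τ / εg) := by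
          have : m = g⁻¹ / εg := by rw [hgm]; field_simp
          rw [this, show g⁻¹ = τ * h⁻¹ by rw [hτ]; field_simp, hhu]
          ring
        rw [h1]
        exact hu.mul_reg ((hse.mul hτδ).div hsε hεg0 hcε)
      have hτC : Cg X α a u τ δ := Cg.of_sub (Cg.left hvanτ)
      have hg'0' : g' ≠ 0 := by
        intro h; apply hg'0; rw [h]; simp
      refine ⟨a, u, -(κ⁻¹ * (-g' / g ^ 2 / ν)⁻¹), h⁻¹,
        crit a u hvanτ HE.van (HE.coo a u hu) (HW.coo a u hm) hτC,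
        ((hκ.inv hX).mul (hg'u.inv hX)).neg, ?_, ?_, Or.inr (Or.inr ⟨rfl, hhi0, hgi0⟩)⟩
      · apply neg_ne_zero.mpr
        apply mul_ne_zero (inv_ne_zero hκ0)
        apply inv_ne_zero
        exact div_ne_zero hg'0 hν
      · rw [wedge_eq hHDδ HE.du, smul_smul]
        have : ν⁻¹ * -(κ⁻¹ * (-g' / g ^ 2 / ν)⁻¹) * h⁻¹ * (h' / g * 0 - -(h * g') / g ^ 2 * κ) = 1 := by
          field_simp; ring
        rw [this, one_smul]

end Pool.Agent.CanonDeg
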