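import Mathlib
import Pool.Agent.CanonDeg.Defs
import Pool.Agent.CanonDeg.Spec
import Pool.Agent.CanonDeg.Local
import Pool.Agent.CanonDeg.EllField
import Pool.Agent.CanonDeg.EllWp
import Pool.Agent.CanonDeg.EllPlaces

/-!
# Centers of places of the field of elliptic functions
-/

open MvPolynomial PeriodPair

namespace Pool.Agent.CanonDeg

variable {Λ : PeriodPair}

/-- `x` has the value `c` at `z`. -/
def Val (z : ℂ) (x : Ell Λ) (c : ℂ) : Prop := 0 < Ell.ord z (x - algebraMap ℂ (Ell Λ) c)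

theorem Val.const (z c : ℂ) : Val z (algebraMap ℂ (Ell Λ) c) c := by
  simp [Val]

theorem Val.nonneg {z : ℂ} {x : Ell Λ} {c : ℂ} (h : Val z x c) : 0 ≤ Ell.ord z x :=
  Ell.ord_nonneg_of_value h

theorem Val.add {z : ℂ} {x y : Ell Λ} {c d : ℂ} (h : Val z x c) (h' : Val z y d) :
    Val z (x + y) (c + d) := by
  have : x + y - algebraMap ℂ (Ell Λ) (c + d) = (x - algebraMap ℂ (Ell Λ) c) +
      (y - algebraMap ℂ (Ell Λ) d) := by rw [map_add]; ring
  rw [Val, this]
  exact lt_of_lt_of_le (lt_min h h') (Ell.ord_add z _ _)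

theorem Val.mul {z : ℂ} {x y : Ell Λ} {c d : ℂ} (h : Val z x c) (h' : Val z y d) :
    Val z (x * y) (c * d) := by
  have : x * y - algebraMap ℂ (Ell Λ) (c * d) = (x - algebraMap ℂ (Ell Λ) c) * y +
      algebraMap ℂ (Ell Λ) c * (y - algebraMap ℂ (Ell Λ) d) := by rw [map_mul]; ring
  rw [Val, this]
  refine lt_of_lt_of_le (lt_min ?_ ?_) (Ell.ord_add z _ _)
  · rw [Ell.ord_mul]
    exact lt_of_lt_of_le h (le_add_of_nonneg_right h'.nonneg)
  · rw [Ell.ord_mul]
    exact lt_of_lt_of_le h' (le_add_of_nonneg_left (Ell.ord_algebraMap_nonneg z c))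

theorem Val.unique {z : ℂ} {x : Ell Λ} {c d : ℂ} (h : Val z x c) (h' : Val z x d) : c = d :=
  Ell.value_unique z h h'

theorem Val.ne_zero {z : ℂ} {x : Ell Λ} {c : ℂ} (h : Val z x c) (hc : c ≠ 0) : x ≠ 0 := by
  rintro rfl
  apply hc
  have h0 : Val z (0 : Ell Λ) 0 := by simp [Val]
  exact h.unique h0

theorem Val.ord_eq_zero {z : ℂ} {x : Ell Λ} {c : ℂ} (h : Val z x c) (hc : c ≠ 0) :
    Ell.ordZ z x = 0 := by
  have h1 := Ell.ord_sub_eq_zero_of_value (z := z) (x := x) (c := c) (c' := 0) hc h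
  have h2 : Ell.ord z x = (0 : ℤ) := by simpa using h1
  exact Ell.ordZ_eq h2

theorem Val.inv {z : ℂ} {x : Ell Λ} {c : ℂ} (h : Val z x c) (hc : c ≠ 0) : Val z x⁻¹ c⁻¹ := by
  have hx := h.ne_zero hc
  have hc' : algebraMap ℂ (Ell Λ) c ≠ 0 := by simpa using hc
  have e : x⁻¹ - algebraMap ℂ (Ell Λ) c⁻¹ =
      (algebraMap ℂ (Ell Λ) (-c⁻¹)) * ((x - algebraMap ℂ (Ell Λ) c) * x⁻¹) := by
    rw [map_neg, map_inv₀]
    field_simp
    ring
  rw [Val, e, Ell.ord_mul, Ell.ord_mul]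
  have h1 : Ell.ord z x⁻¹ = 0 := by
    have := h.ord_eq_zero hc
    rw [← Ell.coe_ordZ z (inv_ne_zero hx), Ell.ordZ_inv, this]
    simp
  rw [h1, add_zero]
  exact lt_of_lt_of_le h (le_add_of_nonneg_left (Ell.ord_algebraMap_nonneg z _))

theorem Val.div {z : ℂ} {x y : Ell Λ} {c d : ℂ} (h : Val z x c) (h' : Val z y d) (hd : d ≠ 0) :
    Val z (x / y) (c / d) := by
  rw [div_eq_mul_inv, div_eq_mul_inv]
  exact h.mul (h'.inv hd)

theorem Val.aeval {ι : Type} {z : ℂ} {u : ι → Ell Λ} {a : ι → ℂ} (h : ∀ i, Val z (u i) (a i))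
    (p : MvPolynomial ι ℂ) : Val z (aeval u p) (aeval a p) := by
  induction p using MvPolynomial.induction_on with
  | C c => simpa using Val.const z c
  | add p q hp hq => simpa using hp.add hq
  | mul_X p i hp => simpa using hp.mul (h i)

section Center

variable {ι : Type} [Fintype ι] {K : Type} [Field K] [Algebra ℂ K] {X : ProjVariety ι K}
  {C : ProjVariety ι (Ell Λ)}

theorem exists_center (C : ProjVariety ι (Ell Λ)) (z : ℂ) : ∃ (α : ι → ℂ) (j : ι), α j = 1 ∧
    C.coord j ≠ 0 ∧ ∀ i, Val z (C.coord i / C.coord j) (α i) := by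
  classical
  obtain ⟨j₀, hj₀⟩ := Function.ne_iff.mp C.ne_zero
  have hj₀' : C.coord j₀ ≠ 0 := hj₀
  obtain ⟨j, hj, hmin⟩ := Finset.exists_min_image (Finset.univ.filter fun i => C.coord i ≠ 0)
    (fun i => Ell.ordZ z (C.coord i)) ⟨j₀, by simp [hj₀']⟩
  have hj : C.coord j ≠ 0 := by simpa using hj
  have h1 : ∀ i, ∃ c, Val z (C.coord i / C.coord j) c := by
    intro i
    apply Ell.exists_value
    by_cases hi : C.coord i = 0
    · rw [hi, zero_div]; simp
    · rw [← Ell.ordZ_nonneg_iff (div_ne_zero hi hj), Ell.ordZ_div z hi hj]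
      have := hmin i (by simp [hi])
      omega
  choose a ha using h1
  refine ⟨fun i => if i = j then 1 else a i, j, by simp, hj, fun i => ?_⟩
  by_cases hi : i = j
  · subst hi
    show Val z _ (if i = i then 1 else a i)
    rw [if_pos rfl, div_self hj]
    simpa using Val.const (Λ := Λ) z 1
  · show Val z _ (if i = j then 1 else a i)
    rw [if_neg hi]
    exact ha i

variable {z : ℂ} {α : ι → ℂ} {j : ι} (hα : α j = 1) (hj : C.coord j ≠ 0)
  (hv : ∀ i, Val z (C.coord i / C.coord j) (α i))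

include hα hj hv

theorem isCenter_of : IsCenter C (Ell.place z) α := by
  refine ⟨j, by rw [hα]; exact one_ne_zero, hj, fun i => ?_⟩
  rw [hα, div_one, Ell.mem_nonunits_place]
  exact hv i

omit hα hv in
theorem aeval_coord {d : ℕ} {P : MvPolynomial ι ℂ} (hP : P.IsHomogeneous d) :
    aeval C.coord P = C.coord j ^ d * aeval (fun i => C.coord i / C.coord j) P := by
  rw [← aeval_smul_of_isHomogeneous hP]
  congr 2
  ext i
  field_simp

omit hα in
theorem val_quot {d : ℕ} {F G : MvPolynomial ι ℂ} (hF : F.IsHomogeneous d) (hG : G.IsHomogeneous d)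
    (hG0 : aeval α G ≠ 0) : aeval C.coord G ≠ 0 ∧
      Val z (aeval C.coord F / aeval C.coord G) (aeval α F / aeval α G) := by
  have h1 := Val.aeval hv F
  have h2 := Val.aeval hv G
  have h3 := h2.ne_zero hG0
  refine ⟨?_, ?_⟩
  · rw [aeval_coord hj hG]
    exact mul_ne_zero (pow_ne_zero _ hj) h3
  · rw [aeval_coord hj hF, aeval_coord hj hG, mul_div_mul_left _ _ (pow_ne_zero _ hj)]
    exact h1.div h2 hG0

theorem isPoint_of (hC : ∀ (d : ℕ) (F : MvPolynomial ι ℂ), F.IsHomogeneous d →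
    aeval X.coord F = 0 → aeval C.coord F = 0) : X.IsPoint α := by
  refine ⟨fun h => ?_, fun d F hF h0 => ?_⟩
  · have := congrFun h j
    rw [hα] at this
    exact one_ne_zero this
  · have h1 := hC d F hF h0
    rw [aeval_coord hj hF] at h1
    have h2 := (mul_eq_zero.mp h1).resolve_left (pow_ne_zero _ hj)
    have h3 := Val.aeval hv F
    rw [h2] at h3
    have h4 : Val z (0 : Ell Λ) 0 := by simp [Val]
    exact h3.unique h4

omit hα in
theorem exists_spec {q : K} {c : ℂ} (h : SpecTo X.coord α q c) :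
    ∃ r, SpecTo X.coord C.coord q r ∧ Val z r c := by
  obtain ⟨d, F, G, hF, hG, hx, hy, rfl, rfl⟩ := h
  obtain ⟨h1, h2⟩ := val_quot hj hv hF hG hy
  exact ⟨_, ⟨d, F, G, hF, hG, hx, h1, rfl, rfl⟩, h2⟩

omit hα in
/-- The value at the center of a restriction. -/
theorem val_of_spec (hC : ∀ (d : ℕ) (F : MvPolynomial ι ℂ), F.IsHomogeneous d →
    aeval X.coord F = 0 → aeval C.coord F = 0) {q : K} {c : ℂ} {r : Ell Λ}
    (h : SpecTo X.coord α q c) (h' : SpecTo X.coord C.coord q r) : Val z r c := by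
  obtain ⟨r', h1, h2⟩ := exists_spec hj hv h
  rw [SpecTo.unique hC h' h1]
  exact h2

end Center

end Pool.Agent.CanonDeg
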