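import Mathlib
import Pool.Agent.CanonDeg.Defs
import Pool.Agent.CanonDeg.EllField
import Pool.Agent.CanonDeg.EllWp
import Pool.Agent.CanonDeg.EllPlaces

/-!
# The function `F_n(z) = f(nz)/f(z)` all of whose zeros, poles and `1`-points are torsion points
-/

open Filter Topology PeriodPair

namespace Pool.Agent.CanonDeg

namespace Ell

variable (Λ : PeriodPair)

/-- The point `ω₁/5`. -/
noncomputable def t₀ : ℂ := Λ.ω₁ / 5

/-- The point `2 ω₁/5`. -/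
noncomputable def t₁ : ℂ := 2 * Λ.ω₁ / 5

/-- The point `ω₂/5`. -/
noncomputable def s₀ : ℂ := Λ.ω₂ / 5

/-- The point `2 ω₂/5`. -/
noncomputable def s₁ : ℂ := 2 * Λ.ω₂ / 5

/-- The function with simple zeros at `± ω₁/5` and simple poles at `± 2ω₁/5`. -/
noncomputable def ff : Ell Λ :=
  (wp - algebraMap ℂ _ (℘[Λ] (t₀ Λ))) / (wp - algebraMap ℂ _ (℘[Λ] (t₁ Λ)))

/-- The function with simple zeros at `± ω₂/5` and simple poles at `± 2ω₂/5`. -/
noncomputable def hh : Ell Λ :=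
  (wp - algebraMap ℂ _ (℘[Λ] (s₀ Λ))) / (wp - algebraMap ℂ _ (℘[Λ] (s₁ Λ)))

/-- The function `F_n(z) = f(nz)/f(z)`. -/
noncomputable def FF (n : ℕ) (hn : (n : ℤ) ≠ 0) : Ell Λ := aff n hn 0 (ff Λ) / ff Λ

variable {Λ}

/-! ### The lattice -/

theorem indep_int {a b : ℤ} (h : (a : ℂ) * Λ.ω₁ + b * Λ.ω₂ = 0) : a = 0 ∧ b = 0 := by
  have := LinearIndependent.pair_iff.mp Λ.indep (a : ℝ) (b : ℝ) (by simpa using h)
  exact_mod_cast this

theorem dvd_of_mem₁ {p q : ℤ} {z : ℂ} (h : (q : ℂ) * z = p * Λ.ω₁) (hz : z ∈ Λ.lattice) :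
    q ∣ p := by
  obtain ⟨m, k, e⟩ := PeriodPair.mem_lattice.mp hz
  have := (indep_int (Λ := Λ) (a := q * m - p) (b := q * k)
    (by push_cast; linear_combination (q : ℂ) * e + h)).1
  exact ⟨m, by omega⟩

theorem dvd_of_mem₂ {p q : ℤ} {z : ℂ} (h : (q : ℂ) * z = p * Λ.ω₂) (hz : z ∈ Λ.lattice) :
    q ∣ p := by
  obtain ⟨m, k, e⟩ := PeriodPair.mem_lattice.mp hz
  have := (indep_int (Λ := Λ) (a := q * m) (b := q * k - p)
    (by push_cast; linear_combination (q : ℂ) * e + h)).2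
  exact ⟨k, by omega⟩

theorem intCast_mul_mem {z : ℂ} (m : ℤ) (hz : z ∈ Λ.lattice) : (m : ℂ) * z ∈ Λ.lattice := by
  have := Λ.lattice.smul_mem m hz
  simpa [zsmul_eq_mul] using this

/-- `w ≡ i ω₁ / 5` modulo the lattice. -/
def CC (w : ℂ) (i : ℤ) : Prop := w - (i : ℂ) * (Λ.ω₁ / 5) ∈ Λ.lattice

theorem CC_congr {w w' : ℂ} {i i' : ℤ} (h : CC (Λ := Λ) w i) (hw : w' = w) (hi : i' = i) :
    CC (Λ := Λ) w' i' := by
  rw [hw, hi]; exact h

theorem CC_excl {w : ℂ} {i j : ℤ} (h : CC (Λ := Λ) w i) (h' : CC (Λ := Λ) w j) : 5 ∣ i - j := by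
  have h1 := sub_mem h' h
  refine dvd_of_mem₁ (Λ := Λ) (p := i - j) (q := 5) ?_ h1
  push_cast
  ring

theorem CC_sub {w w' : ℂ} {i j : ℤ} (h : CC (Λ := Λ) w i) (h' : CC (Λ := Λ) w' j) :
    CC (Λ := Λ) (w - w') (i - j) := by
  have h1 := sub_mem h h'
  unfold CC
  convert h1 using 1
  push_cast
  ring

theorem CC_add {w w' : ℂ} {i j : ℤ} (h : CC (Λ := Λ) w i) (h' : CC (Λ := Λ) w' j) :
    CC (Λ := Λ) (w + w') (i + j) := by
  have h1 := add_mem h h'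
  unfold CC
  convert h1 using 1
  push_cast
  ring

theorem CC_mul {w : ℂ} {i : ℤ} (m : ℤ) (h : CC (Λ := Λ) w i) :
    CC (Λ := Λ) (m * w) (m * i) := by
  have h1 := intCast_mul_mem m h
  unfold CC
  convert h1 using 1
  push_cast
  ring

theorem CC_add_five_mul {w : ℂ} {i : ℤ} (m : ℤ) (h : CC (Λ := Λ) w (i + 5 * m)) :
    CC (Λ := Λ) w i := by
  have h1 := add_mem h (intCast_mul_mem m Λ.ω₁_mem_lattice)
  unfold CC
  convert h1 using 1
  push_cast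
  ring

theorem CC_zero {w : ℂ} : CC (Λ := Λ) w 0 ↔ w ∈ Λ.lattice := by
  simp [CC]

theorem CC_t₀_iff {z : ℂ} : z - t₀ Λ ∈ Λ.lattice ↔ CC (Λ := Λ) z 1 := by
  simp [CC, t₀]

theorem CC_neg_t₀_iff {z : ℂ} : z + t₀ Λ ∈ Λ.lattice ↔ CC (Λ := Λ) z (-1) := by
  simp [CC, t₀]

theorem CC_t₁_iff {z : ℂ} : z - t₁ Λ ∈ Λ.lattice ↔ CC (Λ := Λ) z 2 := by
  unfold CC t₁
  rw [show z - 2 * Λ.ω₁ / 5 = z - ((2 : ℤ) : ℂ) * (Λ.ω₁ / 5) by push_cast; ring]

theorem CC_neg_t₁_iff {z : ℂ} : z + t₁ Λ ∈ Λ.lattice ↔ CC (Λ := Λ) z (-2) := by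
  unfold CC t₁
  rw [show z + 2 * Λ.ω₁ / 5 = z - ((-2 : ℤ) : ℂ) * (Λ.ω₁ / 5) by push_cast; ring]

theorem two_t₀ : 2 * t₀ Λ ∉ Λ.lattice := by
  intro h
  have := dvd_of_mem₁ (Λ := Λ) (p := 2) (q := 5) (by unfold t₀; push_cast; ring) h
  omega

theorem two_t₁ : 2 * t₁ Λ ∉ Λ.lattice := by
  intro h
  have := dvd_of_mem₁ (Λ := Λ) (p := 4) (q := 5) (by unfold t₁; push_cast; ring) h
  omega

theorem two_s₀ : 2 * s₀ Λ ∉ Λ.lattice := by
  intro h
  have := dvd_of_mem₂ (Λ := Λ) (p := 2) (q := 5) (by unfold s₀; push_cast; ring) h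
  omega

theorem two_s₁ : 2 * s₁ Λ ∉ Λ.lattice := by
  intro h
  have := dvd_of_mem₂ (Λ := Λ) (p := 4) (q := 5) (by unfold s₁; push_cast; ring) h
  omega

/-! ### The functions `f`, `h` -/

open Classical in
theorem ordZ_wp_sub {t : ℂ} (ht : 2 * t ∉ Λ.lattice) (z : ℂ) :
    ordZ z ((wp : Ell Λ) - algebraMap ℂ (Ell Λ) (℘[Λ] t)) =
      if z ∈ Λ.lattice then -2 else if z - t ∈ Λ.lattice ∨ z + t ∈ Λ.lattice then 1 else 0 := by
  apply ordZ_eq
  rw [ord_wp_sub ht]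
  split_ifs <;> rfl

theorem notMem_of_two_mul {t : ℂ} (ht : 2 * t ∉ Λ.lattice) : t ∉ Λ.lattice := by
  intro h
  apply ht
  have := add_mem h h
  rwa [← two_mul] at this

open Classical in
theorem ordZ_quot {a b : ℂ} (ha : 2 * a ∉ Λ.lattice) (hb : 2 * b ∉ Λ.lattice) (z : ℂ) :
    ordZ z (((wp : Ell Λ) - algebraMap ℂ (Ell Λ) (℘[Λ] a)) /
      (wp - algebraMap ℂ (Ell Λ) (℘[Λ] b))) =
      (if z - a ∈ Λ.lattice ∨ z + a ∈ Λ.lattice then 1 else 0) -
      (if z - b ∈ Λ.lattice ∨ z + b ∈ Λ.lattice then 1 else 0) := by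
  rw [ordZ_div z (sub_ne_zero.mpr (wp_ne_algebraMap _)) (sub_ne_zero.mpr (wp_ne_algebraMap _)),
    ordZ_wp_sub ha, ordZ_wp_sub hb]
  by_cases hz : z ∈ Λ.lattice
  · have key : ∀ {c : ℂ}, 2 * c ∉ Λ.lattice → ¬ (z - c ∈ Λ.lattice ∨ z + c ∈ Λ.lattice) := by
      intro c hc h
      have hc' := notMem_of_two_mul hc
      rcases h with h | h
      · exact hc' (by simpa using sub_mem hz h)
      · exact hc' (by simpa using sub_mem h hz)
    rw [if_pos hz, if_pos hz, if_neg (key ha), if_neg (key hb)]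
    norm_num
  · rw [if_neg hz, if_neg hz]

theorem ff_ne_zero : ff Λ ≠ 0 :=
  div_ne_zero (sub_ne_zero.mpr (wp_ne_algebraMap _)) (sub_ne_zero.mpr (wp_ne_algebraMap _))

theorem hh_ne_zero : hh Λ ≠ 0 :=
  div_ne_zero (sub_ne_zero.mpr (wp_ne_algebraMap _)) (sub_ne_zero.mpr (wp_ne_algebraMap _))

open Classical in
theorem ordZ_ff (z : ℂ) : ordZ z (ff Λ) =
    (if z - t₀ Λ ∈ Λ.lattice ∨ z + t₀ Λ ∈ Λ.lattice then 1 else 0) -
    (if z - t₁ Λ ∈ Λ.lattice ∨ z + t₁ Λ ∈ Λ.lattice then 1 else 0) :=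
  ordZ_quot two_t₀ two_t₁ z

open Classical in
theorem ordZ_hh (z : ℂ) : ordZ z (hh Λ) =
    (if z - s₀ Λ ∈ Λ.lattice ∨ z + s₀ Λ ∈ Λ.lattice then 1 else 0) -
    (if z - s₁ Λ ∈ Λ.lattice ∨ z + s₁ Λ ∈ Λ.lattice then 1 else 0) :=
  ordZ_quot two_s₀ two_s₁ z

/-- `℘` is even. -/
theorem aff_neg_wp : aff (-1) (by norm_num) 0 (wp : Ell Λ) = wp := by
  have key : (fun z => ℘[Λ] (((-1 : ℤ) : ℂ) * z + 0)) = ℘[Λ] := by
    funext z
    rw [← Λ.weierstrassP_neg z]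
    congr 1
    push_cast
    ring
  have hs : Meromorphic (fun z => ℘[Λ] (((-1 : ℤ) : ℂ) * z + 0)) := by
    rw [key]; exact Λ.meromorphic_weierstrassP
  have hsp : ∀ l ∈ Λ.lattice, ∀ z, (fun z => ℘[Λ] (((-1 : ℤ) : ℂ) * z + 0)) (z + l) =
      (fun z => ℘[Λ] (((-1 : ℤ) : ℂ) * z + 0)) z := by
    rw [key]; exact fun l hl z => Λ.weierstrassP_add_coe z ⟨l, hl⟩
  rw [wp, aff_mk (hs := hs) (hsp := hsp), mk_eq_mk_iff, key]

theorem aff_neg_ff : aff (-1) (by norm_num) 0 (ff Λ) = ff Λ := by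
  rw [ff, map_div₀, map_sub, map_sub, aff_neg_wp, AlgHom.commutes, AlgHom.commutes]

theorem ord_neg_ff_sub (z : ℂ) (c : ℂ) : ord (-z) (ff Λ - algebraMap ℂ (Ell Λ) c) =
    ord z (ff Λ - algebraMap ℂ (Ell Λ) c) := by
  have h := ord_aff (Λ := Λ) (-1) (by norm_num) 0 z (ff Λ - algebraMap ℂ (Ell Λ) c)
  rw [map_sub, aff_neg_ff, AlgHom.commutes] at h
  rw [h]
  congr 1
  push_cast
  ring

/-! ### The function `F_n` -/

theorem aff_ff_ne_zero (n : ℕ) (hn : (n : ℤ) ≠ 0) : aff (Λ := Λ) n hn 0 (ff Λ) ≠ 0 := by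
  intro h
  apply ff_ne_zero (Λ := Λ)
  rw [← map_zero (aff (Λ := Λ) n hn 0)] at h
  exact (aff (Λ := Λ) n hn 0).injective h

theorem FF_ne_zero (n : ℕ) (hn : (n : ℤ) ≠ 0) : FF Λ n hn ≠ 0 :=
  div_ne_zero (aff_ff_ne_zero n hn) ff_ne_zero

theorem ordZ_aff (N : ℤ) (hN : N ≠ 0) (s : ℂ) (z : ℂ) (x : Ell Λ) :
    ordZ z (aff N hN s x) = ordZ (N * z + s) x := by
  rw [ordZ, ordZ, ord_aff]

theorem ordZ_FF_eq (n : ℕ) (hn : (n : ℤ) ≠ 0) (z : ℂ) :
    ordZ z (FF Λ n hn) = ordZ (n * z) (ff Λ) - ordZ z (ff Λ) := by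
  rw [FF, ordZ_div z (aff_ff_ne_zero n hn) ff_ne_zero, ordZ_aff]
  simp

theorem ordZ_ff_of_CC {z : ℂ} {i : ℤ} (h : CC (Λ := Λ) z i) : ordZ z (ff Λ) =
    (if 5 ∣ i - 1 ∨ 5 ∣ i + 1 then 1 else 0) - (if 5 ∣ i - 2 ∨ 5 ∣ i + 2 then 1 else 0) := by
  have key : ∀ j : ℤ, CC (Λ := Λ) z j ↔ 5 ∣ i - j := by
    intro j
    constructor
    · exact fun h' => CC_excl h h'
    · rintro ⟨m, hm⟩
      refine CC_add_five_mul m ?_
      rw [show j + 5 * m = i by omega]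
      exact h
  rw [ordZ_ff, CC_t₀_iff, CC_neg_t₀_iff, CC_t₁_iff, CC_neg_t₁_iff, key, key, key, key]
  simp only [sub_neg_eq_add]

theorem ordZ_ff_of_mem {z : ℂ} (h : z ∈ Λ.lattice) : ordZ z (ff Λ) = 0 := by
  rw [ordZ_ff_of_CC (CC_zero.mpr h)]
  norm_num

theorem ordZ_ff_ne_zero {z : ℂ} (h : ordZ z (ff Λ) ≠ 0) :
    CC (Λ := Λ) z 1 ∨ CC (Λ := Λ) z (-1) ∨ CC (Λ := Λ) z 2 ∨ CC (Λ := Λ) z (-2) := by
  by_contra hc
  push Not at hc
  obtain ⟨h1, h2, h3, h4⟩ := hc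
  apply h
  rw [ordZ_ff, CC_t₀_iff, CC_neg_t₀_iff, CC_t₁_iff, CC_neg_t₁_iff]
  simp [h1, h2, h3, h4]

theorem ordZ_ff_eq_one {z : ℂ} (h : ordZ z (ff Λ) = 1) : CC (Λ := Λ) z 1 ∨ CC (Λ := Λ) z (-1) := by
  rcases ordZ_ff_ne_zero (by rw [h]; norm_num) with h1 | h1 | h1 | h1
  · exact Or.inl h1
  · exact Or.inr h1
  · rw [ordZ_ff_of_CC h1] at h; norm_num at h
  · rw [ordZ_ff_of_CC h1] at h; norm_num at h

theorem ordZ_ff_eq_neg_one {z : ℂ} (h : ordZ z (ff Λ) = -1) :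
    CC (Λ := Λ) z 2 ∨ CC (Λ := Λ) z (-2) := by
  rcases ordZ_ff_ne_zero (by rw [h]; norm_num) with h1 | h1 | h1 | h1
  · rw [ordZ_ff_of_CC h1] at h; norm_num at h
  · rw [ordZ_ff_of_CC h1] at h; norm_num at h
  · exact Or.inl h1
  · exact Or.inr h1

theorem ordZ_ff_range (z : ℂ) : ordZ z (ff Λ) = -1 ∨ ordZ z (ff Λ) = 0 ∨ ordZ z (ff Λ) = 1 := by
  rw [ordZ_ff]
  split_ifs <;> norm_num

theorem mul_mem_of_CC {n : ℕ} (h10 : 10 ∣ n) {z : ℂ} {i : ℤ} (h : CC (Λ := Λ) z i) :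
    (n : ℂ) * z ∈ Λ.lattice := by
  obtain ⟨k, rfl⟩ := h10
  rw [← CC_zero]
  have h1 := CC_mul ((10 * k : ℕ) : ℤ) h
  have h2 : CC (Λ := Λ) (((10 * k : ℕ) : ℤ) * z) 0 := by
    refine CC_add_five_mul (2 * k * i) ?_
    convert h1 using 1
    push_cast
    ring
  simpa using h2

theorem ordZ_ff_mul_eq_zero {n : ℕ} (h10 : 10 ∣ n) {z : ℂ} (h : ordZ z (ff Λ) ≠ 0) :
    ordZ (n * z) (ff Λ) = 0 := by
  rcases ordZ_ff_ne_zero h with h1 | h1 | h1 | h1 <;>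
  exact ordZ_ff_of_mem (mul_mem_of_CC h10 h1)

/-- All zeros and poles of `F_n` are simple if `10 ∣ n`. -/
theorem ordZ_FF (n : ℕ) (hn : (n : ℤ) ≠ 0) (h10 : 10 ∣ n) (z : ℂ) :
    ordZ z (FF Λ n hn) = -1 ∨ ordZ z (FF Λ n hn) = 0 ∨ ordZ z (FF Λ n hn) = 1 := by
  rw [ordZ_FF_eq]
  by_cases h : ordZ z (ff Λ) = 0
  · rw [h]
    have := ordZ_ff_range (Λ := Λ) (n * z)
    omega
  · rw [ordZ_ff_mul_eq_zero h10 h]
    have := ordZ_ff_range (Λ := Λ) z
    omega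

theorem five_mul_mem_of_CC {z : ℂ} {i : ℤ} (h : CC (Λ := Λ) z i) :
    (5 : ℂ) * z ∈ Λ.lattice := by
  have h1 := CC_mul 5 h
  have h2 : CC (Λ := Λ) (((5 : ℤ) : ℂ) * z) 0 := by
    refine CC_add_five_mul i ?_
    convert h1 using 1
    ring
  have h3 := CC_zero.mp h2
  simpa using h3

/-- All zeros and poles of `F_n` are torsion points. -/
theorem torsion_of_ordZ_FF (n : ℕ) (hn : (n : ℤ) ≠ 0) (h10 : 10 ∣ n) (z : ℂ)
    (h : ordZ z (FF Λ n hn) ≠ 0) : (5 * n : ℂ) * z ∈ Λ.lattice := by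
  rw [ordZ_FF_eq] at h
  by_cases h0 : ordZ z (ff Λ) = 0
  · rw [h0, sub_zero] at h
    rw [mul_assoc]
    rcases ordZ_ff_ne_zero h with h1 | h1 | h1 | h1 <;> exact five_mul_mem_of_CC h1
  · have h1 : (5 : ℂ) * z ∈ Λ.lattice := by
      rcases ordZ_ff_ne_zero h0 with h1 | h1 | h1 | h1 <;> exact five_mul_mem_of_CC h1
    have h2 := intCast_mul_mem (n : ℤ) h1
    rw [show (5 * n : ℂ) * z = ((n : ℤ) : ℂ) * (5 * z) by push_cast; ring]
    exact h2

theorem ordZ_ff_of_torsion (n : ℕ) (h10 : 10 ∣ n) {z : ℂ}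
    (h : ((n + 1 : ℕ) : ℂ) * z ∈ Λ.lattice) : ordZ z (ff Λ) = 0 := by
  by_contra h0
  have h1 : (n : ℂ) * z ∈ Λ.lattice := by
    rcases ordZ_ff_ne_zero h0 with h1 | h1 | h1 | h1 <;> exact mul_mem_of_CC h10 h1
  have h2 : z ∈ Λ.lattice := by
    have := sub_mem h h1
    convert this using 1
    push_cast
    ring
  exact h0 (ordZ_ff_of_mem h2)

/-- `F_n` takes the value `1` at the `(n+1)`-torsion points. -/
theorem FF_eq_one (n : ℕ) (hn : (n : ℤ) ≠ 0) (h10 : 10 ∣ n) (z : ℂ)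
    (h : ((n + 1 : ℕ) : ℂ) * z ∈ Λ.lattice) : 0 < ord z (FF Λ n hn - 1) := by
  have h0 : ordZ z (ff Λ) = 0 := ordZ_ff_of_torsion n h10 h
  have h1 : ord z (ff Λ) = 0 := by
    rw [← coe_ordZ z ff_ne_zero, h0]; rfl
  obtain ⟨c, hc⟩ := exists_value z h1.ge
  have h2 : 0 < ord z (aff n hn 0 (ff Λ) - algebraMap ℂ (Ell Λ) c) := by
    have e : aff n hn 0 (ff Λ) - algebraMap ℂ (Ell Λ) c =
        aff n hn 0 (ff Λ - algebraMap ℂ (Ell Λ) c) := by
      rw [map_sub, AlgHom.commutes]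
    rw [e, ord_aff, show (((n : ℤ) : ℂ) * z + 0) = -z + ((n + 1 : ℕ) : ℂ) * z by push_cast; ring,
      ord_add_lattice _ h, ord_neg_ff_sub]
    exact hc
  have h3 : 0 < ord z (aff n hn 0 (ff Λ) - ff Λ) := by
    have e : aff n hn 0 (ff Λ) - ff Λ = (aff n hn 0 (ff Λ) - algebraMap ℂ (Ell Λ) c) -
        (ff Λ - algebraMap ℂ (Ell Λ) c) := by ring
    rw [e]
    exact lt_of_lt_of_le (lt_min h2 hc) (ord_sub z _ _)
  have h4 : ord z (ff Λ)⁻¹ = 0 := by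
    rw [← coe_ordZ z (inv_ne_zero ff_ne_zero), ordZ_inv, h0]; rfl
  have e : FF Λ n hn - 1 = (aff n hn 0 (ff Λ) - ff Λ) * (ff Λ)⁻¹ := by
    rw [FF, sub_mul, mul_inv_cancel₀ ff_ne_zero, div_eq_mul_inv]
  rw [e, ord_mul, h4, add_zero]
  exact h3

theorem CC_self₀ : CC (Λ := Λ) (t₀ Λ) 1 := by
  rw [← CC_t₀_iff]; simp

theorem CC_self₁ : CC (Λ := Λ) (t₁ Λ) 2 := by
  rw [← CC_t₁_iff]; simp

theorem CC_self_neg₁ : CC (Λ := Λ) (-t₁ Λ) (-2) := by
  rw [← CC_neg_t₁_iff]; simp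

/-- The order of `F_n` at a point `≡ i ω₁/5`. -/
theorem ordZ_FF_of_CC {n : ℕ} (hn : (n : ℤ) ≠ 0) (h10 : 10 ∣ n) {z : ℂ} {i : ℤ}
    (h : CC (Λ := Λ) z i) : ordZ z (FF Λ n hn) =
    (if 5 ∣ i - 2 ∨ 5 ∣ i + 2 then 1 else 0) - (if 5 ∣ i - 1 ∨ 5 ∣ i + 1 then 1 else 0) := by
  rw [ordZ_FF_eq, ordZ_ff_of_mem (mul_mem_of_CC h10 h), ordZ_ff_of_CC h]
  ring

/-- The order of `F_n` at a point with `n z ≡ i ω₁/5`, where `5 ∤ i`. -/
theorem ordZ_FF_of_CC_mul {n : ℕ} (hn : (n : ℤ) ≠ 0) (h10 : 10 ∣ n) {z : ℂ} {i : ℤ}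
    (h : CC (Λ := Λ) (n * z) i) (hi : ¬ 5 ∣ i) : ordZ z (FF Λ n hn) =
    (if 5 ∣ i - 1 ∨ 5 ∣ i + 1 then 1 else 0) - (if 5 ∣ i - 2 ∨ 5 ∣ i + 2 then 1 else 0) := by
  rw [ordZ_FF_eq, ordZ_ff_of_CC h]
  have : ordZ z (ff Λ) = 0 := by
    by_contra h0
    apply hi
    have h1 : (n : ℂ) * z ∈ Λ.lattice := by
      rcases ordZ_ff_ne_zero h0 with h1 | h1 | h1 | h1 <;> exact mul_mem_of_CC h10 h1
    have := CC_excl h (CC_zero.mpr h1)
    simpa using this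
  rw [this, sub_zero]

theorem zero_cases {n : ℕ} (hn : (n : ℤ) ≠ 0) {z : ℂ}
    (h : 0 < ordZ z (FF Λ n hn)) : CC (Λ := Λ) (n * z) 1 ∨ CC (Λ := Λ) (n * z) (-1) ∨
      CC (Λ := Λ) z 2 ∨ CC (Λ := Λ) z (-2) := by
  rw [ordZ_FF_eq] at h
  have h1 := ordZ_ff_range (Λ := Λ) z
  have h2 := ordZ_ff_range (Λ := Λ) (n * z)
  by_cases h3 : ordZ z (ff Λ) = -1
  · rcases ordZ_ff_eq_neg_one h3 with h4 | h4
    · exact Or.inr (Or.inr (Or.inl h4))
    · exact Or.inr (Or.inr (Or.inr h4))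
  · have h5 : ordZ (n * z) (ff Λ) = 1 := by omega
    rcases ordZ_ff_eq_one h5 with h4 | h4
    · exact Or.inl h4
    · exact Or.inr (Or.inl h4)

theorem pole_cases {n : ℕ} (hn : (n : ℤ) ≠ 0) {z : ℂ}
    (h : ordZ z (FF Λ n hn) < 0) : CC (Λ := Λ) (n * z) 2 ∨ CC (Λ := Λ) (n * z) (-2) ∨
      CC (Λ := Λ) z 1 ∨ CC (Λ := Λ) z (-1) := by
  rw [ordZ_FF_eq] at h
  have h1 := ordZ_ff_range (Λ := Λ) z
  have h2 := ordZ_ff_range (Λ := Λ) (n * z)
  by_cases h3 : ordZ z (ff Λ) = 1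
  · rcases ordZ_ff_eq_one h3 with h4 | h4
    · exact Or.inr (Or.inr (Or.inl h4))
    · exact Or.inr (Or.inr (Or.inr h4))
  · have h5 : ordZ (n * z) (ff Λ) = -1 := by omega
    rcases ordZ_ff_eq_neg_one h5 with h4 | h4
    · exact Or.inl h4
    · exact Or.inr (Or.inl h4)

theorem ordZ_algebraMap (z c : ℂ) : ordZ z (algebraMap ℂ (Ell Λ) c) = 0 := by
  by_cases hc : c = 0
  · rw [hc, map_zero, ordZ, ord_zero]
    rfl
  · exact ordZ_eq (ord_algebraMap z hc)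

theorem FF_ne_algebraMap (n : ℕ) (hn : (n : ℤ) ≠ 0) (h10 : 10 ∣ n) (c : ℂ) :
    FF Λ n hn ≠ algebraMap ℂ _ c := by
  intro h
  have h1 := ordZ_FF_of_CC (Λ := Λ) hn h10 CC_self₀
  rw [h, ordZ_algebraMap] at h1
  norm_num at h1

/-- No nontrivial translation fixes `F_n`. -/
theorem stabilizer_FF (n : ℕ) (hn : (n : ℤ) ≠ 0) (h10 : 10 ∣ n) (r : ℂ)
    (h : aff 1 one_ne_zero r (FF Λ n hn) = FF Λ n hn) : r ∈ Λ.lattice := by
  have hord : ∀ z, ordZ (z + r) (FF Λ n hn) = ordZ z (FF Λ n hn) := by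
    intro z
    have := ordZ_aff (Λ := Λ) 1 one_ne_zero r z (FF Λ n hn)
    rw [h] at this
    rw [this]
    congr 1
    push_cast
    ring
  have hn0 : n ≠ 0 := by exact_mod_cast hn
  have hn1 : (n : ℂ) ≠ 0 := by exact_mod_cast hn0
  -- the point `t₁` is a zero
  have h1 : ordZ (t₁ Λ) (FF Λ n hn) = 1 := by
    rw [ordZ_FF_of_CC hn h10 CC_self₁]; norm_num
  -- the main contradiction
  have key : ∀ ε : ℤ, (ε = 1 ∨ ε = -1) → ¬ CC (Λ := Λ) (n * (t₁ Λ + r)) ε := by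
    intro ε hε hC
    have hnt : (n : ℂ) * t₁ Λ ∈ Λ.lattice := mul_mem_of_CC h10 CC_self₁
    have h2 : ∀ l ∈ Λ.lattice,
        CC (Λ := Λ) ((-(ε : ℂ) * (Λ.ω₁ / 5) + l) / n + r) 2 ∨
        CC (Λ := Λ) ((-(ε : ℂ) * (Λ.ω₁ / 5) + l) / n + r) (-2) := by
      intro l hl
      have h3 : CC (Λ := Λ) (n * ((-(ε : ℂ) * (Λ.ω₁ / 5) + l) / n)) (-ε) := by
        unfold CC
        rw [mul_div_cancel₀ _ hn1]
        convert hl using 1
        push_cast
        ring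
      have h4 : ordZ ((-(ε : ℂ) * (Λ.ω₁ / 5) + l) / n + r) (FF Λ n hn) = 1 := by
        rw [hord, ordZ_FF_of_CC_mul hn h10 h3 (by omega)]
        rcases hε with rfl | rfl <;> norm_num
      have h5 : CC (Λ := Λ) (n * ((-(ε : ℂ) * (Λ.ω₁ / 5) + l) / n + r)) 0 := by
        rw [CC_zero]
        have := add_mem (sub_mem hC hnt) hl
        convert this using 1
        field_simp
        ring
      rcases zero_cases hn (by rw [h4]; norm_num) with h6 | h6 | h6 | h6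
      · have := CC_excl h6 h5
        omega
      · have := CC_excl h6 h5
        omega
      · exact Or.inl h6
      · exact Or.inr h6
    -- pigeonhole
    have h7 : ∀ l ∈ Λ.lattice, ∀ l' ∈ Λ.lattice, ∀ i : ℤ,
        CC (Λ := Λ) ((-(ε : ℂ) * (Λ.ω₁ / 5) + l) / n + r) i →
        CC (Λ := Λ) ((-(ε : ℂ) * (Λ.ω₁ / 5) + l') / n + r) i → (l - l') / n ∈ Λ.lattice := by
      intro l hl l' hl' i ha hb
      have := sub_mem ha hb
      convert this using 1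
      field_simp
      ring
    have hn2 : ¬ ((n : ℤ) ∣ 1) := by
      intro hd
      have := Int.le_of_dvd one_pos hd
      omega
    have ha : ¬ (Λ.ω₁ - 0) / n ∈ Λ.lattice := fun hm =>
      hn2 (dvd_of_mem₁ (Λ := Λ) (p := 1) (q := n) (by push_cast; field_simp; ring) hm)
    have hb : ¬ (Λ.ω₂ - 0) / n ∈ Λ.lattice := fun hm =>
      hn2 (dvd_of_mem₂ (Λ := Λ) (p := 1) (q := n) (by push_cast; field_simp; ring) hm)
    have hc : ¬ (Λ.ω₁ - Λ.ω₂) / n ∈ Λ.lattice := by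
      intro hm
      obtain ⟨m, k, e⟩ := PeriodPair.mem_lattice.mp hm
      have := (indep_int (Λ := Λ) (a := n * m - 1) (b := n * k + 1) (by
        push_cast
        rw [eq_div_iff hn1] at e
        linear_combination e)).1
      exact hn2 ⟨m, by omega⟩
    have m1 := Λ.ω₁_mem_lattice
    have m2 := Λ.ω₂_mem_lattice
    have m0 : (0 : ℂ) ∈ Λ.lattice := zero_mem _
    rcases h2 _ m0 with q0 | q0 <;> rcases h2 _ m1 with q1 | q1 <;> rcases h2 _ m2 with q2 | q2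
    · exact ha (h7 _ m1 _ m0 _ q1 q0)
    · exact ha (h7 _ m1 _ m0 _ q1 q0)
    · exact hb (h7 _ m2 _ m0 _ q2 q0)
    · exact hc (h7 _ m1 _ m2 _ q1 q2)
    · exact hc (h7 _ m1 _ m2 _ q1 q2)
    · exact hb (h7 _ m2 _ m0 _ q2 q0)
    · exact ha (h7 _ m1 _ m0 _ q1 q0)
    · exact ha (h7 _ m1 _ m0 _ q1 q0)
  have h2 : 0 < ordZ (t₁ Λ + r) (FF Λ n hn) := by rw [hord, h1]; norm_num
  rcases zero_cases hn h2 with h3 | h3 | h3 | h3
  · exact absurd h3 (key 1 (Or.inl rfl))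
  · exact absurd h3 (key (-1) (Or.inr rfl))
  · have := CC_sub h3 CC_self₁
    rw [add_sub_cancel_left, sub_self, CC_zero] at this
    exact this
  · exfalso
    have h4 : CC (Λ := Λ) (-t₁ Λ + r) (-1) := by
      have h5 := CC_sub h3 (CC_mul 2 CC_self₁)
      exact CC_add_five_mul (-1) (CC_congr h5 (by push_cast; ring) (by norm_num))
    have h5 : ordZ (-t₁ Λ) (FF Λ n hn) = 1 := by
      rw [ordZ_FF_of_CC hn h10 CC_self_neg₁]; norm_num
    rw [← hord, ordZ_FF_of_CC hn h10 h4] at h5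
    norm_num at h5

/-- The counting argument: the number of zeros of `F_n` is at least the number of its poles, and
there are at least `n` points at which it takes the value `1`. -/
theorem le_finsum (n : ℕ) (hn : (n : ℤ) ≠ 0) (h10 : 10 ∣ n) (c : Place (Ell Λ) → ℤ)
    (hfin : {A | c A ≠ 0}.Finite)
    (h1 : ∀ z, ordZ z (FF Λ n hn) < 0 → -1 ≤ c (place z))
    (h2 : ∀ z, 0 < ordZ z (FF Λ n hn) → 1 ≤ c (place z))
    (h3 : ∀ z, ((n + 1 : ℕ) : ℂ) * z ∈ Λ.lattice → 1 ≤ c (place z))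
    (h4 : ∀ z, 0 ≤ ordZ z (FF Λ n hn) → 0 ≤ c (place z)) :
    (n : ℤ) ≤ ∑ᶠ A, c A := by
  classical
  have hn0 : n ≠ 0 := by exact_mod_cast hn
  have hn1 : (n : ℂ) ≠ 0 := by exact_mod_cast hn0
  have hn2 : ((n + 1 : ℕ) : ℂ) ≠ 0 := by exact_mod_cast Nat.succ_ne_zero n
  -- the order of `F_n` at a place
  have hordp : ∀ z w : ℂ, (place z : Place (Ell Λ)) = place w →
      ordZ z (FF Λ n hn) = ordZ w (FF Λ n hn) := by
    intro z w hzw
    rw [place_eq_iff] at hzw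
    have := ord_add_lattice (Λ := Λ) w hzw (FF Λ n hn)
    rw [add_sub_cancel] at this
    rw [ordZ, ordZ, this]
  set P : Set (Place (Ell Λ)) := {A | ∃ z, A = place z ∧ ordZ z (FF Λ n hn) < 0} with hP
  set Z : Set (Place (Ell Λ)) := {A | ∃ z, A = place z ∧ 0 < ordZ z (FF Λ n hn)} with hZ
  have hfin' : {A : Place (Ell Λ) | ∃ z, A = place z ∧ ordZ z (FF Λ n hn) ≠ 0}.Finite := by
    obtain ⟨S, hS⟩ := finite_support (FF_ne_zero (Λ := Λ) n hn)
    refine (S.image (fun s => (place s : Place (Ell Λ)))).finite_toSet.subset ?_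
    rintro A ⟨z, rfl, hz⟩
    have hz' : ord z (FF Λ n hn) ≠ 0 := by
      rw [← coe_ordZ z (FF_ne_zero n hn)]
      exact_mod_cast hz
    obtain ⟨s, hs, hzs⟩ := hS z hz'
    rw [Finset.coe_image]
    exact ⟨s, hs, (place_eq_iff.mpr hzs).symm⟩
  have hPf : P.Finite := hfin'.subset (by
    rintro A ⟨z, hz, hz'⟩
    exact ⟨z, hz, hz'.ne⟩)
  have hZf : Z.Finite := hfin'.subset (by
    rintro A ⟨z, hz, hz'⟩
    exact ⟨z, hz, hz'.ne'⟩)
  -- there are at least as many zeros as poles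
  have hcard : hPf.toFinset.card ≤ hZf.toFinset.card := by
    set ρ : ℂ := (Λ.ω₁ / 5) / n with hρ
    have hnρ : (n : ℂ) * ρ = Λ.ω₁ / 5 := by rw [hρ]; field_simp
    have hCρ : CC (Λ := Λ) (n * ρ) 1 := by
      rw [hnρ]
      exact CC_self₀
    refine Finset.card_le_card_of_forall_subsingleton
      (fun A B => ∃ z w : ℂ, A = place z ∧ B = place w ∧
        ((CC (Λ := Λ) (n * z) 2 ∧ w = z - ρ) ∨ (CC (Λ := Λ) (n * z) (-2) ∧ w = z + ρ) ∨
        (CC (Λ := Λ) z 1 ∧ w = t₁ Λ) ∨ (CC (Λ := Λ) z (-1) ∧ w = - t₁ Λ))) ?_ ?_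
    · intro A hA
      rw [Set.Finite.mem_toFinset] at hA
      obtain ⟨z, rfl, hz⟩ := hA
      rcases pole_cases hn hz with q | q | q | q
      · refine ⟨place (z - ρ), ?_, z, z - ρ, rfl, rfl, Or.inl ⟨q, rfl⟩⟩
        rw [Set.Finite.mem_toFinset]
        refine ⟨z - ρ, rfl, ?_⟩
        have hC : CC (Λ := Λ) (n * (z - ρ)) 1 :=
          CC_congr (CC_sub q hCρ) (by ring) (by norm_num)
        rw [ordZ_FF_of_CC_mul hn h10 hC (by norm_num)]
        norm_num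
      · refine ⟨place (z + ρ), ?_, z, z + ρ, rfl, rfl, Or.inr (Or.inl ⟨q, rfl⟩)⟩
        rw [Set.Finite.mem_toFinset]
        refine ⟨z + ρ, rfl, ?_⟩
        have hC : CC (Λ := Λ) (n * (z + ρ)) (-1) :=
          CC_congr (CC_add q hCρ) (by ring) (by norm_num)
        rw [ordZ_FF_of_CC_mul hn h10 hC (by norm_num)]
        norm_num
      · refine ⟨place (t₁ Λ), ?_, z, t₁ Λ, rfl, rfl, Or.inr (Or.inr (Or.inl ⟨q, rfl⟩))⟩
        rw [Set.Finite.mem_toFinset]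
        refine ⟨t₁ Λ, rfl, ?_⟩
        rw [ordZ_FF_of_CC hn h10 CC_self₁]
        norm_num
      · refine ⟨place (-t₁ Λ), ?_, z, -t₁ Λ, rfl, rfl, Or.inr (Or.inr (Or.inr ⟨q, rfl⟩))⟩
        rw [Set.Finite.mem_toFinset]
        refine ⟨-t₁ Λ, rfl, ?_⟩
        rw [ordZ_FF_of_CC hn h10 CC_self_neg₁]
        norm_num
    · rintro B - A ⟨-, z, w, rfl, hB, hzw⟩ A' ⟨-, z', w', rfl, hB', hzw'⟩
      rw [hB] at hB'
      have hww : w - w' ∈ Λ.lattice := place_eq_iff.mp hB'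
      rw [place_eq_iff]
      have hnww : (n : ℂ) * (w - w') ∈ Λ.lattice := by
        have := intCast_mul_mem (n : ℤ) hww
        simpa using this
      -- the class of `w` and of `n w`
      have tr : ∀ i : ℤ, CC (Λ := Λ) w' i → CC (Λ := Λ) w i := by
        intro i hi
        exact CC_congr (CC_add hi (CC_zero.mpr hww)) (by ring) (by ring)
      have trn : ∀ i : ℤ, CC (Λ := Λ) (n * w') i → CC (Λ := Λ) (n * w) i := by
        intro i hi
        exact CC_congr (CC_add hi (CC_zero.mpr hnww)) (by ring) (by ring)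
      have n1 : ∀ {z w : ℂ}, CC (Λ := Λ) (n * z) 2 → w = z - ρ → CC (Λ := Λ) (n * w) 1 := by
        rintro z w q rfl
        exact CC_congr (CC_sub q hCρ) (by ring) (by norm_num)
      have n2 : ∀ {z w : ℂ}, CC (Λ := Λ) (n * z) (-2) → w = z + ρ → CC (Λ := Λ) (n * w) (-1) := by
        rintro z w q rfl
        exact CC_congr (CC_add q hCρ) (by ring) (by norm_num)
      have n3 : ∀ {w : ℂ}, w = t₁ Λ → CC (Λ := Λ) w 2 := by
        rintro w rfl; exact CC_self₁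
      have n4 : ∀ {w : ℂ}, w = -t₁ Λ → CC (Λ := Λ) w (-2) := by
        rintro w rfl; exact CC_self_neg₁
      rcases hzw with ⟨q, e⟩ | ⟨q, e⟩ | ⟨q, e⟩ | ⟨q, e⟩ <;>
      rcases hzw' with ⟨q', e'⟩ | ⟨q', e'⟩ | ⟨q', e'⟩ | ⟨q', e'⟩
      · rw [show z - z' = w - w' by rw [e, e']; ring]; exact hww
      · exfalso
        have := CC_excl (n1 q e) (trn _ (n2 q' e')); omega
      · exfalso
        have := CC_excl (n1 q e) (trn _ (CC_zero.mpr (mul_mem_of_CC h10 (n3 e')))); omega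
      · exfalso
        have := CC_excl (n1 q e) (trn _ (CC_zero.mpr (mul_mem_of_CC h10 (n4 e')))); omega
      · exfalso
        have := CC_excl (n2 q e) (trn _ (n1 q' e')); omega
      · rw [show z - z' = w - w' by rw [e, e']; ring]; exact hww
      · exfalso
        have := CC_excl (n2 q e) (trn _ (CC_zero.mpr (mul_mem_of_CC h10 (n3 e')))); omega
      · exfalso
        have := CC_excl (n2 q e) (trn _ (CC_zero.mpr (mul_mem_of_CC h10 (n4 e')))); omega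
      · exfalso
        have := CC_excl (CC_zero.mpr (mul_mem_of_CC h10 (n3 e))) (trn _ (n1 q' e')); omega
      · exfalso
        have := CC_excl (CC_zero.mpr (mul_mem_of_CC h10 (n3 e))) (trn _ (n2 q' e')); omega
      · have := CC_sub q q'
        rwa [sub_self, CC_zero] at this
      · exfalso
        have := CC_excl (n3 e) (tr _ (n4 e')); omega
      · exfalso
        have := CC_excl (CC_zero.mpr (mul_mem_of_CC h10 (n4 e))) (trn _ (n1 q' e')); omega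
      · exfalso
        have := CC_excl (CC_zero.mpr (mul_mem_of_CC h10 (n4 e))) (trn _ (n2 q' e')); omega
      · exfalso
        have := CC_excl (n4 e) (tr _ (n3 e')); omega
      · have := CC_sub q q'
        rwa [sub_self, CC_zero] at this
  -- the torsion points
  set T : Finset (Place (Ell Λ)) :=
    (Finset.range n).image (fun k : ℕ => place ((k : ℂ) * Λ.ω₁ / ((n + 1 : ℕ) : ℂ))) with hT
  have hTtors : ∀ k : ℕ, ((n + 1 : ℕ) : ℂ) * ((k : ℂ) * Λ.ω₁ / ((n + 1 : ℕ) : ℂ)) ∈ Λ.lattice := by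
    intro k
    rw [mul_div_cancel₀ _ hn2]
    have := intCast_mul_mem (k : ℤ) Λ.ω₁_mem_lattice
    simpa using this
  have hTcard : T.card = n := by
    rw [hT, Finset.card_image_of_injOn, Finset.card_range]
    intro a ha b hb hab
    simp only [Finset.coe_range, Set.mem_Iio] at ha hb
    have h5 := place_eq_iff.mp hab
    have h6 := dvd_of_mem₁ (Λ := Λ) (p := (a : ℤ) - b) (q := ((n + 1 : ℕ) : ℤ)) (by
      push_cast
      have : (n : ℂ) + 1 ≠ 0 := by exact_mod_cast hn2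
      field_simp) h5
    by_contra hne
    have h7 := Int.eq_zero_of_abs_lt_dvd h6 (by
      rw [abs_lt]
      push_cast
      constructor <;> omega)
    omega
  have hT1 : ∀ z : ℂ, ((n + 1 : ℕ) : ℂ) * z ∈ Λ.lattice → ordZ z (FF Λ n hn) = 0 := by
    intro z hz
    have h5 := FF_eq_one n hn h10 z hz
    have h6 : ord z (FF Λ n hn) = 0 := by
      have e : FF Λ n hn = 1 + (FF Λ n hn - 1) := by ring
      rw [e, ord_add_of_lt, ord_one]
      rwa [ord_one]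
    rw [ordZ, h6]
    rfl
  -- the pointwise inequality
  have hpt : ∀ A : Place (Ell Λ), (if A ∈ hZf.toFinset then 1 else 0) + (if A ∈ T then 1 else 0) -
      (if A ∈ hPf.toFinset then 1 else 0) ≤ c A := by
    intro A
    obtain ⟨z, rfl⟩ := exists_place_eq A
    have mZ : (place z : Place (Ell Λ)) ∈ hZf.toFinset ↔ 0 < ordZ z (FF Λ n hn) := by
      rw [Set.Finite.mem_toFinset]
      constructor
      · rintro ⟨w, hw, hw'⟩
        rwa [hordp z w hw]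
      · exact fun h => ⟨z, rfl, h⟩
    have mP : (place z : Place (Ell Λ)) ∈ hPf.toFinset ↔ ordZ z (FF Λ n hn) < 0 := by
      rw [Set.Finite.mem_toFinset]
      constructor
      · rintro ⟨w, hw, hw'⟩
        rwa [hordp z w hw]
      · exact fun h => ⟨z, rfl, h⟩
    have mT : (place z : Place (Ell Λ)) ∈ T → ordZ z (FF Λ n hn) = 0 ∧ 1 ≤ c (place z) := by
      intro h
      rw [hT, Finset.mem_image] at h
      obtain ⟨k, -, hk⟩ := h
      refine ⟨?_, ?_⟩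
      · rw [← hordp _ _ hk]
        exact hT1 _ (hTtors k)
      · rw [← hk]
        exact h3 _ (hTtors k)
    rcases lt_trichotomy (ordZ z (FF Λ n hn)) 0 with h | h | h
    · have hT' : (place z : Place (Ell Λ)) ∉ T := fun hT' => h.ne (mT hT').1
      rw [if_neg (fun hh => absurd (mZ.mp hh) (not_lt.mpr h.le)), if_neg hT', if_pos (mP.mpr h)]
      have := h1 z h
      omega
    · rw [if_neg (fun hh => absurd (mZ.mp hh) (not_lt.mpr h.le)),
        if_neg (fun hh => absurd (mP.mp hh) (not_lt.mpr h.ge))]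
      by_cases hT' : (place z : Place (Ell Λ)) ∈ T
      · rw [if_pos hT']
        have := (mT hT').2
        omega
      · rw [if_neg hT']
        have := h4 z h.ge
        omega
    · have hT' : (place z : Place (Ell Λ)) ∉ T := fun hT' => h.ne' (mT hT').1
      rw [if_pos (mZ.mpr h), if_neg hT', if_neg (fun hh => absurd (mP.mp hh) (not_lt.mpr h.le))]
      have := h2 z h
      omega
  -- conclusion
  set U : Finset (Place (Ell Λ)) := hfin.toFinset ∪ hPf.toFinset ∪ hZf.toFinset ∪ T with hU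
  have hsum : ∑ᶠ A, c A = ∑ A ∈ U, c A := by
    apply finsum_eq_sum_of_support_subset
    intro A hA
    rw [Function.mem_support] at hA
    have : A ∈ hfin.toFinset := by
      rw [Set.Finite.mem_toFinset]; exact hA
    rw [hU]
    simp only [Finset.coe_union, Set.mem_union, Finset.mem_coe]
    exact Or.inl (Or.inl (Or.inl this))
  rw [hsum]
  calc (n : ℤ) ≤ (hZf.toFinset.card : ℤ) + (T.card : ℤ) - (hPf.toFinset.card : ℤ) := by
        rw [hTcard]; omega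
    _ = ∑ A ∈ U, ((if A ∈ hZf.toFinset then 1 else 0) + (if A ∈ T then 1 else 0) -
      (if A ∈ hPf.toFinset then (1 : ℤ) else 0)) := by
        rw [Finset.sum_sub_distrib, Finset.sum_add_distrib, Finset.sum_ite_mem,
          Finset.sum_ite_mem, Finset.sum_ite_mem]
        have e1 : U ∩ hZf.toFinset = hZf.toFinset := by
          apply Finset.inter_eq_right.mpr
          rw [hU]
          exact Finset.subset_union_right.trans Finset.subset_union_left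
        have e2 : U ∩ T = T := by
          apply Finset.inter_eq_right.mpr
          rw [hU]
          exact Finset.subset_union_right
        have e3 : U ∩ hPf.toFinset = hPf.toFinset := by
          apply Finset.inter_eq_right.mpr
          rw [hU]
          exact (Finset.subset_union_right.trans Finset.subset_union_left).trans
            Finset.subset_union_left
        rw [e1, e2, e3]
        simp
    _ ≤ ∑ A ∈ U, c A := Finset.sum_le_sum (fun A _ => hpt A)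

end Ell

end Pool.Agent.CanonDeg
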