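import Mathlib
import Pool.Agent.CanonDeg.Defs
import Pool.Agent.CanonDeg.Spec
import Pool.Agent.CanonDeg.Wedge
import Pool.Agent.CanonDeg.Local

/-!
# The two factors: the elliptic curve and the line
-/

open MvPolynomial

namespace Pool.Agent.CanonDeg

variable {ι : Type} [Fintype ι] {K : Type} [Field K] [Algebra ℂ K]
variable {X : ProjVariety ι K} {α : ι → ℂ}

/-- The homogeneous coordinates on the line. -/
def Wc (w : K) : Fin 2 → K := ![1, w]

/-- The homogeneous coordinates on the elliptic curve. -/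
def Ec (P P' : K) : Fin 3 → K := ![1, P, P']

/-- `g = w (w - 1) / (w³ + 1)`. -/
noncomputable def gfun (w : K) : K := w * (w - 1) / (w ^ 3 + 1)

/-- The derivative of `g`. -/
noncomputable def gder (w : K) : K :=
  ((2 * w - 1) * (w ^ 3 + 1) - w * (w - 1) * (3 * w ^ 2)) / (w ^ 3 + 1) ^ 2

section W

variable {η θ : Ω[K⁄ℂ]} {w : K} (hw : ∀ c : ℂ, w ≠ algebraMap ℂ K c) (hwD : HasD η θ w 0 1)

include hw

theorem w_ne_zero : w ≠ 0 := by simpa using hw 0

theorem w_sub_one_ne_zero : w - 1 ≠ 0 := by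
  have := hw 1
  rw [map_one] at this
  exact sub_ne_zero.mpr this

theorem w_cube_ne_zero : w ^ 3 + 1 ≠ 0 := by
  intro h
  -- `w` would be algebraic over `ℂ`
  have h1 : (w + 1) * ((w - algebraMap ℂ K ((1 + Complex.I * Real.sqrt 3) / 2)) *
      (w - algebraMap ℂ K ((1 - Complex.I * Real.sqrt 3) / 2))) = 0 := by
    have e1 : algebraMap ℂ K ((1 + Complex.I * Real.sqrt 3) / 2) +
        algebraMap ℂ K ((1 - Complex.I * Real.sqrt 3) / 2) = 1 := by
      rw [← map_add, ← map_one (algebraMap ℂ K)]; congr 1; ring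
    have e2 : algebraMap ℂ K ((1 + Complex.I * Real.sqrt 3) / 2) *
        algebraMap ℂ K ((1 - Complex.I * Real.sqrt 3) / 2) = 1 := by
      rw [← map_mul, ← map_one (algebraMap ℂ K)]; congr 1
      have : (Real.sqrt 3 : ℂ) ^ 2 = 3 := by
        rw [← Complex.ofReal_pow, Real.sq_sqrt (by norm_num)]; norm_num
      linear_combination (-Complex.I ^ 2 / 4) * this + (-3/4) * Complex.I_sq
    linear_combination h - (w + 1) * w * e1 + (w + 1) * e2
  rcases mul_eq_zero.mp h1 with h2 | h2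
  · apply hw (-1)
    rw [map_neg, map_one]
    exact eq_neg_of_add_eq_zero_left h2
  · rcases mul_eq_zero.mp h2 with h3 | h3
    · exact hw _ (sub_eq_zero.mp h3)
    · exact hw _ (sub_eq_zero.mp h3)

theorem gfun_ne_zero : gfun w ≠ 0 :=
  div_ne_zero (mul_ne_zero (w_ne_zero hw) (w_sub_one_ne_zero hw)) (w_cube_ne_zero hw)

include hwD

theorem hasD_gfun : HasD η θ (gfun w) 0 (gder w) := by
  have h1 : HasD η θ (1 : K) 0 0 := by simpa using HasD.const (η := η) (θ := θ) (1 : ℂ)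
  have hn := (hwD.mul (hwD.sub h1))
  have hd := ((hwD.mul (hwD.mul hwD)).add h1)
  have := hn.div hd (by
    have := w_cube_ne_zero hw
    intro h; apply this; rw [← h]; ring)
  have e : w * (w - 1) / (w * (w * w) + 1) = gfun w := by
    rw [gfun]; congr 1; ring
  rw [e] at this
  refine this.congr (by ring) ?_
  rw [gder]
  congr 1 <;> ring

omit hw hwD in
theorem spec_A {M : Type} [Field M] [Algebra ℂ M] {x : ι → K} {y : ι → M} {c : M}
    (hc : SpecTo x y w c) : SpecTo x y (w ^ 3 + 1) (c ^ 3 + 1) := (hc.pow 3).add SpecTo.one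

omit hw hwD in
theorem spec_B {M : Type} [Field M] [Algebra ℂ M] {x : ι → K} {y : ι → M} {c : M}
    (hc : SpecTo x y w c) : SpecTo x y (w * (w - 1)) (c * (c - 1)) :=
  hc.mul (hc.sub SpecTo.one)

omit hw hwD in
theorem spec_N {M : Type} [Field M] [Algebra ℂ M] {x : ι → K} {y : ι → M} {c : M}
    (hc : SpecTo x y w c) : SpecTo x y ((2 * w - 1) * (w ^ 3 + 1) - w * (w - 1) * (3 * w ^ 2))
      ((2 * c - 1) * (c ^ 3 + 1) - c * (c - 1) * (3 * c ^ 2)) :=
  ((((SpecTo.ofNat 2).mul hc).sub SpecTo.one).mul (spec_A hc)).sub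
    ((spec_B hc).mul ((SpecTo.ofNat 3).mul (hc.pow 2)))

/-- The factor `ℙ¹` at a finite point. -/
theorem facW_fin (hX : ∀ (d : ℕ) (F : MvPolynomial ι ℂ), F.IsHomogeneous d →
    aeval X.coord F = 0 → aeval α F = 0) {c : ℂ} (hc : SpecTo X.coord α w c) :
    Fac X α (fun q p => HasD η θ q 0 p) (fun j => Wc w j / Wc w 0) (fun j => (![1, c] : Fin 2 → ℂ) j)
      (w - algebraMap ℂ K c) 1 (gfun w) (gder w) := by
  have hw0 := w_ne_zero hw
  have hw1 := w_sub_one_ne_zero hw
  have hw3 := w_cube_ne_zero hw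
  have hg := gfun_ne_zero hw
  have hA := spec_A hc
  have hB := spec_B hc
  have hN := spec_N hc
  refine ⟨?_, ?_, hg, one_ne_zero, hwD.sub_const c, hasD_gfun hw hwD, ?_⟩
  · exact (hc.sub (SpecTo.const c)).congr rfl (by simp)
  · intro a b hab i
    fin_cases i
    · simpa [Wc] using Cg.one
    · simpa [Wc] using Cg.of_sub hab
  · by_cases hcA : c ^ 3 + 1 = 0
    · -- pole
      right; right
      have hc0 : c ≠ 0 := by rintro rfl; norm_num at hcA
      have hc1 : c - 1 ≠ 0 := by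
        intro h
        have : c = 1 := by linear_combination h
        rw [this] at hcA; norm_num at hcA
      have hq : w ^ 3 + 1 = (w - algebraMap ℂ K c) * (w ^ 2 + algebraMap ℂ K c * w +
          algebraMap ℂ K c ^ 2) := by
        have : algebraMap ℂ K c ^ 3 + 1 = 0 := by
          rw [← map_pow, ← map_one (algebraMap ℂ K), ← map_add, hcA, map_zero]
        linear_combination this
      have hQ : SpecTo X.coord α (w ^ 2 + algebraMap ℂ K c * w + algebraMap ℂ K c ^ 2)
          (3 * c ^ 2) := by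
        have hcc := SpecTo.const (x := X.coord) (y := α) c
        exact (((hc.pow 2).add (hcc.mul hc)).add (hcc.pow 2)).congr rfl (by simp; ring)
      have hQ0 : w ^ 2 + algebraMap ℂ K c * w + algebraMap ℂ K c ^ 2 ≠ 0 := by
        intro h; rw [h, mul_zero] at hq; exact hw3 hq
      have hBc : c * (c - 1) ≠ 0 := mul_ne_zero hc0 hc1
      have hder : UnitAt X α (-gder w / gfun w ^ 2 / 1) := by
        refine ⟨3 * c / (c - 1), div_ne_zero (mul_ne_zero three_ne_zero hc0) hc1, ?_⟩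
        refine (hN.neg.div (hB.pow 2) (pow_ne_zero _ (mul_ne_zero hw0 hw1))
          (pow_ne_zero _ hBc)).congr ?_ ?_
        · rw [gder, gfun]; field_simp
        · rw [hcA]; field_simp; ring
      refine ⟨(w ^ 2 + algebraMap ℂ K c * w + algebraMap ℂ K c ^ 2) / (w * (w - 1)),
        div_ne_zero hQ0 (mul_ne_zero hw0 hw1), ⟨_, ?_, hQ.div hB (mul_ne_zero hw0 hw1) hBc⟩, ?_,
        ?_, hder⟩
      · exact div_ne_zero (mul_ne_zero three_ne_zero (pow_ne_zero _ hc0)) hBc
      · rw [gfun, inv_div, hq]; ring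
      · have := hder.ne_zero hX
        simpa using this
    · by_cases hcB : c * (c - 1) = 0
      · right; left
        have hder : UnitAt X α (gder w / 1) := by
          refine ⟨((2 * c - 1) * (c ^ 3 + 1) - c * (c - 1) * (3 * c ^ 2)) / (c ^ 3 + 1) ^ 2, ?_,
            (hN.div (hA.pow 2) (pow_ne_zero _ hw3) (pow_ne_zero _ hcA)).congr ?_ rfl⟩
          · rw [hcB]
            rcases mul_eq_zero.mp hcB with h | h
            · rw [h]; norm_num
            · have : c = 1 := by linear_combination h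
              rw [this]; norm_num
          · rw [gder]; simp
        have hder0 : gder w ≠ 0 := by simpa using hder.ne_zero hX
        rcases mul_eq_zero.mp hcB with h | h
        · subst h
          refine ⟨(w - 1) / (w ^ 3 + 1), div_ne_zero hw1 hw3,
            ⟨_, ?_, (hc.sub SpecTo.one).div hA hw3 hcA⟩, ?_, hder0, hder⟩
          · norm_num
          · rw [gfun, map_zero]; ring
        · have h1 : c = 1 := by linear_combination h
          subst h1
          refine ⟨w / (w ^ 3 + 1), div_ne_zero hw0 hw3,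
            ⟨_, ?_, hc.div hA hw3 hcA⟩, ?_, hder0, hder⟩
          · norm_num
          · rw [gfun, map_one]; ring
      · left
        refine ⟨c * (c - 1) / (c ^ 3 + 1), div_ne_zero hcB hcA, fun a b hab => ?_⟩
        have hcC : Cg X α a b w c := Cg.of_sub hab
        exact ((hcC.mul (hcC.sub Cg.one)).div ((hcC.pow 3).add Cg.one) hw3 hcA)

/-- The factor `ℙ¹` at infinity. -/
theorem facW_inf (hX : ∀ (d : ℕ) (F : MvPolynomial ι ℂ), F.IsHomogeneous d →
    aeval X.coord F = 0 → aeval α F = 0) (hc : SpecTo X.coord α w⁻¹ 0) :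
    Fac X α (fun q p => HasD η θ q 0 p) (fun j => Wc w j / Wc w 1) (fun j => (![0, 1] : Fin 2 → ℂ) j)
      w⁻¹ (-(w ^ 2)⁻¹) (gfun w) (gder w) := by
  have hw0 := w_ne_zero hw
  have hw1 := w_sub_one_ne_zero hw
  have hw3 := w_cube_ne_zero hw
  have hg := gfun_ne_zero hw
  have hm3 : 1 + w⁻¹ ^ 3 ≠ 0 := by
    intro h
    apply hw3
    have : w ^ 3 + 1 = w ^ 3 * (1 + w⁻¹ ^ 3) := by field_simp
    rw [this, h, mul_zero]
  have hm1 : 1 - w⁻¹ ≠ 0 := by
    intro h
    apply hw1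
    have : w - 1 = w * (1 - w⁻¹) := by field_simp
    rw [this, h, mul_zero]
  have hA : SpecTo X.coord α (1 + w⁻¹ ^ 3) 1 := (SpecTo.one.add (hc.pow 3)).congr rfl (by simp)
  have hder : UnitAt X α (gder w / (-(w ^ 2)⁻¹)) := by
    refine ⟨1, one_ne_zero, ?_⟩
    refine ((((SpecTo.one.sub ((SpecTo.ofNat 2).mul hc)).sub ((SpecTo.ofNat 2).mul (hc.pow 3))).add
      (hc.pow 4)).div (hA.pow 2) (pow_ne_zero _ hm3) (by norm_num)).congr ?_ (by norm_num)
    rw [gder]
    have h3 : (w ^ 3 + 1) ≠ 0 := hw3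
    field_simp
    ring
  refine ⟨hc, ?_, hg, ?_, ?_, hasD_gfun hw hwD, ?_⟩
  · intro a b hab i
    fin_cases i
    · simpa [Wc] using hab
    · have : Wc w 1 / Wc w 1 = 1 := by simp [Wc, hw0]
      simpa [this] using Cg.one
  · exact neg_ne_zero.mpr (inv_ne_zero (pow_ne_zero _ hw0))
  · exact hwD.inv.congr (by simp) (by simp)
  · right; left
    refine ⟨(1 - w⁻¹) / (1 + w⁻¹ ^ 3), div_ne_zero hm1 hm3, ⟨1, one_ne_zero, ?_⟩, ?_, ?_, hder⟩
    · exact ((SpecTo.one.sub hc).div hA hm3 one_ne_zero).congr rfl (by norm_num)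
    · rw [gfun]
      field_simp
    · intro h
      have := hder.ne_zero hX
      rw [h, zero_div] at this
      exact this rfl

end W

/-- `h = (P - d₀)/(P - d₁)`. -/
noncomputable def hfun (P : K) (d₀ d₁ : ℂ) : K :=
  (P - algebraMap ℂ K d₀) / (P - algebraMap ℂ K d₁)

/-- The derivative of `h` along the invariant differential. -/
noncomputable def hder (P P' : K) (d₀ d₁ : ℂ) : K :=
  P' * (algebraMap ℂ K d₀ - algebraMap ℂ K d₁) / (P - algebraMap ℂ K d₁) ^ 2

section E

variable {η θ : Ω[K⁄ℂ]} {P P' : K} {g₂ g₃ d₀ d₁ : ℂ}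
  (hrel : P' ^ 2 = 4 * P ^ 3 - algebraMap ℂ K g₂ * P - algebraMap ℂ K g₃)
  (hP : ∀ c : ℂ, P ≠ algebraMap ℂ K c) (hP' : P' ≠ 0)
  (hPD : HasD η θ P P' 0) (hPD' : HasD η θ P' (6 * P ^ 2 - algebraMap ℂ K (g₂ / 2)) 0)
  (hns : ∀ a : ℂ, 4 * a ^ 3 - g₂ * a - g₃ = 0 → 12 * a ^ 2 - g₂ ≠ 0)
  (hd₀ : 4 * d₀ ^ 3 - g₂ * d₀ - g₃ ≠ 0) (hd₁ : 4 * d₁ ^ 3 - g₂ * d₁ - g₃ ≠ 0) (hd : d₀ ≠ d₁)

include hP

theorem P_sub_ne_zero (c : ℂ) : P - algebraMap ℂ K c ≠ 0 := sub_ne_zero.mpr (hP c)

theorem P_ne_zero : P ≠ 0 := by simpa using hP 0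

theorem hfun_ne_zero : hfun P d₀ d₁ ≠ 0 := div_ne_zero (P_sub_ne_zero hP _) (P_sub_ne_zero hP _)

include hPD

theorem hasD_hfun : HasD η θ (hfun P d₀ d₁) (hder P P' d₀ d₁) 0 := by
  have := (hPD.sub_const d₀).div (hPD.sub_const d₁) (P_sub_ne_zero hP _)
  exact this.congr (by rw [hder]; congr 1; ring) (by ring)

omit hP hPD in
theorem algebraMap_sub_ne_zero (hd : d₀ ≠ d₁) : algebraMap ℂ K d₀ - algebraMap ℂ K d₁ ≠ 0 := by
  rw [← map_sub]
  simpa [sub_eq_zero] using hd

include hrel hP' hd in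
/-- The factor `E` at a point `(a, b)` with `b ≠ 0`. -/
theorem facE_gen (hX : ∀ (d : ℕ) (F : MvPolynomial ι ℂ), F.IsHomogeneous d →
    aeval X.coord F = 0 → aeval α F = 0) {a b : ℂ} (ha : SpecTo X.coord α P a)
    (hb : SpecTo X.coord α P' b) (hb0 : b ≠ 0) :
    Fac X α (fun q p => HasD η θ q p 0) (fun j => Ec P P' j / Ec P P' 0)
      (fun j => (![1, a, b] : Fin 3 → ℂ) j) (P - algebraMap ℂ K a) P' (hfun P d₀ d₁)
      (hder P P' d₀ d₁) := by
  have hval : b ^ 2 = 4 * a ^ 3 - g₂ * a - g₃ := by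
    have h1 := hb.pow 2
    have h2 := (((SpecTo.ofNat 4).mul (ha.pow 3)).sub ((SpecTo.const g₂).mul ha)).sub
      (SpecTo.const (x := X.coord) (y := α) g₃)
    rw [← hrel] at h2
    simpa using SpecTo.unique hX h1 h2
  have hs1 := P_sub_ne_zero hP d₁
  have hs0 := P_sub_ne_zero hP d₀
  have hdd := algebraMap_sub_ne_zero (K := K) hd
  have hh := hfun_ne_zero (d₀ := d₀) (d₁ := d₁) hP
  have hb2 : SpecTo X.coord α (P' + algebraMap ℂ K b) (2 * b) :=
    (hb.add (SpecTo.const b)).congr rfl (by simp; ring)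
  have hb2' : (2 : ℂ) * b ≠ 0 := mul_ne_zero two_ne_zero hb0
  have hb20 : P' + algebraMap ℂ K b ≠ 0 := SpecTo.unit_ne_zero hX hb2 hb2'
  refine ⟨?_, ?_, hh, hP', hPD.sub_const a, hasD_hfun hP hPD, ?_⟩
  · exact (ha.sub (SpecTo.const a)).congr rfl (by simp)
  · intro u v hab i
    have haC : Cg X α u v P a := Cg.of_sub hab
    have hbC : Cg X α u v P' b := by
      apply Cg.of_sub
      have e : P' - algebraMap ℂ K b = (P - algebraMap ℂ K a) *
          ((4 * (P ^ 2 + algebraMap ℂ K a * P + algebraMap ℂ K a ^ 2) - algebraMap ℂ K g₂) /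
            (P' + algebraMap ℂ K b)) := by
        have hval' : algebraMap ℂ K b ^ 2 = 4 * algebraMap ℂ K a ^ 3 -
            algebraMap ℂ K g₂ * algebraMap ℂ K a - algebraMap ℂ K g₃ := by
          have := congrArg (algebraMap ℂ K) hval
          simpa only [map_pow, map_sub, map_mul, map_ofNat] using this
        field_simp
        linear_combination hrel - hval'
      rw [e]
      have hcc := SpecTo.const (x := X.coord) (y := α) a
      exact hab.mul_reg ((((SpecTo.ofNat 4).mul (((ha.pow 2).add (hcc.mul ha)).add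
        (hcc.pow 2))).sub (SpecTo.const g₂)).div hb2 hb20 hb2')
    fin_cases i
    · simpa [Ec] using Cg.one
    · simpa [Ec] using haC
    · simpa [Ec] using hbC
  · by_cases h0 : a = d₀
    · subst h0
      right; left
      have had : a - d₁ ≠ 0 := sub_ne_zero.mpr hd
      have hA : SpecTo X.coord α (P - algebraMap ℂ K d₁) (a - d₁) :=
        (ha.sub (SpecTo.const d₁)).congr rfl (by simp)
      have hder' : UnitAt X α (hder P P' a d₁ / P') := by
        refine ⟨(a - d₁) / (a - d₁) ^ 2, div_ne_zero had (pow_ne_zero _ had), ?_⟩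
        refine (((SpecTo.const a).sub (SpecTo.const d₁)).div (hA.pow 2) (pow_ne_zero _ hs1)
          (pow_ne_zero _ had)).congr ?_ (by simp)
        rw [hder]; field_simp
      refine ⟨(P - algebraMap ℂ K d₁)⁻¹, inv_ne_zero hs1, ⟨_, inv_ne_zero had, hA.inv hs1 had⟩,
        ?_, ?_, hder'⟩
      · rw [hfun, div_eq_mul_inv]
      · rw [hder]
        exact div_ne_zero (mul_ne_zero hP' hdd) (pow_ne_zero _ hs1)
    · by_cases h1 : a = d₁
      · subst h1
        right; right
        have had : a - d₀ ≠ 0 := sub_ne_zero.mpr h0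
        have hA : SpecTo X.coord α (P - algebraMap ℂ K d₀) (a - d₀) :=
          (ha.sub (SpecTo.const d₀)).congr rfl (by simp)
        have hder' : UnitAt X α (-hder P P' d₀ a / hfun P d₀ a ^ 2 / P') := by
          refine ⟨(a - d₀) / (a - d₀) ^ 2, div_ne_zero had (pow_ne_zero _ had), ?_⟩
          refine (((SpecTo.const a).sub (SpecTo.const d₀)).div (hA.pow 2) (pow_ne_zero _ hs0)
            (pow_ne_zero _ had)).congr ?_ (by simp)
          rw [hder, hfun]; field_simp; ring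
        refine ⟨(P - algebraMap ℂ K d₀)⁻¹, inv_ne_zero hs0, ⟨_, inv_ne_zero had, hA.inv hs0 had⟩,
          ?_, ?_, hder'⟩
        · rw [hfun, inv_div, div_eq_mul_inv]
        · rw [hder]
          refine div_ne_zero (neg_ne_zero.mpr ?_) (pow_ne_zero _ hh)
          exact div_ne_zero (mul_ne_zero hP' hdd) (pow_ne_zero _ hs1)
      · left
        refine ⟨(a - d₀) / (a - d₁), div_ne_zero (sub_ne_zero.mpr h0) (sub_ne_zero.mpr h1),
          fun u v hab => ?_⟩
        have haC : Cg X α u v P a := Cg.of_sub hab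
        exact (haC.sub (Cg.const d₀)).div (haC.sub (Cg.const d₁)) hs1 (sub_ne_zero.mpr h1)

include hrel hP' hPD' hns hd₀ hd₁ in
/-- The factor `E` at a point `(a, 0)`. -/
theorem facE_half (hX : ∀ (d : ℕ) (F : MvPolynomial ι ℂ), F.IsHomogeneous d →
    aeval X.coord F = 0 → aeval α F = 0) {a : ℂ} (ha : SpecTo X.coord α P a)
    (hb : SpecTo X.coord α P' 0) :
    Fac X α (fun q p => HasD η θ q p 0) (fun j => Ec P P' j / Ec P P' 0)
      (fun j => (![1, a, 0] : Fin 3 → ℂ) j) P' (6 * P ^ 2 - algebraMap ℂ K (g₂ / 2)) (hfun P d₀ d₁)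
      (hder P P' d₀ d₁) ∧ UnitAt X α (6 * P ^ 2 - algebraMap ℂ K (g₂ / 2)) := by
  have hval : 4 * a ^ 3 - g₂ * a - g₃ = 0 := by
    have h1 := hb.pow 2
    have h2 := (((SpecTo.ofNat 4).mul (ha.pow 3)).sub ((SpecTo.const g₂).mul ha)).sub
      (SpecTo.const (x := X.coord) (y := α) g₃)
    rw [← hrel] at h2
    simpa using (SpecTo.unique hX h1 h2).symm
  have hns' := hns a hval
  have hs1 := P_sub_ne_zero hP d₁
  have hs0 := P_sub_ne_zero hP d₀
  have hh := hfun_ne_zero (d₀ := d₀) (d₁ := d₁) hP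
  have h0 : a ≠ d₀ := by rintro rfl; exact hd₀ hval
  have h1 : a ≠ d₁ := by rintro rfl; exact hd₁ hval
  have hκ : UnitAt X α (6 * P ^ 2 - algebraMap ℂ K (g₂ / 2)) := by
    refine ⟨(12 * a ^ 2 - g₂) / 2, div_ne_zero hns' two_ne_zero, ?_⟩
    exact (((SpecTo.ofNat 6).mul (ha.pow 2)).sub (SpecTo.const (g₂ / 2))).congr rfl
      (by simp; ring)
  have hcc := SpecTo.const (x := X.coord) (y := α) a
  have hQ : SpecTo X.coord α (4 * (P ^ 2 + algebraMap ℂ K a * P + algebraMap ℂ K a ^ 2) -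
      algebraMap ℂ K g₂) (12 * a ^ 2 - g₂) :=
    (((SpecTo.ofNat 4).mul (((ha.pow 2).add (hcc.mul ha)).add (hcc.pow 2))).sub
      (SpecTo.const g₂)).congr rfl (by simp; ring)
  have hQ0 := SpecTo.unit_ne_zero hX hQ hns'
  have hPC : ∀ u v, Cg X α u v P' 0 → Cg X α u v P a := by
    intro u v hab
    apply Cg.of_sub
    have e : P - algebraMap ℂ K a = P' * (P' /
        (4 * (P ^ 2 + algebraMap ℂ K a * P + algebraMap ℂ K a ^ 2) - algebraMap ℂ K g₂)) := by
      have hval' : 4 * algebraMap ℂ K a ^ 3 -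
          algebraMap ℂ K g₂ * algebraMap ℂ K a - algebraMap ℂ K g₃ = 0 := by
        have := congrArg (algebraMap ℂ K) hval
        simpa only [map_pow, map_sub, map_mul, map_ofNat, map_zero] using this
      rw [← mul_div_assoc, eq_div_iff hQ0]
      linear_combination -hrel - hval'
    rw [e]
    exact hab.mul_reg (hb.div hQ hQ0 hns')
  refine ⟨⟨hb, ?_, hh, hκ.ne_zero hX, hPD', hasD_hfun hP hPD, ?_⟩, hκ⟩
  · intro u v hab i
    fin_cases i
    · simpa [Ec] using Cg.one
    · simpa [Ec] using hPC u v hab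
    · simpa [Ec] using hab
  · left
    refine ⟨(a - d₀) / (a - d₁), div_ne_zero (sub_ne_zero.mpr h0) (sub_ne_zero.mpr h1),
      fun u v hab => ?_⟩
    have haC : Cg X α u v P a := hPC u v hab
    exact (haC.sub (Cg.const d₀)).div (haC.sub (Cg.const d₁)) hs1 (sub_ne_zero.mpr h1)

include hrel hP' hPD' in
/-- The factor `E` at the point at infinity. -/
theorem facE_inf (hX : ∀ (d : ℕ) (F : MvPolynomial ι ℂ), F.IsHomogeneous d →
    aeval X.coord F = 0 → aeval α F = 0) (hv : SpecTo X.coord α P'⁻¹ 0)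
    (hu : SpecTo X.coord α (P / P') 0) :
    Fac X α (fun q p => HasD η θ q p 0) (fun j => Ec P P' j / Ec P P' 2)
      (fun j => (![0, 0, 1] : Fin 3 → ℂ) j) (P / P')
      ((P' * P' - P * (6 * P ^ 2 - algebraMap ℂ K (g₂ / 2))) / P' ^ 2) (hfun P d₀ d₁)
      (hder P P' d₀ d₁) ∧
      UnitAt X α ((P' * P' - P * (6 * P ^ 2 - algebraMap ℂ K (g₂ / 2))) / P' ^ 2) := by
  have hP0 := P_ne_zero hP
  have hs1 := P_sub_ne_zero hP d₁
  have hs0 := P_sub_ne_zero hP d₀
  have hh := hfun_ne_zero (d₀ := d₀) (d₁ := d₁) hP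
  have h2 := SpecTo.const (x := X.coord) (y := α) g₂
  have h3 := SpecTo.const (x := X.coord) (y := α) g₃
  have hchar : CharZero K := charZero_of_injective_algebraMap (algebraMap ℂ K).injective
  have hκ : UnitAt X α ((P' * P' - P * (6 * P ^ 2 - algebraMap ℂ K (g₂ / 2))) / P' ^ 2) := by
    refine ⟨-1/2, by norm_num, ?_⟩
    have h12 := SpecTo.const (x := X.coord) (y := α) (-1/2 : ℂ)
    have h32 := SpecTo.const (x := X.coord) (y := α) (3/2 : ℂ)
    refine ((h12.sub ((h2.mul hu).mul hv)).sub ((h32.mul h3).mul (hv.pow 2))).congr ?_ ?_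
    · have e1 : algebraMap ℂ K (-1/2 : ℂ) = -1/2 := by
        have h2' : algebraMap ℂ K 2 = 2 := map_ofNat _ 2
        rw [map_div₀, map_neg, map_one, h2']
      have e2 : algebraMap ℂ K (3/2 : ℂ) = 3/2 := by rw [map_div₀, map_ofNat, map_ofNat]
      have e3 : algebraMap ℂ K (g₂ / 2) = algebraMap ℂ K g₂ / 2 := by rw [map_div₀, map_ofNat]
      rw [e1, e2, e3]
      field_simp
      linear_combination (-3) * hrel
    · simp
  have hW : SpecTo X.coord α (1 + algebraMap ℂ K g₂ * (P / P') * P'⁻¹ +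
      algebraMap ℂ K g₃ * P'⁻¹ ^ 2) 1 :=
    ((SpecTo.one.add ((h2.mul hu).mul hv)).add (h3.mul (hv.pow 2))).congr rfl (by simp)
  have hW0 := SpecTo.unit_ne_zero hX hW one_ne_zero
  have hvC : ∀ a b, Cg X α a b (P / P') 0 → Cg X α a b P'⁻¹ 0 := by
    intro a b hab
    have e : P'⁻¹ = (P / P') * (4 * (P / P') ^ 2 / (1 + algebraMap ℂ K g₂ * (P / P') * P'⁻¹ +
        algebraMap ℂ K g₃ * P'⁻¹ ^ 2)) := by
      rw [← mul_div_assoc, eq_div_iff hW0]
      field_simp
      linear_combination hrel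
    rw [e]
    exact hab.mul_reg (((SpecTo.ofNat 4).mul (hu.pow 2)).div hW hW0 one_ne_zero)
  have hPiC : ∀ a b, Cg X α a b (P / P') 0 → Cg X α a b P⁻¹ 0 := by
    intro a b hab
    have e : P⁻¹ = (P / P') * (4 * (P / P') / (1 + algebraMap ℂ K g₂ * (P / P') * P'⁻¹ +
        algebraMap ℂ K g₃ * P'⁻¹ ^ 2)) := by
      rw [← mul_div_assoc, eq_div_iff hW0]
      field_simp
      linear_combination hrel
    rw [e]
    exact hab.mul_reg (((SpecTo.ofNat 4).mul hu).div hW hW0 one_ne_zero)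
  refine ⟨⟨hu, ?_, hh, hκ.ne_zero hX, ?_, hasD_hfun hP hPD, ?_⟩, hκ⟩
  · intro a b hab i
    fin_cases i
    · simpa [Ec] using hvC a b hab
    · simpa [Ec] using hab
    · have : Ec P P' 2 / Ec P P' 2 = 1 := by simp [Ec, hP']
      simpa [this] using Cg.one
  · exact (hPD.div hPD' hP').congr rfl (by ring)
  · left
    refine ⟨1, one_ne_zero, fun a b hab => ?_⟩
    have h := hPiC a b hab
    have hn := Cg.one.sub ((Cg.const (X := X) (α := α) (a := a) (b := b) d₀).mul h)
    have hde := Cg.one.sub ((Cg.const (X := X) (α := α) (a := a) (b := b) d₁).mul h)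
    have hde0 : (1 : K) - algebraMap ℂ K d₁ * P⁻¹ ≠ 0 := by
      intro h'
      apply hs1
      have : P - algebraMap ℂ K d₁ = P * (1 - algebraMap ℂ K d₁ * P⁻¹) := by field_simp
      rw [this, h', mul_zero]
    refine (hn.div hde hde0 (by simp)).congr ?_ (by simp)
    rw [hfun]
    have e : (1 - algebraMap ℂ K d₁ * P⁻¹) = (P - algebraMap ℂ K d₁) / P := by field_simp
    have e' : (1 - algebraMap ℂ K d₀ * P⁻¹) = (P - algebraMap ℂ K d₀) / P := by field_simp
    rw [e, e']
    field_simp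

end E

end Pool.Agent.CanonDeg
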