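import Mathlib
import Pool.Agent.CanonDeg.Defs
import Pool.Agent.CanonDeg.Spec
import Pool.Agent.CanonDeg.Wedge
import Pool.Agent.CanonDeg.Local
import Pool.Agent.CanonDeg.Factors

/-!
# The surface `{h(P) = t g(w)}` in the product of the elliptic curve and two lines
-/

open MvPolynomial

namespace Pool.Agent.CanonDeg

/-- The index type of the homogeneous coordinates of the Segre embedding. -/
abbrev Idx : Type := Fin 3 × Fin 2 × Fin 2

variable {K : Type} [Field K] [Algebra ℂ K]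

/-- The homogeneous coordinates of `t = h/g`. -/
noncomputable def Tc (P w : K) (d₀ d₁ : ℂ) : Fin 2 → K :=
  ![(P - algebraMap ℂ K d₁) * (w * (w - 1)), (P - algebraMap ℂ K d₀) * (w ^ 3 + 1)]

/-- The coordinates of the generic point of the surface. -/
noncomputable def xc (P P' w : K) (d₀ d₁ : ℂ) (p : Idx) : K :=
  Ec P P' p.1 * Wc w p.2.1 * Tc P w d₀ d₁ p.2.2

section

variable {P P' w : K} {d₀ d₁ : ℂ}
  (hP : ∀ c : ℂ, P ≠ algebraMap ℂ K c) (hP' : P' ≠ 0) (hw : ∀ c : ℂ, w ≠ algebraMap ℂ K c)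

include hP hP' in
theorem Ec_ne_zero (i : Fin 3) : Ec P P' i ≠ 0 := by
  have := P_ne_zero hP
  fin_cases i <;> simp [Ec, this, hP']

include hw in
theorem Wc_ne_zero (i : Fin 2) : Wc w i ≠ 0 := by
  have := w_ne_zero hw
  fin_cases i <;> simp [Wc, this]

include hP hw in
theorem Tc_ne_zero (i : Fin 2) : Tc P w d₀ d₁ i ≠ 0 := by
  have h1 := P_sub_ne_zero hP d₀
  have h2 := P_sub_ne_zero hP d₁
  have h3 := w_ne_zero hw
  have h4 := w_sub_one_ne_zero hw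
  have h5 := w_cube_ne_zero hw
  fin_cases i
  · simp only [Tc]; exact mul_ne_zero h2 (mul_ne_zero h3 h4)
  · simp only [Tc]; exact mul_ne_zero h1 h5

include hP hP' hw in
theorem xc_ne_zero (p : Idx) : xc P P' w d₀ d₁ p ≠ 0 :=
  mul_ne_zero (mul_ne_zero (Ec_ne_zero hP hP' _) (Wc_ne_zero hw _)) (Tc_ne_zero hP hw _)

include hP hw in
theorem Tc_one_div_zero : Tc P w d₀ d₁ 1 / Tc P w d₀ d₁ 0 = hfun P d₀ d₁ / gfun w := by
  have h2 := P_sub_ne_zero hP d₁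
  have h3 := w_ne_zero hw
  have h4 := w_sub_one_ne_zero hw
  have h5 := w_cube_ne_zero hw
  simp only [Tc, hfun, gfun, Matrix.cons_val_one, Matrix.cons_val_zero]
  field_simp

include hP hw in
theorem Tc_zero_div_one : Tc P w d₀ d₁ 0 / Tc P w d₀ d₁ 1 = (hfun P d₀ d₁)⁻¹ / (gfun w)⁻¹ := by
  have := Tc_one_div_zero (d₀ := d₀) (d₁ := d₁) hP hw
  rw [← inv_inj] at this
  simp only [inv_div] at this
  rw [this]
  simp [div_eq_mul_inv, mul_comm]

end

section Point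

variable {X : ProjVariety Idx K} {α : Idx → ℂ} {P P' w : K} {d₀ d₁ : ℂ}
  (hcoord : ∀ p, X.coord p = xc P P' w d₀ d₁ p)
  (hP : ∀ c : ℂ, P ≠ algebraMap ℂ K c) (hP' : P' ≠ 0) (hw : ∀ c : ℂ, w ≠ algebraMap ℂ K c)

include hcoord in
/-- Each point of the surface is a product point. -/
theorem exists_factor (hα : X.IsPoint α) : ∃ (β : Fin 3 → ℂ) (γ : Fin 2 → ℂ) (δ : Fin 2 → ℂ),
    β ≠ 0 ∧ γ ≠ 0 ∧ δ ≠ 0 ∧ ∀ p, α p = β p.1 * γ p.2.1 * δ p.2.2 := by
  obtain ⟨h0, hX⟩ := hα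
  obtain ⟨⟨i, j, k⟩, hp⟩ := Function.ne_iff.mp h0
  have hp' : α (i, j, k) ≠ 0 := hp
  have key : ∀ p : Idx, α p * α (i, j, k) ^ 2 = α (p.1, j, k) * α (i, p.2.1, k) * α (i, j, p.2.2) := by
    intro p
    have hF : (MvPolynomial.X p * MvPolynomial.X (i, j, k) ^ 2 -
        MvPolynomial.X (p.1, j, k) * MvPolynomial.X (i, p.2.1, k) * MvPolynomial.X (i, j, p.2.2) :
        MvPolynomial Idx ℂ).IsHomogeneous 3 := by
      refine IsHomogeneous.sub ?_ ?_
      · exact (isHomogeneous_X _ _).mul ((isHomogeneous_X _ _).pow 2)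
      · exact ((isHomogeneous_X _ _).mul (isHomogeneous_X _ _)).mul (isHomogeneous_X _ _)
    have h1 : aeval X.coord (MvPolynomial.X p * MvPolynomial.X (i, j, k) ^ 2 -
        MvPolynomial.X (p.1, j, k) * MvPolynomial.X (i, p.2.1, k) * MvPolynomial.X (i, j, p.2.2) :
        MvPolynomial Idx ℂ) = 0 := by
      simp only [map_sub, map_mul, map_pow, aeval_X, hcoord, xc]
      ring
    have := hX 3 _ hF h1
    simp only [map_sub, map_mul, map_pow, aeval_X] at this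
    exact sub_eq_zero.mp this
  refine ⟨fun i' => α (i', j, k), fun j' => α (i, j', k) / α (i, j, k),
    fun k' => α (i, j, k') / α (i, j, k), ?_, ?_, ?_, ?_⟩
  · exact Function.ne_iff.mpr ⟨i, hp'⟩
  · exact Function.ne_iff.mpr ⟨j, by simp [hp']⟩
  · exact Function.ne_iff.mpr ⟨k, by simp [hp']⟩
  · intro p
    have := key p
    field_simp
    linear_combination this

variable {β : Fin 3 → ℂ} {γ : Fin 2 → ℂ} {δ : Fin 2 → ℂ}
  (hα : ∀ p, α p = β p.1 * γ p.2.1 * δ p.2.2)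
  {i' : Fin 3} {j' k' : Fin 2} (hβ : β i' ≠ 0) (hγ : γ j' ≠ 0) (hδ : δ k' ≠ 0)

include hcoord hP hP' hw hα hβ hγ hδ

theorem spec_E (i : Fin 3) : SpecTo X.coord α (Ec P P' i / Ec P P' i') (β i / β i') := by
  have h := SpecTo.coord (x := X.coord) (y := α) (i, j', k') (i', j', k')
    (by rw [hcoord]; exact xc_ne_zero hP hP' hw _)
    (by rw [hα]; exact mul_ne_zero (mul_ne_zero hβ hγ) hδ)
  refine h.congr ?_ ?_
  · rw [hcoord, hcoord]
    simp only [xc]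
    rw [mul_div_mul_right _ _ (Tc_ne_zero hP hw _), mul_div_mul_right _ _ (Wc_ne_zero hw _)]
  · rw [hα, hα]
    simp only
    rw [mul_div_mul_right _ _ hδ, mul_div_mul_right _ _ hγ]

theorem spec_W (j : Fin 2) : SpecTo X.coord α (Wc w j / Wc w j') (γ j / γ j') := by
  have h := SpecTo.coord (x := X.coord) (y := α) (i', j, k') (i', j', k')
    (by rw [hcoord]; exact xc_ne_zero hP hP' hw _)
    (by rw [hα]; exact mul_ne_zero (mul_ne_zero hβ hγ) hδ)
  refine h.congr ?_ ?_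
  · rw [hcoord, hcoord]
    simp only [xc]
    rw [mul_div_mul_right _ _ (Tc_ne_zero hP hw _), mul_div_mul_left _ _ (Ec_ne_zero hP hP' _)]
  · rw [hα, hα]
    simp only
    rw [mul_div_mul_right _ _ hδ, mul_div_mul_left _ _ hβ]

theorem spec_T (k : Fin 2) :
    SpecTo X.coord α (Tc P w d₀ d₁ k / Tc P w d₀ d₁ k') (δ k / δ k') := by
  have h := SpecTo.coord (x := X.coord) (y := α) (i', j', k) (i', j', k')
    (by rw [hcoord]; exact xc_ne_zero hP hP' hw _)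
    (by rw [hα]; exact mul_ne_zero (mul_ne_zero hβ hγ) hδ)
  refine h.congr ?_ ?_
  · rw [hcoord, hcoord]
    simp only [xc]
    rw [mul_div_mul_left _ _ (mul_ne_zero (Ec_ne_zero hP hP' _) (Wc_ne_zero hw _))]
  · rw [hα, hα]
    simp only
    rw [mul_div_mul_left _ _ (mul_ne_zero hβ hγ)]

theorem crit_point {a b : K} (ha : X.VanishesAt α a) (hb : X.VanishesAt α b)
    (hE : ∀ i, Cg X α a b (Ec P P' i / Ec P P' i') (β i / β i'))
    (hW : ∀ j, Cg X α a b (Wc w j / Wc w j') (γ j / γ j'))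
    (hT : ∀ k, Cg X α a b (Tc P w d₀ d₁ k / Tc P w d₀ d₁ k') (δ k / δ k')) :
    X.IsLocalParameters α a b := by
  refine isLocalParameters_of_Cg ha hb (i', j', k') ?_ ?_ ?_
  · rw [hα]; exact mul_ne_zero (mul_ne_zero hβ hγ) hδ
  · rw [hcoord]; exact xc_ne_zero hP hP' hw _
  · intro p
    refine (((hE p.1).mul (hW p.2.1)).mul (hT p.2.2)).congr ?_ ?_
    · rw [hcoord, hcoord]
      simp only [xc]
      rw [div_mul_div_comm, div_mul_div_comm]
    · rw [hα, hα]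
      simp only
      rw [div_mul_div_comm, div_mul_div_comm]

end Point

section PointLocal

variable {X : ProjVariety Idx K} {α : Idx → ℂ} {P P' w : K} {g₂ g₃ d₀ d₁ : ℂ} {η θ : Ω[K⁄ℂ]}
  (hcoord : ∀ p, X.coord p = xc P P' w d₀ d₁ p)
  (hrel : P' ^ 2 = 4 * P ^ 3 - algebraMap ℂ K g₂ * P - algebraMap ℂ K g₃)
  (hP : ∀ c : ℂ, P ≠ algebraMap ℂ K c) (hP' : P' ≠ 0) (hw : ∀ c : ℂ, w ≠ algebraMap ℂ K c)
  (hPD : HasD η θ P P' 0) (hPD' : HasD η θ P' (6 * P ^ 2 - algebraMap ℂ K (g₂ / 2)) 0)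
  (hwD : HasD η θ w 0 1)
  (hns : ∀ a : ℂ, 4 * a ^ 3 - g₂ * a - g₃ = 0 → 12 * a ^ 2 - g₂ ≠ 0)
  (hd₀ : 4 * d₀ ^ 3 - g₂ * d₀ - g₃ ≠ 0) (hd₁ : 4 * d₁ ^ 3 - g₂ * d₁ - g₃ ≠ 0) (hd : d₀ ≠ d₁)

include hcoord hrel hP hP' hw hPD hPD' hns hd₀ hd₁ hd

theorem exists_facE (hX : ∀ (d : ℕ) (F : MvPolynomial Idx ℂ), F.IsHomogeneous d →
    aeval X.coord F = 0 → aeval α F = 0)
    {β : Fin 3 → ℂ} {γ : Fin 2 → ℂ} {δ : Fin 2 → ℂ}
    (hα : ∀ p, α p = β p.1 * γ p.2.1 * δ p.2.2) (hβ0 : β ≠ 0)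
    {j' k' : Fin 2} (hγ : γ j' ≠ 0) (hδ : δ k' ≠ 0) :
    ∃ (i' : Fin 3) (u κ : K), β i' ≠ 0 ∧ UnitAt X α κ ∧
      Fac X α (fun q p => HasD η θ q p 0) (fun j => Ec P P' j / Ec P P' i')
        (fun j => β j / β i') u κ (hfun P d₀ d₁) (hder P P' d₀ d₁) := by
  by_cases h0 : β 0 = 0
  · have h2 : β 2 ≠ 0 := by
      intro h2
      have h1 : β 1 ≠ 0 := by
        intro h1
        apply hβ0
        funext i
        fin_cases i
        · exact h0
        · exact h1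
        · exact h2
      have s0 := spec_E hcoord hP hP' hw hα h1 hγ hδ 0
      have s2 := spec_E hcoord hP hP' hw hα h1 hγ hδ 2
      rw [h0, zero_div] at s0
      rw [h2, zero_div] at s2
      have e0 : Ec P P' 0 / Ec P P' 1 = P⁻¹ := by simp [Ec]
      have e2 : Ec P P' 2 / Ec P P' 1 = P' / P := by simp [Ec]
      rw [e0] at s0
      rw [e2] at s2
      have hP0 := P_ne_zero hP
      have l := (s2.pow 2).mul s0
      have r := ((SpecTo.ofNat (x := X.coord) (y := α) 4).sub ((SpecTo.const g₂).mul (s0.pow 2))).sub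
        ((SpecTo.const g₃).mul (s0.pow 3))
      have e : (P' / P) ^ 2 * P⁻¹ = 4 - algebraMap ℂ K g₂ * P⁻¹ ^ 2 - algebraMap ℂ K g₃ * P⁻¹ ^ 3 := by
        field_simp
        linear_combination hrel
      rw [e] at l
      have := SpecTo.unique hX l r
      norm_num at this
    have s0 := spec_E hcoord hP hP' hw hα h2 hγ hδ 0
    have s1 := spec_E hcoord hP hP' hw hα h2 hγ hδ 1
    rw [h0, zero_div] at s0
    have e0 : Ec P P' 0 / Ec P P' 2 = P'⁻¹ := by simp [Ec]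
    have e1 : Ec P P' 1 / Ec P P' 2 = P / P' := by simp [Ec]
    rw [e0] at s0
    rw [e1] at s1
    have hu0 : β 1 / β 2 = 0 := by
      have r := (((SpecTo.ofNat (x := X.coord) (y := α) 4).mul (s1.pow 3)).sub
        (((SpecTo.const g₂).mul s1).mul (s0.pow 2))).sub ((SpecTo.const g₃).mul (s0.pow 3))
      have e : P'⁻¹ = 4 * (P / P') ^ 3 - algebraMap ℂ K g₂ * (P / P') * P'⁻¹ ^ 2 -
          algebraMap ℂ K g₃ * P'⁻¹ ^ 3 := by
        field_simp
        linear_combination hrel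
      rw [← e] at r
      have := SpecTo.unique hX s0 r
      have h4 : (β 1 / β 2) ^ 3 = 0 := by
        have h5 : 4 * (β 1 / β 2) ^ 3 = 0 := by
          simp only [ne_eq, OfNat.ofNat_ne_zero, not_false_eq_true, zero_pow, mul_zero, sub_zero]
            at this
          exact this.symm
        simpa using h5
      exact pow_eq_zero_iff (by norm_num) |>.mp h4
    have hβ1 : β 1 = 0 := by
      rcases div_eq_zero_iff.mp hu0 with h | h
      · exact h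
      · exact absurd h h2
    rw [hu0] at s1
    obtain ⟨F, hκ⟩ := facE_inf (d₀ := d₀) (d₁ := d₁) hrel hP hP' hPD hPD' hX s0 s1
    have e : (fun j => β j / β 2) = (fun j => (![0, 0, 1] : Fin 3 → ℂ) j) := by
      funext j
      fin_cases j
      · simp [h0]
      · simp [hβ1]
      · simp [h2]
    rw [← e] at F
    exact ⟨2, _, _, h2, hκ, F⟩
  · have s1 := spec_E hcoord hP hP' hw hα h0 hγ hδ 1
    have s2 := spec_E hcoord hP hP' hw hα h0 hγ hδ 2
    have e1 : Ec P P' 1 / Ec P P' 0 = P := by simp [Ec]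
    have e2 : Ec P P' 2 / Ec P P' 0 = P' := by simp [Ec]
    rw [e1] at s1
    rw [e2] at s2
    have e : (fun j => β j / β 0) = (fun j => (![1, β 1 / β 0, β 2 / β 0] : Fin 3 → ℂ) j) := by
      funext j
      fin_cases j
      · simp [h0]
      · simp
      · simp
    by_cases hb : β 2 / β 0 = 0
    · rw [hb] at s2 e
      obtain ⟨F, hκ⟩ := facE_half hrel hP hP' hPD hPD' hns hd₀ hd₁ hX s1 s2
      rw [← e] at F
      exact ⟨0, _, _, h0, hκ, F⟩
    · have F := facE_gen (d₀ := d₀) (d₁ := d₁) hrel hP hP' hPD hd hX s1 s2 hb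
      rw [← e] at F
      exact ⟨0, _, _, h0, ⟨_, hb, s2⟩, F⟩

omit hrel hPD hPD' hns hd₀ hd₁ hd in
include hwD in
theorem exists_facW (hX : ∀ (d : ℕ) (F : MvPolynomial Idx ℂ), F.IsHomogeneous d →
    aeval X.coord F = 0 → aeval α F = 0)
    {β : Fin 3 → ℂ} {γ : Fin 2 → ℂ} {δ : Fin 2 → ℂ}
    (hα : ∀ p, α p = β p.1 * γ p.2.1 * δ p.2.2) (hγ0 : γ ≠ 0)
    {i' : Fin 3} {k' : Fin 2} (hβ : β i' ≠ 0) (hδ : δ k' ≠ 0) :
    ∃ (j' : Fin 2) (m ν : K), γ j' ≠ 0 ∧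
      ((ν = 1 ∧ X.RegularAt α w) ∨ (ν = -(w ^ 2)⁻¹ ∧ X.VanishesAt α w⁻¹)) ∧
      Fac X α (fun q p => HasD η θ q 0 p) (fun j => Wc w j / Wc w j')
        (fun j => γ j / γ j') m ν (gfun w) (gder w) := by
  by_cases h0 : γ 0 = 0
  · have h1 : γ 1 ≠ 0 := by
      intro h1
      apply hγ0
      funext i
      fin_cases i
      · exact h0
      · exact h1
    have s0 := spec_W hcoord hP hP' hw hα hβ h1 hδ 0
    rw [h0, zero_div] at s0
    have e0 : Wc w 0 / Wc w 1 = w⁻¹ := by simp [Wc]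
    rw [e0] at s0
    have F := facW_inf hw hwD hX s0
    have e : (fun j => γ j / γ 1) = (fun j => (![0, 1] : Fin 2 → ℂ) j) := by
      funext j
      fin_cases j
      · simp [h0]
      · simp [h1]
    rw [← e] at F
    exact ⟨1, _, _, h1, Or.inr ⟨rfl, s0⟩, F⟩
  · have s1 := spec_W hcoord hP hP' hw hα hβ h0 hδ 1
    have e1 : Wc w 1 / Wc w 0 = w := by simp [Wc]
    rw [e1] at s1
    have F := facW_fin hw hwD hX s1
    have e : (fun j => γ j / γ 0) = (fun j => (![1, γ 1 / γ 0] : Fin 2 → ℂ) j) := by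
      funext j
      fin_cases j
      · simp [h0]
      · simp
    rw [← e] at F
    exact ⟨0, _, _, h0, Or.inl ⟨rfl, ⟨_, s1⟩⟩, F⟩

include hwD in
/-- The local structure of the surface at each of its points. -/
theorem point_local (hα : X.IsPoint α) :
    ∃ a b ν v q : K, X.IsLocalParameters α a b ∧ UnitAt X α v ∧ v ≠ 0 ∧
      exteriorPower.ιMulti K 2 ![η, θ] = (ν⁻¹ * v * q) • wedge a b ∧
      ((ν = 1 ∧ X.RegularAt α w) ∨ (ν = -(w ^ 2)⁻¹ ∧ X.VanishesAt α w⁻¹)) ∧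
      ((q = 1 ∧ X.RegularAt α (hfun P d₀ d₁) ∧ X.RegularAt α (gfun w)⁻¹) ∨
       (q = gfun w ∧ X.VanishesAt α (hfun P d₀ d₁) ∧ X.VanishesAt α (gfun w) ∧
         X.RegularAt α (hfun P d₀ d₁ / gfun w)) ∨
       (q = (hfun P d₀ d₁)⁻¹ ∧ X.VanishesAt α (hfun P d₀ d₁)⁻¹ ∧ X.VanishesAt α (gfun w)⁻¹) ∨
       (q = 1 ∧ X.RegularAt α (hfun P d₀ d₁)⁻¹ ∧ X.RegularAt α (gfun w)) ∨
       (q = (gfun w)⁻¹ ∧ X.VanishesAt α (hfun P d₀ d₁)⁻¹ ∧ X.VanishesAt α (gfun w)⁻¹ ∧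
         X.RegularAt α ((hfun P d₀ d₁)⁻¹ / (gfun w)⁻¹)) ∨
       (q = hfun P d₀ d₁ ∧ X.VanishesAt α (hfun P d₀ d₁) ∧ X.VanishesAt α (gfun w))) := by
  have hX := hα.2
  obtain ⟨β, γ, δ, hβ0, hγ0, hδ0, hαf⟩ := exists_factor hcoord hα
  obtain ⟨j₀, hj₀⟩ := Function.ne_iff.mp hγ0
  obtain ⟨k₀, hk₀⟩ := Function.ne_iff.mp hδ0
  have hj₀ : γ j₀ ≠ 0 := hj₀
  have hk₀ : δ k₀ ≠ 0 := hk₀
  obtain ⟨i', u, κ, hi', hκ, FE⟩ := exists_facE hcoord hrel hP hP' hw hPD hPD' hns hd₀ hd₁ hd hX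
    hαf hβ0 hj₀ hk₀
  obtain ⟨j', m, ν, hj', hν, FW⟩ := exists_facW hcoord hP hP' hw hwD hX hαf hγ0 hi' hk₀
  have hτ0 := Tc_one_div_zero (d₀ := d₀) (d₁ := d₁) hP hw
  have hτ1 := Tc_zero_div_one (d₀ := d₀) (d₁ := d₁) hP hw
  have hT0 := fun k => Tc_ne_zero (d₀ := d₀) (d₁ := d₁) hP hw k
  by_cases hd0 : δ 0 = 0
  · have hd1 : δ 1 ≠ 0 := by
      intro h1
      apply hδ0
      funext i
      fin_cases i
      · exact hd0
      · exact h1
    have sT := spec_T hcoord hP hP' hw hαf hi' hj' hd1 0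
    rw [hτ1] at sT
    have hD1 : HasD η θ (hfun P d₀ d₁)⁻¹ (-hder P P' d₀ d₁ / hfun P d₀ d₁ ^ 2) 0 :=
      (HasD.inv FE.dh).congr (by ring) (by ring)
    have hD2 : HasD η θ (gfun w)⁻¹ 0 (-gder w / gfun w ^ 2) :=
      (HasD.inv FW.dh).congr (by ring) (by ring)
    have FE' := Fac.swap (D := fun q p => HasD η θ q p 0) hD1 FE
    have FW' := Fac.swap (D := fun q p => HasD η θ q 0 p) hD2 FW
    obtain ⟨a, b, v, q, h1, h2, h3, h4, h5⟩ := local_main FE' FW' hκ hX rfl sT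
      (fun a b ha hb hE hW hT => crit_point hcoord hP hP' hw hαf hi' hj' hd1 ha hb hE hW (by
        intro k
        fin_cases k
        · exact hT.congr hτ1.symm rfl
        · refine Cg.one.congr ?_ ?_
          · exact (div_self (hT0 1)).symm
          · exact (div_self hd1).symm))
    refine ⟨a, b, ν, v, q, h1, h2, h3, h4, hν, ?_⟩
    rcases h5 with ⟨rfl, h6, h7⟩ | ⟨rfl, h6, h7⟩ | ⟨rfl, h6, h7⟩
    · right; right; right; left
      exact ⟨rfl, h6, by simpa using h7⟩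
    · right; right; right; right; left
      exact ⟨rfl, h6, h7, ⟨_, sT⟩⟩
    · right; right; right; right; right
      exact ⟨inv_inv _, by simpa using h6, by simpa using h7⟩
  · have sT := spec_T hcoord hP hP' hw hαf hi' hj' hd0 1
    rw [hτ0] at sT
    obtain ⟨a, b, v, q, h1, h2, h3, h4, h5⟩ := local_main FE FW hκ hX rfl sT
      (fun a b ha hb hE hW hT => crit_point hcoord hP hP' hw hαf hi' hj' hd0 ha hb hE hW (by
        intro k
        fin_cases k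
        · refine Cg.one.congr ?_ ?_
          · exact (div_self (hT0 0)).symm
          · exact (div_self hd0).symm
        · exact hT.congr hτ0.symm rfl))
    refine ⟨a, b, ν, v, q, h1, h2, h3, h4, hν, ?_⟩
    rcases h5 with ⟨rfl, h6, h7⟩ | ⟨rfl, h6, h7⟩ | ⟨rfl, h6, h7⟩
    · left
      exact ⟨rfl, h6, h7⟩
    · right; left
      exact ⟨rfl, h6, h7, ⟨_, sT⟩⟩
    · right; right; left
      exact ⟨rfl, h6, h7⟩

end PointLocal

end Pool.Agent.CanonDeg
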