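import Mathlib
import Pool.Agent.CanonDeg.Defs
import Pool.Agent.CanonDeg.Spec
import Pool.Agent.CanonDeg.Wedge
import Pool.Agent.CanonDeg.Local
import Pool.Agent.CanonDeg.Factors
import Pool.Agent.CanonDeg.Surface
import Pool.Agent.CanonDeg.EllField
import Pool.Agent.CanonDeg.EllWp
import Pool.Agent.CanonDeg.EllPlaces
import Pool.Agent.CanonDeg.EllGen

/-!
# The function field of the surface
-/

open MvPolynomial PeriodPair

namespace Pool.Agent.CanonDeg

variable (Λ : PeriodPair)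

/-- The function field of the surface: rational functions in one variable over the field of
elliptic functions. -/
abbrev KF : Type := RatFunc (Ell Λ)

variable {Λ}

/-- The embedding of the field of elliptic functions. -/
noncomputable def cst (x : Ell Λ) : KF Λ := algebraMap (Ell Λ) (KF Λ) x

theorem cst_algebraMap (c : ℂ) : cst (algebraMap ℂ (Ell Λ) c) = algebraMap ℂ (KF Λ) c := by
  rw [cst, ← IsScalarTower.algebraMap_apply]

theorem cst_injective : Function.Injective (cst : Ell Λ → KF Λ) := (algebraMap (Ell Λ) (KF Λ)).injective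

/-- The Weierstrass function as a function on the surface. -/
noncomputable def kP : KF Λ := cst Ell.wp

/-- The derivative of the Weierstrass function as a function on the surface. -/
noncomputable def kP' : KF Λ := cst Ell.wp'

/-- The coordinate of the line. -/
noncomputable def kw : KF Λ := RatFunc.X

theorem kP_ne (c : ℂ) : (kP : KF Λ) ≠ algebraMap ℂ (KF Λ) c := by
  rw [← cst_algebraMap]
  intro h
  exact Ell.wp_ne_algebraMap c (cst_injective h)

theorem kP'_ne_zero : (kP' : KF Λ) ≠ 0 := by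
  intro h
  apply Ell.wp'_ne_zero (Λ := Λ)
  apply cst_injective
  rw [show cst (0 : Ell Λ) = 0 from map_zero _]
  exact h

theorem kw_ne (c : ℂ) : (kw : KF Λ) ≠ algebraMap ℂ (KF Λ) c := by
  rw [← cst_algebraMap]
  intro h
  have h1 : RatFunc.X = RatFunc.C (algebraMap ℂ (Ell Λ) c) := h
  rw [← RatFunc.algebraMap_X, ← RatFunc.algebraMap_C] at h1
  have h2 := RatFunc.algebraMap_injective (Ell Λ) h1
  exact Polynomial.X_ne_C _ h2

theorem kP_rel : (kP' : KF Λ) ^ 2 = 4 * kP ^ 3 - algebraMap ℂ (KF Λ) Λ.g₂ * kP -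
    algebraMap ℂ (KF Λ) Λ.g₃ := by
  have := congrArg cst (Ell.wp'_sq (Λ := Λ))
  rw [← cst_algebraMap, ← cst_algebraMap]
  simpa only [cst, map_pow, map_sub, map_mul, map_ofNat, kP, kP'] using this

/-- The reference differentials. -/
noncomputable def kη : Ω[KF Λ⁄ℂ] := (kP' : KF Λ)⁻¹ • KaehlerDifferential.D ℂ (KF Λ) kP

/-- The reference differentials. -/
noncomputable def kθ : Ω[KF Λ⁄ℂ] := KaehlerDifferential.D ℂ (KF Λ) kw

theorem hasD_kP : HasD (kη : Ω[KF Λ⁄ℂ]) kθ kP kP' 0 := by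
  rw [HasD, kη, zero_smul, add_zero, smul_smul, mul_inv_cancel₀ kP'_ne_zero, one_smul]

theorem hasD_kw : HasD (kη : Ω[KF Λ⁄ℂ]) kθ kw 0 1 := by
  rw [HasD, kθ, zero_smul, zero_add, one_smul]

theorem hasD_kP' : HasD (kη : Ω[KF Λ⁄ℂ]) kθ kP' (6 * kP ^ 2 - algebraMap ℂ (KF Λ) (Λ.g₂ / 2)) 0 := by
  have hchar : CharZero (KF Λ) := charZero_of_injective_algebraMap (algebraMap ℂ (KF Λ)).injective
  have h := congrArg (KaehlerDifferential.D ℂ (KF Λ)) (kP_rel (Λ := Λ))
  have h4 : (4 : KF Λ) = algebraMap ℂ (KF Λ) 4 := by rw [map_ofNat]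
  rw [h4] at h
  have hP : KaehlerDifferential.D ℂ (KF Λ) kP = (kP' : KF Λ) • (kη : Ω[KF Λ⁄ℂ]) := by
    have := hasD_kP (Λ := Λ); rw [HasD, zero_smul, add_zero] at this; exact this
  have hl : KaehlerDifferential.D ℂ (KF Λ) (kP' ^ 2) =
      (2 * (kP' : KF Λ)) • KaehlerDifferential.D ℂ (KF Λ) (kP' : KF Λ) := by
    rw [Derivation.leibniz_pow]
    simp only [Nat.add_one_sub_one, pow_one, ← smul_assoc, nsmul_eq_mul, smul_eq_mul]
    norm_num
  have hr : KaehlerDifferential.D ℂ (KF Λ) (algebraMap ℂ (KF Λ) 4 * kP ^ 3 -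
      algebraMap ℂ (KF Λ) Λ.g₂ * kP - algebraMap ℂ (KF Λ) Λ.g₃) =
      (12 * (kP : KF Λ) ^ 2 - algebraMap ℂ (KF Λ) Λ.g₂) • ((kP' : KF Λ) • (kη : Ω[KF Λ⁄ℂ])) := by
    rw [map_sub, map_sub, Derivation.map_algebraMap, Derivation.leibniz, Derivation.leibniz,
      Derivation.map_algebraMap, Derivation.map_algebraMap, Derivation.leibniz_pow, hP]
    simp only [smul_zero, add_zero, sub_zero, Nat.add_one_sub_one, smul_smul, ← smul_assoc,
      nsmul_eq_mul, smul_eq_mul, ← sub_smul]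
    congr 1
    rw [map_ofNat]
    push_cast
    ring
  rw [hl, hr] at h
  have h2 : (2 * kP' : KF Λ) ≠ 0 := mul_ne_zero two_ne_zero kP'_ne_zero
  have h5 : KaehlerDifferential.D ℂ (KF Λ) kP' =
      (2 * kP' : KF Λ)⁻¹ • (12 * (kP : KF Λ) ^ 2 - algebraMap ℂ (KF Λ) Λ.g₂) • ((kP' : KF Λ) • (kη : Ω[KF Λ⁄ℂ])) := by
    rw [← h, smul_smul, inv_mul_cancel₀ h2, one_smul]
  rw [HasD, h5, smul_smul, smul_smul, zero_smul, add_zero]
  congr 1
  rw [map_div₀, map_ofNat]
  have := kP'_ne_zero (Λ := Λ)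
  field_simp
  ring

theorem adjoin_kF : IntermediateField.adjoin ℂ {(kP : KF Λ), kP', kw} = ⊤ := by
  rw [eq_top_iff]
  set S := IntermediateField.adjoin ℂ {(kP : KF Λ), kP', kw} with hS
  have hmem : ∀ y ∈ ({(kP : KF Λ), kP', kw} : Set (KF Λ)), y ∈ S :=
    fun y hy => IntermediateField.subset_adjoin _ _ hy
  have hcst : ∀ x : Ell Λ, cst x ∈ S := by
    intro x
    have hx : x ∈ IntermediateField.adjoin ℂ {(Ell.wp : Ell Λ), Ell.wp'} := by
      rw [Ell.adjoin_wp]; trivial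
    have : IntermediateField.adjoin ℂ {(Ell.wp : Ell Λ), Ell.wp'} ≤
        S.comap (IsScalarTower.toAlgHom ℂ (Ell Λ) (KF Λ)) := by
      rw [IntermediateField.adjoin_le_iff]
      rintro y hy
      rcases hy with rfl | rfl
      · exact hmem _ (by simp [kP, cst])
      · exact hmem _ (by simp [kP', cst])
    exact this hx
  have hpol : ∀ p : Polynomial (Ell Λ), algebraMap (Polynomial (Ell Λ)) (KF Λ) p ∈ S := by
    intro p
    induction p using Polynomial.induction_on' with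
    | add p q hp hq => rw [map_add]; exact S.add_mem hp hq
    | monomial n a =>
      rw [← Polynomial.C_mul_X_pow_eq_monomial, map_mul, map_pow, RatFunc.algebraMap_C,
        RatFunc.algebraMap_X]
      exact S.mul_mem (hcst a) (S.pow_mem (hmem _ (by simp [kw])) n)
  rintro x -
  rw [← RatFunc.num_div_denom x]
  exact S.div_mem (hpol _) (hpol _)

theorem trdeg_kF : Algebra.trdeg ℂ (KF Λ) = 2 := by
  have h1 : Algebra.trdeg (Ell Λ) (Polynomial (Ell Λ)) = 1 := Polynomial.trdeg_of_isDomain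
  have halg : Algebra.IsAlgebraic (Polynomial (Ell Λ)) (KF Λ) :=
    IsFractionRing.comap_isAlgebraic_iff (A := Polynomial (Ell Λ)) (K := KF Λ) (C := KF Λ)|>.mpr
      inferInstance
  have h2 : Algebra.trdeg (Polynomial (Ell Λ)) (KF Λ) = 0 := trdeg_eq_zero
  have h3 := trdeg_add_eq (Ell Λ) (Polynomial (Ell Λ)) (A := KF Λ)
  have h4 := trdeg_add_eq ℂ (Ell Λ) (A := KF Λ)
  rw [← h4, ← h3, h1, h2, Ell.trdeg_eq_one, add_zero, one_add_one_eq_two]

end Pool.Agent.CanonDeg
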