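import Mathlib
import Pool.Agent.CanonDeg.Defs
import Pool.Agent.CanonDeg.Spec
import Pool.Agent.CanonDeg.Wedge
import Pool.Agent.CanonDeg.Local
import Pool.Agent.CanonDeg.Factors
import Pool.Agent.CanonDeg.Surface
import Pool.Agent.CanonDeg.EllField
import Pool.Agent.CanonDeg.EllWp
import Pool.Agent.CanonDeg.EllPlaces
import Pool.Agent.CanonDeg.EllGen
import Pool.Agent.CanonDeg.KField
import Pool.Agent.CanonDeg.Curve
import Pool.Agent.CanonDeg.Center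

/-!
# The surface, the curves and their canonical degree
-/

open MvPolynomial PeriodPair

namespace Pool.Agent.CanonDeg

section Gen

variable {K : Type} [Field K] [Algebra ℂ K] {P P' w : K} {d₀ d₁ : ℂ}
  (hP : ∀ c : ℂ, P ≠ algebraMap ℂ K c) (hP' : P' ≠ 0) (hw : ∀ c : ℂ, w ≠ algebraMap ℂ K c)

include hP hP' hw in
theorem adjoin_ratios (h : IntermediateField.adjoin ℂ {P, P', w} = ⊤) :
    IntermediateField.adjoin ℂ {q : K | ∃ i j, xc P P' w d₀ d₁ j ≠ 0 ∧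
      q = xc P P' w d₀ d₁ i / xc P P' w d₀ d₁ j} = ⊤ := by
  rw [eq_top_iff, ← h, IntermediateField.adjoin_le_iff]
  have h0 := xc_ne_zero (d₀ := d₀) (d₁ := d₁) hP hP' hw (0, 0, 0)
  have hT := Tc_ne_zero (d₀ := d₀) (d₁ := d₁) hP hw 0
  rintro x hx
  apply IntermediateField.subset_adjoin
  rcases hx with rfl | rfl | rfl
  · refine ⟨(1, 0, 0), (0, 0, 0), h0, ?_⟩
    simp only [xc, Ec, Wc, Matrix.cons_val_zero, Matrix.cons_val_one]
    field_simp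
  · refine ⟨(2, 0, 0), (0, 0, 0), h0, ?_⟩
    simp only [xc, Ec, Wc, Matrix.cons_val_zero, Matrix.cons_val]
    field_simp
  · refine ⟨(0, 1, 0), (0, 0, 0), h0, ?_⟩
    simp only [xc, Ec, Wc, Matrix.cons_val_zero, Matrix.cons_val_one]
    field_simp

end Gen

variable (Λ : PeriodPair)

/-- The constants `℘(s₀)`, `℘(s₁)`. -/
noncomputable def dd₀ : ℂ := ℘[Λ] (Ell.s₀ Λ)

/-- The constants `℘(s₀)`, `℘(s₁)`. -/
noncomputable def dd₁ : ℂ := ℘[Λ] (Ell.s₁ Λ)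

/-- The surface. -/
noncomputable def surf : ProjVariety Idx (KF Λ) where
  coord := xc kP kP' kw (dd₀ Λ) (dd₁ Λ)
  ne_zero := Function.ne_iff.mpr ⟨(0, 0, 0), xc_ne_zero kP_ne kP'_ne_zero kw_ne _⟩
  generates := adjoin_ratios kP_ne kP'_ne_zero kw_ne adjoin_kF

variable {Λ}

theorem cubic_ne {t : ℂ} (ht : 2 * t ∉ Λ.lattice) :
    4 * ℘[Λ] t ^ 3 - Λ.g₂ * ℘[Λ] t - Λ.g₃ ≠ 0 := by
  have ht' : t ∉ Λ.lattice := Ell.notMem_of_two_mul ht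
  rw [← Λ.derivWeierstrassP_sq t ht']
  intro h
  have h1 : ℘'[Λ] t = 0 := by simpa using h
  exact ht ((Ell.derivWp_eq_zero_iff ht').mp h1)

theorem dd_ne : dd₀ Λ ≠ dd₁ Λ := by
  intro h
  rw [dd₀, dd₁, Ell.wp_eq_iff (Ell.notMem_of_two_mul Ell.two_s₀)
    (Ell.notMem_of_two_mul Ell.two_s₁)] at h
  rcases h with h | h
  · have := Ell.dvd_of_mem₂ (Λ := Λ) (p := -1) (q := 5) (z := Ell.s₀ Λ - Ell.s₁ Λ)
      (by simp only [Ell.s₀, Ell.s₁]; push_cast; ring) h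
    omega
  · have := Ell.dvd_of_mem₂ (Λ := Λ) (p := 3) (q := 5) (z := Ell.s₀ Λ + Ell.s₁ Λ)
      (by simp only [Ell.s₀, Ell.s₁]; push_cast; ring) h
    omega

/-- The reference `2`-form. -/
noncomputable def omega0 : ⋀[KF Λ]^2 (Ω[KF Λ⁄ℂ]) :=
  exteriorPower.ιMulti (KF Λ) 2 ![(kη : Ω[KF Λ⁄ℂ]), kθ]

theorem surf_local {α : Idx → ℂ} (hα : (surf Λ).IsPoint α) :
    ∃ a b ν v q : KF Λ, (surf Λ).IsLocalParameters α a b ∧ UnitAt (surf Λ) α v ∧ v ≠ 0 ∧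
      omega0 = (ν⁻¹ * v * q) • wedge a b ∧
      ((ν = 1 ∧ (surf Λ).RegularAt α kw) ∨ (ν = -(kw ^ 2)⁻¹ ∧ (surf Λ).VanishesAt α kw⁻¹)) ∧
      ((q = 1 ∧ (surf Λ).RegularAt α (hfun kP (dd₀ Λ) (dd₁ Λ)) ∧
          (surf Λ).RegularAt α (gfun kw)⁻¹) ∨
       (q = gfun kw ∧ (surf Λ).VanishesAt α (hfun kP (dd₀ Λ) (dd₁ Λ)) ∧
         (surf Λ).VanishesAt α (gfun kw) ∧
         (surf Λ).RegularAt α (hfun kP (dd₀ Λ) (dd₁ Λ) / gfun kw)) ∨
       (q = (hfun kP (dd₀ Λ) (dd₁ Λ))⁻¹ ∧ (surf Λ).VanishesAt α (hfun kP (dd₀ Λ) (dd₁ Λ))⁻¹ ∧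
         (surf Λ).VanishesAt α (gfun kw)⁻¹) ∨
       (q = 1 ∧ (surf Λ).RegularAt α (hfun kP (dd₀ Λ) (dd₁ Λ))⁻¹ ∧
         (surf Λ).RegularAt α (gfun kw)) ∨
       (q = (gfun kw)⁻¹ ∧ (surf Λ).VanishesAt α (hfun kP (dd₀ Λ) (dd₁ Λ))⁻¹ ∧
         (surf Λ).VanishesAt α (gfun kw)⁻¹ ∧
         (surf Λ).RegularAt α ((hfun kP (dd₀ Λ) (dd₁ Λ))⁻¹ / (gfun kw)⁻¹)) ∨
       (q = hfun kP (dd₀ Λ) (dd₁ Λ) ∧ (surf Λ).VanishesAt α (hfun kP (dd₀ Λ) (dd₁ Λ)) ∧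
         (surf Λ).VanishesAt α (gfun kw))) :=
  point_local (X := surf Λ) (g₂ := Λ.g₂) (g₃ := Λ.g₃) (fun _ => rfl) kP_rel kP_ne kP'_ne_zero
    kw_ne hasD_kP hasD_kP' hasD_kw (fun _ h => Ell.nonsingular h) (cubic_ne Ell.two_s₀)
    (cubic_ne Ell.two_s₁) dd_ne hα

theorem surf_smooth : (surf Λ).IsSmoothSurface := by
  refine ⟨trdeg_kF, fun α hα => ?_⟩
  obtain ⟨a, b, ν, v, q, h, -⟩ := surf_local hα
  exact ⟨a, b, h⟩

/-! ### The curves -/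

section CurveSec

variable (n : ℕ) (hn : (n : ℤ) ≠ 0) (h10 : 10 ∣ n) (N : ℤ) (hN : N ≠ 0)

/-- The function `℘(N z + s₀)`. -/
noncomputable def cP : Ell Λ := Ell.aff N hN (Ell.s₀ Λ) Ell.wp

/-- The function `℘'(N z + s₀)`. -/
noncomputable def cP' : Ell Λ := Ell.aff N hN (Ell.s₀ Λ) Ell.wp'

theorem cP_ne (c : ℂ) : cP (Λ := Λ) N hN ≠ algebraMap ℂ (Ell Λ) c := by
  intro h
  have h1 : Ell.aff (Λ := Λ) N hN (Ell.s₀ Λ) Ell.wp =
      Ell.aff N hN (Ell.s₀ Λ) (algebraMap ℂ (Ell Λ) c) := by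
    rw [AlgHom.commutes]; exact h
  exact Ell.wp_ne_algebraMap (Λ := Λ) c
    ((Ell.aff (Λ := Λ) N hN (Ell.s₀ Λ)).toRingHom.injective h1)

theorem cP'_ne_zero : cP' (Λ := Λ) N hN ≠ 0 := by
  intro h
  have h1 : Ell.aff (Λ := Λ) N hN (Ell.s₀ Λ) Ell.wp' = Ell.aff N hN (Ell.s₀ Λ) 0 := by
    rw [map_zero]; exact h
  exact Ell.wp'_ne_zero (Λ := Λ) ((Ell.aff (Λ := Λ) N hN (Ell.s₀ Λ)).toRingHom.injective h1)

include h10 in
theorem adjoin_curve :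
    IntermediateField.adjoin ℂ {cP (Λ := Λ) N hN, cP' N hN, Ell.FF Λ n hn} = ⊤ :=
  Ell.adjoin_eq_top N hN (Ell.s₀ Λ) (Ell.FF Λ n hn)
    (fun r _ h => Ell.stabilizer_FF n hn h10 r h)

/-- The curve: the image of `z ↦ (N z + s₀, F_n(z))`. -/
noncomputable def curv : ProjVariety Idx (Ell Λ) where
  coord := xc (cP N hN) (cP' N hN) (Ell.FF Λ n hn) (dd₀ Λ) (dd₁ Λ)
  ne_zero := Function.ne_iff.mpr ⟨(0, 0, 0), xc_ne_zero (cP_ne N hN) (cP'_ne_zero N hN)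
    (Ell.FF_ne_algebraMap n hn h10) _⟩
  generates := adjoin_ratios (cP_ne N hN) (cP'_ne_zero N hN) (Ell.FF_ne_algebraMap n hn h10)
    (adjoin_curve n hn h10 N hN)

/-- The coordinates as elements of the polynomial ring. -/
noncomputable def xr (Λ : PeriodPair) (p : Idx) : Polynomial (Ell Λ) :=
  (![1, Polynomial.C Ell.wp, Polynomial.C Ell.wp'] : Fin 3 → Polynomial (Ell Λ)) p.1 *
  (![1, Polynomial.X] : Fin 2 → Polynomial (Ell Λ)) p.2.1 *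
  (![(Polynomial.C Ell.wp - algebraMap ℂ _ (dd₁ Λ)) * (Polynomial.X * (Polynomial.X - 1)),
    (Polynomial.C Ell.wp - algebraMap ℂ _ (dd₀ Λ)) * (Polynomial.X ^ 3 + 1)] :
      Fin 2 → Polynomial (Ell Λ)) p.2.2

/-- The specialization homomorphism. -/
noncomputable def psi : Polynomial (Ell Λ) →ₐ[ℂ] Ell Λ :=
  { Polynomial.eval₂RingHom (Ell.aff N hN (Ell.s₀ Λ)).toRingHom (Ell.FF Λ n hn) with
    commutes' := fun c => by
      simp [IsScalarTower.algebraMap_apply ℂ (Ell Λ) (Polynomial (Ell Λ))] }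

theorem psi_C (x : Ell Λ) : psi n hn N hN (Polynomial.C x) = Ell.aff N hN (Ell.s₀ Λ) x := by
  show Polynomial.eval₂ _ _ _ = _
  simp

theorem psi_X : psi (Λ := Λ) n hn N hN Polynomial.X = Ell.FF Λ n hn := by
  show Polynomial.eval₂ _ _ _ = _
  simp

theorem curv_sub (d : ℕ) (F : MvPolynomial Idx ℂ)
    (_ : F.IsHomogeneous d) (h : aeval (surf Λ).coord F = 0) :
    aeval (curv n hn h10 N hN).coord F = (0 : Ell Λ) := by
  have e1 : (surf Λ).coord = fun p => IsScalarTower.toAlgHom ℂ (Polynomial (Ell Λ)) (KF Λ)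
      (xr Λ p) := by
    funext p
    obtain ⟨i, j, k⟩ := p
    have hC : ∀ x : Ell Λ, algebraMap (Polynomial (Ell Λ)) (KF Λ) (Polynomial.C x) = cst x :=
      fun x => RatFunc.algebraMap_C x
    have hX : algebraMap (Polynomial (Ell Λ)) (KF Λ) Polynomial.X = kw := RatFunc.algebraMap_X
    fin_cases i <;> fin_cases j <;> fin_cases k <;>
      simp [surf, xc, Ec, Wc, Tc, xr, hC, hX, kP, kP', cst_algebraMap]
  have e2 : (curv n hn h10 N hN).coord = fun p => psi (Λ := Λ) n hn N hN (xr Λ p) := by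
    funext p
    obtain ⟨i, j, k⟩ := p
    fin_cases i <;> fin_cases j <;> fin_cases k <;>
      simp [curv, xc, Ec, Wc, Tc, xr, psi_C, psi_X, cP, cP']
  rw [e1, ← comp_aeval_apply] at h
  rw [e2, ← comp_aeval_apply]
  have h2 : aeval (xr Λ) F = 0 := by
    apply RatFunc.algebraMap_injective (Ell Λ)
    rw [map_zero]
    exact h
  rw [h2, map_zero]

theorem curv_isCurve :
    IsCurveIn (surf Λ) (curv (Λ := Λ) n hn h10 N hN) :=
  ⟨Ell.trdeg_eq_one, curv_sub n hn h10 N hN⟩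

end CurveSec

end Pool.Agent.CanonDeg
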