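import Mathlib
import Pool.Agent.CanonDeg.Degree

/-!
# The canonical degree of the curves
-/

open MvPolynomial PeriodPair

namespace Pool.Agent.CanonDeg

variable {Λ : PeriodPair}

section Orders

theorem ordZ_gfun_of_neg {z : ℂ} {F : Ell Λ} (hF : ∀ c : ℂ, F ≠ algebraMap ℂ (Ell Λ) c)
    (h : Ell.ordZ z F < 0) : Ell.ordZ z (gfun F) = - Ell.ordZ z F := by
  have h0 := w_ne_zero hF
  have h1 := w_sub_one_ne_zero hF
  have h2 := w_cube_ne_zero hF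
  have e0 := Ell.coe_ordZ z h0
  have e1 : Ell.ordZ z (F - 1) = Ell.ordZ z F := by
    apply Ell.ordZ_eq
    rw [sub_eq_add_neg, Ell.ord_add_of_lt, e0]
    rw [Ell.ord_neg, Ell.ord_one, ← e0]
    exact_mod_cast h
  have e2 : Ell.ordZ z (F ^ 3 + 1) = 3 * Ell.ordZ z F := by
    have h3 : Ell.ordZ z (F ^ 3) = 3 * Ell.ordZ z F := by
      rw [Ell.ordZ_pow]; norm_num
    apply Ell.ordZ_eq
    rw [Ell.ord_add_of_lt, ← Ell.coe_ordZ z (pow_ne_zero _ h0), h3]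
    rw [Ell.ord_one, ← Ell.coe_ordZ z (pow_ne_zero _ h0), h3]
    exact_mod_cast (by omega : 3 * Ell.ordZ z F < 0)
  rw [gfun, Ell.ordZ_div z (mul_ne_zero h0 h1) h2, Ell.ordZ_mul z h0 h1, e1, e2]
  ring

theorem ordZ_gfun_of_pos {z : ℂ} {F : Ell Λ} (hF : ∀ c : ℂ, F ≠ algebraMap ℂ (Ell Λ) c)
    (h : 0 < Ell.ordZ z F) : Ell.ordZ z (gfun F) = Ell.ordZ z F := by
  have h0 := w_ne_zero hF
  have h1 := w_sub_one_ne_zero hF
  have h2 := w_cube_ne_zero hF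
  have v0 : Val z F 0 := by
    rw [Val, map_zero, sub_zero]
    exact (Ell.ordZ_pos_iff h0).mp h
  have v1 : Val z (1 : Ell Λ) 1 := by simpa using Val.const (Λ := Λ) z 1
  have vm : Val z (-1 : Ell Λ) (-1) := by simpa using Val.const (Λ := Λ) z (-1)
  have e1 : Ell.ordZ z (F - 1) = 0 := by
    rw [sub_eq_add_neg]
    exact (v0.add vm).ord_eq_zero (by norm_num)
  have e2 : Ell.ordZ z (F ^ 3 + 1) = 0 := by
    have : F ^ 3 + 1 = F * F * F + 1 := by ring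
    rw [this]
    exact (((v0.mul v0).mul v0).add v1).ord_eq_zero (by norm_num)
  rw [gfun, Ell.ordZ_div z (mul_ne_zero h0 h1) h2, Ell.ordZ_mul z h0 h1, e1, e2]
  ring

theorem ordZ_gfun_of_one {z : ℂ} {F : Ell Λ} (hF : ∀ c : ℂ, F ≠ algebraMap ℂ (Ell Λ) c)
    (h : 0 < Ell.ord z (F - 1)) : 0 < Ell.ordZ z (gfun F) := by
  have h0 := w_ne_zero hF
  have h1 := w_sub_one_ne_zero hF
  have h2 := w_cube_ne_zero hF
  have v0 : Val z F 1 := by
    rw [Val, map_one]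
    exact h
  have v1 : Val z (1 : Ell Λ) 1 := by simpa using Val.const (Λ := Λ) z 1
  have e1 : Ell.ordZ z F = 0 := v0.ord_eq_zero one_ne_zero
  have e2 : Ell.ordZ z (F ^ 3 + 1) = 0 := by
    have : F ^ 3 + 1 = F * F * F + 1 := by ring
    rw [this]
    exact (((v0.mul v0).mul v0).add v1).ord_eq_zero (by norm_num)
  have e3 := (Ell.ordZ_pos_iff h1).mpr h
  rw [gfun, Ell.ordZ_div z (mul_ne_zero h0 h1) h2, Ell.ordZ_mul z h0 h1, e1, e2]
  omega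

theorem ordZ_hh_self {z : ℂ} (hz : z ∈ Λ.lattice) : Ell.ordZ (z + Ell.s₀ Λ) (Ell.hh Λ) = 1 := by
  classical
  rw [Ell.ordZ_hh, if_pos (Or.inl (by simpa using hz)), if_neg]
  · norm_num
  · rintro (h | h)
    · have h' := sub_mem h hz
      have := Ell.dvd_of_mem₂ (Λ := Λ) (p := -1) (q := 5) (z := z + Ell.s₀ Λ - Ell.s₁ Λ - z)
        (by simp only [Ell.s₀, Ell.s₁]; push_cast; ring) h'
      omega
    · have h' := sub_mem h hz
      have := Ell.dvd_of_mem₂ (Λ := Λ) (p := 3) (q := 5) (z := z + Ell.s₀ Λ + Ell.s₁ Λ - z)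
        (by simp only [Ell.s₀, Ell.s₁]; push_cast; ring) h'
      omega

theorem ordZ_hh_range (z : ℂ) :
    Ell.ordZ z (Ell.hh Λ) = -1 ∨ Ell.ordZ z (Ell.hh Λ) = 0 ∨ Ell.ordZ z (Ell.hh Λ) = 1 := by
  classical
  rw [Ell.ordZ_hh]
  split_ifs <;> norm_num

end Orders

section Data

variable (n : ℕ) (hn : (n : ℤ) ≠ 0) (h10 : 10 ∣ n) (N : ℤ) (hN : N ≠ 0)

/-- The restriction of `h` to the curve. -/
noncomputable def hphi : Ell Λ := Ell.aff N hN (Ell.s₀ Λ) (Ell.hh Λ)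

theorem hfun_cP : hfun (cP (Λ := Λ) N hN) (dd₀ Λ) (dd₁ Λ) = hphi N hN := by
  rw [hfun, hphi, Ell.hh, map_div₀, map_sub, map_sub, AlgHom.commutes, AlgHom.commutes]
  rfl

theorem ordZ_hphi (z : ℂ) : Ell.ordZ z (hphi (Λ := Λ) N hN) =
    Ell.ordZ (N * z + Ell.s₀ Λ) (Ell.hh Λ) := Ell.ordZ_aff N hN _ z _

theorem hphi_ne_zero : hphi (Λ := Λ) N hN ≠ 0 := by
  rw [← hfun_cP]
  exact hfun_ne_zero (cP_ne N hN)

theorem spec_kP : SpecTo (surf Λ).coord (curv (Λ := Λ) n hn h10 N hN).coord kP (cP N hN) := by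
  have h := SpecTo.coord (x := (surf Λ).coord) (y := (curv (Λ := Λ) n hn h10 N hN).coord)
    (1, 0, 0) (0, 0, 0) (xc_ne_zero kP_ne kP'_ne_zero kw_ne _)
    (xc_ne_zero (cP_ne N hN) (cP'_ne_zero N hN) (Ell.FF_ne_algebraMap n hn h10) _)
  refine h.congr ?_ ?_
  · have := Tc_ne_zero (d₀ := dd₀ Λ) (d₁ := dd₁ Λ) (kP_ne (Λ := Λ)) (kw_ne (Λ := Λ)) 0
    simp only [surf, xc, Ec, Wc, Matrix.cons_val_zero, Matrix.cons_val_one]
    field_simp
  · have := Tc_ne_zero (d₀ := dd₀ Λ) (d₁ := dd₁ Λ) (cP_ne (Λ := Λ) N hN)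
      (Ell.FF_ne_algebraMap (Λ := Λ) n hn h10) 0
    simp only [curv, xc, Ec, Wc, Matrix.cons_val_zero, Matrix.cons_val_one]
    field_simp

theorem spec_kw : SpecTo (surf Λ).coord (curv (Λ := Λ) n hn h10 N hN).coord kw
    (Ell.FF Λ n hn) := by
  have h := SpecTo.coord (x := (surf Λ).coord) (y := (curv (Λ := Λ) n hn h10 N hN).coord)
    (0, 1, 0) (0, 0, 0) (xc_ne_zero kP_ne kP'_ne_zero kw_ne _)
    (xc_ne_zero (cP_ne N hN) (cP'_ne_zero N hN) (Ell.FF_ne_algebraMap n hn h10) _)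
  refine h.congr ?_ ?_
  · have := Tc_ne_zero (d₀ := dd₀ Λ) (d₁ := dd₁ Λ) (kP_ne (Λ := Λ)) (kw_ne (Λ := Λ)) 0
    simp only [surf, xc, Ec, Wc, Matrix.cons_val_zero, Matrix.cons_val_one]
    field_simp
  · have := Tc_ne_zero (d₀ := dd₀ Λ) (d₁ := dd₁ Λ) (cP_ne (Λ := Λ) N hN)
      (Ell.FF_ne_algebraMap (Λ := Λ) n hn h10) 0
    simp only [curv, xc, Ec, Wc, Matrix.cons_val_zero, Matrix.cons_val_one]
    field_simp

theorem spec_h : SpecTo (surf Λ).coord (curv (Λ := Λ) n hn h10 N hN).coord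
    (hfun kP (dd₀ Λ) (dd₁ Λ)) (hphi N hN) := by
  rw [← hfun_cP]
  exact ((spec_kP n hn h10 N hN).sub (SpecTo.const _)).div
    ((spec_kP n hn h10 N hN).sub (SpecTo.const _)) (P_sub_ne_zero kP_ne _)
    (P_sub_ne_zero (cP_ne N hN) _)

theorem spec_g : SpecTo (surf Λ).coord (curv (Λ := Λ) n hn h10 N hN).coord
    (gfun kw) (gfun (Ell.FF Λ n hn)) := by
  have h := spec_kw (Λ := Λ) n hn h10 N hN
  exact (h.mul (h.sub SpecTo.one)).div ((h.pow 3).add SpecTo.one) (w_cube_ne_zero kw_ne)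
    (w_cube_ne_zero (Ell.FF_ne_algebraMap n hn h10))

/-- The local data at a place. -/
theorem place_data (z : ℂ) :
    ∃ (α : Idx → ℂ) (a b J : KF Λ) (jz : Ell Λ) (e : ℤ), jz ≠ 0 ∧
      IsCenter (curv (Λ := Λ) n hn h10 N hN) (Ell.place z) α ∧
      (surf Λ).IsLocalParameters α a b ∧ omega0 = J • wedge a b ∧
      SpecTo (surf Λ).coord (curv (Λ := Λ) n hn h10 N hN).coord J jz ∧
      Ell.ordZ z jz = (if Ell.ordZ z (Ell.FF Λ n hn) < 0 then 2 * Ell.ordZ z (Ell.FF Λ n hn)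
        else 0) + e ∧ 0 ≤ e ∧ (e ≠ 0 → Ell.ordZ z (hphi (Λ := Λ) N hN) ≠ 0) ∧
      (0 < Ell.ordZ z (hphi (Λ := Λ) N hN) → 0 < Ell.ordZ z (gfun (Ell.FF Λ n hn)) → e = 1) := by
  set C := curv (Λ := Λ) n hn h10 N hN with hC
  obtain ⟨α, j, hα, hj, hv⟩ := exists_center C z
  have hsub : ∀ (d : ℕ) (F : MvPolynomial Idx ℂ), F.IsHomogeneous d →
    aeval (surf Λ).coord F = 0 → aeval C.coord F = 0 := curv_sub n hn h10 N hN
  have hpt : (surf Λ).IsPoint α := isPoint_of hα hj hv hsub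
  obtain ⟨a, b, ν, v, q, hab, hunit, hv0, hom, hν, hq⟩ := surf_local hpt
  obtain ⟨cv, hcv, sv⟩ := hunit
  obtain ⟨vz, svz, hvz⟩ := exists_spec hj hv sv
  have hvz0 : vz ≠ 0 := hvz.ne_zero hcv
  have hvzo : Ell.ordZ z vz = 0 := hvz.ord_eq_zero hcv
  have sh := spec_h (Λ := Λ) n hn h10 N hN
  have sg := spec_g (Λ := Λ) n hn h10 N hN
  have sw := spec_kw (Λ := Λ) n hn h10 N hN
  rw [← hC] at sh sg sw
  have hF := Ell.FF_ne_algebraMap (Λ := Λ) n hn h10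
  have hF0 : Ell.FF Λ n hn ≠ 0 := Ell.FF_ne_zero n hn
  have hg0 : gfun (Ell.FF Λ n hn) ≠ 0 := gfun_ne_zero hF
  have hh0 : hphi (Λ := Λ) N hN ≠ 0 := hphi_ne_zero N hN
  have kh0 : hfun (kP : KF Λ) (dd₀ Λ) (dd₁ Λ) ≠ 0 := hfun_ne_zero kP_ne
  have kg0 : gfun (kw : KF Λ) ≠ 0 := gfun_ne_zero kw_ne
  -- signs
  have reg : ∀ {Q : KF Λ} {r : Ell Λ}, (surf Λ).RegularAt α Q → SpecTo (surf Λ).coord C.coord Q r →
      r ≠ 0 → 0 ≤ Ell.ordZ z r := by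
    rintro Q r ⟨c, hc⟩ hr hr0
    rw [Ell.ordZ_nonneg_iff hr0]
    exact (val_of_spec hj hv hsub hc hr).nonneg
  have van : ∀ {Q : KF Λ} {r : Ell Λ}, (surf Λ).VanishesAt α Q →
      SpecTo (surf Λ).coord C.coord Q r → r ≠ 0 → 0 < Ell.ordZ z r := by
    rintro Q r hc hr hr0
    rw [Ell.ordZ_pos_iff hr0]
    have := val_of_spec hj hv hsub hc hr
    rwa [Val, map_zero, sub_zero] at this
  -- the factor `ν`
  obtain ⟨νz, hνz0, sν, hνo⟩ : ∃ νz : Ell Λ, νz ≠ 0 ∧ SpecTo (surf Λ).coord C.coord ν⁻¹ νz ∧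
      Ell.ordZ z νz = (if Ell.ordZ z (Ell.FF Λ n hn) < 0 then 2 * Ell.ordZ z (Ell.FF Λ n hn)
        else 0) := by
    rcases hν with ⟨rfl, h1⟩ | ⟨rfl, h1⟩
    · refine ⟨1, one_ne_zero, by simpa using SpecTo.one, ?_⟩
      have := reg h1 sw hF0
      rw [if_neg (by omega), Ell.ordZ_one]
    · refine ⟨-(Ell.FF Λ n hn) ^ 2, neg_ne_zero.mpr (pow_ne_zero _ hF0), ?_, ?_⟩
      · refine (sw.pow 2).neg.congr ?_ rfl
        rw [inv_neg, inv_inv]
      · have h2 := van h1 (sw.inv (w_ne_zero kw_ne) hF0) (inv_ne_zero hF0)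
        rw [Ell.ordZ_inv] at h2
        rw [if_pos (by omega)]
        rw [show Ell.ordZ z (-(Ell.FF Λ n hn) ^ 2) = Ell.ordZ z ((Ell.FF Λ n hn) ^ 2) by
          rw [Ell.ordZ, Ell.ord_neg, ← Ell.ordZ], Ell.ordZ_pow]
        norm_num
  have hrange := ordZ_hh_range (Λ := Λ) (N * z + Ell.s₀ Λ)
  rw [← ordZ_hphi N hN z] at hrange
  -- the factor `q`
  obtain ⟨qz, hqz0, sq, he1, he2, he3⟩ : ∃ qz : Ell Λ, qz ≠ 0 ∧
      SpecTo (surf Λ).coord C.coord q qz ∧ 0 ≤ Ell.ordZ z qz ∧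
      (Ell.ordZ z qz ≠ 0 → Ell.ordZ z (hphi (Λ := Λ) N hN) ≠ 0) ∧
      (0 < Ell.ordZ z (hphi (Λ := Λ) N hN) → 0 < Ell.ordZ z (gfun (Ell.FF Λ n hn)) →
        Ell.ordZ z qz = 1) := by
    rcases hq with ⟨rfl, h1, h2⟩ | ⟨rfl, h1, h2, h3⟩ | ⟨rfl, h1, h2⟩ | ⟨rfl, h1, h2⟩ |
      ⟨rfl, h1, h2, h3⟩ | ⟨rfl, h1, h2⟩
    · have k2 := reg h2 (sg.inv kg0 hg0) (inv_ne_zero hg0)
      rw [Ell.ordZ_inv] at k2
      refine ⟨1, one_ne_zero, SpecTo.one, ?_, ?_, ?_⟩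
      · rw [Ell.ordZ_one]
      · rw [Ell.ordZ_one]; exact fun h => absurd rfl h
      · intro _ h; omega
    · have k1 := van h1 sh hh0
      have k2 := van h2 sg hg0
      have k3 := reg h3 (sh.div sg kg0 hg0) (div_ne_zero hh0 hg0)
      rw [Ell.ordZ_div z hh0 hg0] at k3
      refine ⟨_, hg0, sg, k2.le, ?_, ?_⟩
      · intro _; omega
      · intro _ _; omega
    · have k1 := van h1 (sh.inv kh0 hh0) (inv_ne_zero hh0)
      refine ⟨_, inv_ne_zero hh0, sh.inv kh0 hh0, k1.le, ?_, ?_⟩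
      · rw [Ell.ordZ_inv] at k1; intro _; omega
      · rw [Ell.ordZ_inv] at k1; intro _ _; omega
    · have k1 := reg h1 (sh.inv kh0 hh0) (inv_ne_zero hh0)
      rw [Ell.ordZ_inv] at k1
      refine ⟨1, one_ne_zero, SpecTo.one, ?_, ?_, ?_⟩
      · rw [Ell.ordZ_one]
      · rw [Ell.ordZ_one]; exact fun h => absurd rfl h
      · intro h _; omega
    · have k1 := van h1 (sh.inv kh0 hh0) (inv_ne_zero hh0)
      have k2 := van h2 (sg.inv kg0 hg0) (inv_ne_zero hg0)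
      rw [Ell.ordZ_inv] at k1
      refine ⟨_, inv_ne_zero hg0, sg.inv kg0 hg0, k2.le, ?_, ?_⟩
      · intro _; omega
      · intro _ _; omega
    · have k1 := van h1 sh hh0
      refine ⟨_, hh0, sh, k1.le, ?_, ?_⟩
      · intro _; omega
      · intro _ _; omega
  refine ⟨α, a, b, ν⁻¹ * v * q, νz * vz * qz, Ell.ordZ z qz,
    mul_ne_zero (mul_ne_zero hνz0 hvz0) hqz0, isCenter_of hα hj hv, hab, hom,
    (sν.mul svz).mul sq, ?_, he1, he2, he3⟩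
  rw [Ell.ordZ_mul z (mul_ne_zero hνz0 hvz0) hqz0, Ell.ordZ_mul z hνz0 hvz0, hνo, hvzo, add_zero]

theorem finite_places {x : Ell Λ} (hx : x ≠ 0) : {A : Place (Ell Λ) | A.ord x ≠ 0}.Finite := by
  classical
  obtain ⟨S, hS⟩ := Ell.finite_support hx
  refine (S.image (fun s => (Ell.place s : Place (Ell Λ)))).finite_toSet.subset ?_
  intro A hA
  obtain ⟨z, rfl⟩ := Ell.exists_place_eq A
  rw [Set.mem_ofPred_eq, Ell.ord_place hx] at hA
  have hz' : Ell.ord z x ≠ 0 := by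
    rw [← Ell.coe_ordZ z hx]
    exact_mod_cast hA
  obtain ⟨s, hs, hzs⟩ := hS z hz'
  rw [Finset.coe_image]
  exact ⟨s, hs, (Ell.place_eq_iff.mpr hzs).symm⟩

theorem main_degree (hNn : N = 5 * n * (n + 1)) : ∃ k : ℤ, (n : ℤ) ≤ k ∧
    IsCanonicalDegree (surf Λ) (curv (Λ := Λ) n hn h10 N hN) k := by
  have hF := Ell.FF_ne_algebraMap (Λ := Λ) n hn h10
  have hF0 : Ell.FF Λ n hn ≠ 0 := Ell.FF_ne_zero n hn
  have hg0 : gfun (Ell.FF Λ n hn) ≠ 0 := gfun_ne_zero hF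
  have hh0 : hphi (Λ := Λ) N hN ≠ 0 := hphi_ne_zero N hN
  have key : ∀ A : Place (Ell Λ), ∃ (α : Idx → ℂ) (a b J : KF Λ) (jz : Ell Λ) (e : ℤ), jz ≠ 0 ∧
      IsCenter (curv (Λ := Λ) n hn h10 N hN) A α ∧
      (surf Λ).IsLocalParameters α a b ∧ omega0 = J • wedge a b ∧
      SpecTo (surf Λ).coord (curv (Λ := Λ) n hn h10 N hN).coord J jz ∧
      A.ord jz = (if A.ord (Ell.FF Λ n hn) < 0 then 2 * A.ord (Ell.FF Λ n hn)
        else 0) + e ∧ 0 ≤ e ∧ (e ≠ 0 → A.ord (hphi (Λ := Λ) N hN) ≠ 0) ∧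
      (0 < A.ord (hphi (Λ := Λ) N hN) → 0 < A.ord (gfun (Ell.FF Λ n hn)) → e = 1) := by
    intro A
    obtain ⟨z, rfl⟩ := Ell.exists_place_eq A
    obtain ⟨α, a, b, J, jz, e, h0, h1, h2, h3, h4, h5, h6, h7, h8⟩ :=
      place_data (Λ := Λ) n hn h10 N hN z
    refine ⟨α, a, b, J, jz, e, h0, h1, h2, h3, h4, ?_, h6, ?_, ?_⟩
    · rw [Ell.ord_place h0, Ell.ord_place hF0]; exact h5
    · rw [Ell.ord_place hh0]; exact h7
    · rw [Ell.ord_place hh0, Ell.ord_place hg0]; exact h8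
  choose α a b J j e h0 h1 h2 h3 h4 h5 h6 h7 h8 using key
  have hfin : {A : Place (Ell Λ) | A.ord (j A) ≠ 0}.Finite := by
    refine ((finite_places hF0).union (finite_places hh0)).subset ?_
    intro A hA
    by_contra hc
    rw [Set.mem_union, not_or, Set.mem_ofPred_eq, Set.mem_ofPred_eq, not_not, not_not] at hc
    apply hA
    have he : e A = 0 := by
      by_contra he
      exact h7 A he hc.2
    rw [h5 A, he, hc.1]
    simp
  -- the orders at `place z`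
  have hz : ∀ z : ℂ, (Ell.place z : Place (Ell Λ)).ord (j (Ell.place z)) =
      (if Ell.ordZ z (Ell.FF Λ n hn) < 0 then 2 * Ell.ordZ z (Ell.FF Λ n hn) else 0) +
        e (Ell.place z) := by
    intro z
    rw [h5, Ell.ord_place hF0]
  have hone : ∀ z : ℂ, (N : ℂ) * z ∈ Λ.lattice → 0 < Ell.ordZ z (gfun (Ell.FF Λ n hn)) →
      e (Ell.place z) = 1 := by
    intro z hNz hg
    apply h8
    · rw [Ell.ord_place hh0, ordZ_hphi, ordZ_hh_self hNz]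
      norm_num
    · rw [Ell.ord_place hg0]; exact hg
  have htors1 : ∀ z : ℂ, Ell.ordZ z (Ell.FF Λ n hn) ≠ 0 → (N : ℂ) * z ∈ Λ.lattice := by
    intro z hz
    have h9 := Ell.torsion_of_ordZ_FF n hn h10 z hz
    have h10 := Ell.intCast_mul_mem ((n : ℤ) + 1) h9
    convert h10 using 1
    rw [hNn]
    push_cast
    ring
  have htors2 : ∀ z : ℂ, ((n + 1 : ℕ) : ℂ) * z ∈ Λ.lattice → (N : ℂ) * z ∈ Λ.lattice := by
    intro z hz
    have h10 := Ell.intCast_mul_mem (5 * (n : ℤ)) hz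
    convert h10 using 1
    rw [hNn]
    push_cast
    ring
  refine ⟨∑ᶠ A : Place (Ell Λ), A.ord (j A), ?_, fun D E => evalAt D E omega0, j,
    fun A => ⟨h0 A, α A, a A, b A, J A, h1 A, h2 A, fun D E => ?_, h4 A⟩, hfin, rfl⟩
  on_goal 2 =>
    show evalAt D E omega0 = _
    rw [h3 A, evalAt_smul_wedge]
  apply Ell.le_finsum n hn h10 (fun A => A.ord (j A)) hfin
  · intro z hneg
    show -1 ≤ (Ell.place z : Place (Ell Λ)).ord (j (Ell.place z))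
    have hr := Ell.ordZ_FF (Λ := Λ) n hn h10 z
    rw [hz, if_pos hneg, hone z (htors1 z hneg.ne) (by
      rw [ordZ_gfun_of_neg hF hneg]; omega)]
    omega
  · intro z hpos
    show 1 ≤ (Ell.place z : Place (Ell Λ)).ord (j (Ell.place z))
    rw [hz, if_neg (by omega), hone z (htors1 z hpos.ne') (by
      rw [ordZ_gfun_of_pos hF hpos]; exact hpos)]
    norm_num
  · intro z ht
    show 1 ≤ (Ell.place z : Place (Ell Λ)).ord (j (Ell.place z))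
    have h9 := Ell.FF_eq_one n hn h10 z ht
    have h11 : Ell.ordZ z (Ell.FF Λ n hn) = 0 := by
      have : Val z (Ell.FF Λ n hn) 1 := by
        rw [Val, map_one]; exact h9
      exact this.ord_eq_zero one_ne_zero
    rw [hz, h11, if_neg (lt_irrefl 0), hone z (htors2 z ht) (ordZ_gfun_of_one hF h9)]
    norm_num
  · intro z hnn
    show 0 ≤ (Ell.place z : Place (Ell Λ)).ord (j (Ell.place z))
    rw [hz, if_neg (by omega)]
    have := h6 (Ell.place z)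
    omega

end Data

end Pool.Agent.CanonDeg
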